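import Pool.Agent.Run7.h897.FS.Ring

/-!
# Time slices of a torus
-/

set_option linter.unusedSectionVars false
set_option linter.unusedVariables false

open MeasureTheory Filter Topology

namespace Pool.Agent.Run7.h897.FS

/-! ### measures -/

section meas

variable {G : Type*} [MeasurableSpace G] {μ : Measure G} [IsProbabilityMeasure μ]
  {ι κ : Type*} [Fintype ι] [Fintype κ]

lemma mp_comp (σ : ι ≃ κ) : MeasurePreserving (fun (U : κ → G) (i : ι) => U (σ i))
    (Measure.pi fun _ => μ) (Measure.pi fun _ => μ) := by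
  have h := (measurePreserving_piCongrLeft (fun _ : κ => μ) σ).symm
  convert h using 1
  rfl

lemma mp_curry : MeasurePreserving (fun (U : ι × κ → G) (i : ι) (j : κ) => U (i, j))
    (Measure.pi fun _ => μ) (Measure.pi fun _ => Measure.pi fun _ => μ) where
  measurable := by
    refine measurable_pi_iff.2 fun i => measurable_pi_iff.2 fun j => ?_
    exact measurable_pi_apply _
  map_eq := by
    have h := Measure.infinitePi_map_curry (ι := ι) (κ := κ) (X := G) (fun _ _ => μ)
    simp only [Measure.infinitePi_eq_pi] at h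
    exact h

lemma mp_sum : MeasurePreserving (fun (U : ι ⊕ κ → G) =>
    ((fun i => U (Sum.inl i), fun j => U (Sum.inr j)) : (ι → G) × (κ → G)))
    (Measure.pi fun _ => μ) ((Measure.pi fun _ => μ).prod (Measure.pi fun _ => μ)) :=
  measurePreserving_sumPiEquivProdPi (fun _ => μ)

end meas

/-! ### slices -/

section slices

variable {G : Type*} {E A B : Type} [Fintype E] [Fintype A] [Fintype B] {N : ℕ} [NeZero N]
  (σ : (ZMod N × A) ⊕ (ZMod N × B) ≃ E)

/-- the variables of the slice `t` -/
def xs (U : E → G) (t : ZMod N) : A → G := fun e => U (σ (Sum.inl (t, e)))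

/-- the time links based in the slice `t` -/
def gs (U : E → G) (t : ZMod N) : B → G := fun y => U (σ (Sum.inr (t, y)))

variable [MeasurableSpace G] {μ : Measure G} [IsProbabilityMeasure μ]

/-- the product measure -/
noncomputable abbrev PM (μ : Measure G) (ι : Type*) [Fintype ι] : Measure (ι → G) :=
  Measure.pi fun _ => μ

lemma mp_slices : MeasurePreserving (fun U : E → G => ((fun t => xs σ U t, fun t => gs σ U t) :
      (ZMod N → A → G) × (ZMod N → B → G)))
    (PM μ E) ((Measure.pi fun _ => PM μ A).prod (Measure.pi fun _ => PM μ B)) := by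
  have h1 : MeasurePreserving (fun (U : E → G) j => U (σ j)) (PM μ E) (PM μ _) :=
    mp_comp (μ := μ) σ
  have h2 := mp_sum (μ := μ) (ι := ZMod N × A) (κ := ZMod N × B)
  have h3 := (mp_curry (μ := μ) (ι := ZMod N) (κ := A)).prod
    (mp_curry (μ := μ) (ι := ZMod N) (κ := B))
  exact h3.comp (h2.comp h1)

lemma xs_meas (t : ZMod N) : Measurable fun U : E → G => xs σ U t :=
  measurable_pi_iff.2 fun _ => measurable_pi_apply _

lemma gs_meas (t : ZMod N) : Measurable fun U : E → G => gs σ U t :=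
  measurable_pi_iff.2 fun _ => measurable_pi_apply _

lemma int_slices {f : (ZMod N → A → G) × (ZMod N → B → G) → ℝ} (hf : BM f) :
    ∫ U, f (fun t => xs σ U t, fun t => gs σ U t) ∂(PM μ E) =
      ∫ x, ∫ g, f (x, g) ∂(Measure.pi fun _ => PM μ B) ∂(Measure.pi fun _ => PM μ A) := by
  have h := mp_slices (μ := μ) σ
  rw [← fub hf, ← h.map_eq, integral_map h.measurable.aemeasurable]
  exact hf.1.aestronglyMeasurable

/-- the kernel obtained by integrating over the time links -/
noncomputable def kk (μ : Measure G) (κ : (A → G) → (B → G) → (A → G) → ℝ)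
    (x x' : A → G) : ℝ := ∫ g, κ x g x' ∂(PM μ B)

/-- measurability of the weight -/
def BK (κ : (A → G) → (B → G) → (A → G) → ℝ) : Prop :=
  BM fun w : ((A → G) × (A → G)) × (B → G) => κ w.1.1 w.2 w.1.2

variable {κ : (A → G) → (B → G) → (A → G) → ℝ}

lemma kk_bm (hκ : BK κ) : BM (Function.uncurry (kk μ κ)) := hκ.intg

/-- integration over the time links -/
lemma int_ring (hκ : BK κ) {h : (ZMod N → A → G) → ℝ} (hh : BM h) :
    ∫ U, h (fun t => xs σ U t) * ∏ t, κ (xs σ U t) (gs σ U t) (xs σ U (t + 1)) ∂(PM μ E) =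
      ∫ x, h x * ∏ t, kk μ κ (x t) (x (t + 1)) ∂(Measure.pi fun _ => PM μ A) := by
  have h1 := int_slices (μ := μ) σ
    (f := fun w => h w.1 * ∏ t, κ (w.1 t) (w.2 t) (w.1 (t + 1))) ?_
  · refine h1.trans ?_
    congr 1
    funext x
    simp only
    rw [integral_const_mul]
    congr 1
    exact integral_fintype_prod_eq_prod (fun t g => κ (x t) g (x (t + 1)))
  · refine (hh.comp measurable_fst).mul (BM.prod _ fun t _ => ?_)
    exact BM.comp hκ (φ := fun w : (ZMod N → A → G) × (ZMod N → B → G) =>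
        ((w.1 t, w.1 (t + 1)), w.2 t))
      ((((measurable_pi_apply t).comp measurable_fst).prodMk
        ((measurable_pi_apply (t + 1)).comp measurable_fst)).prodMk
        ((measurable_pi_apply t).comp measurable_snd))

/-- the partition function -/
lemma int_ring_zero (hκ : BK κ) :
    ∫ U, ∏ t, κ (xs σ U t) (gs σ U t) (xs σ U (t + 1)) ∂(PM μ E) =
      A1 (PM μ A) (kp (PM μ A) (kk μ κ)) N (fun _ => 1) := by
  have h1 := int_ring (μ := μ) σ hκ (BM.const 1)
  simp only [one_mul] at h1
  rw [h1]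
  exact ring_zero (kk_bm hκ)

lemma int_ring_one (hκ : BK κ) {F : (A → G) → ℝ} (hF : BM F) :
    ∫ U, F (xs σ U 0) * ∏ t, κ (xs σ U t) (gs σ U t) (xs σ U (t + 1)) ∂(PM μ E) =
      A1 (PM μ A) (kp (PM μ A) (kk μ κ)) N F := by
  have h1 := int_ring (μ := μ) σ hκ (h := fun x => F (x 0)) (hF.comp (measurable_pi_apply 0))
  rw [h1]
  exact ring_one (kk_bm hκ) hF

lemma int_ring_two (hκ : BK κ) {F F' : (A → G) → ℝ} (hF : BM F) (hF' : BM F')
    {τ : ℕ} (hτ : 1 ≤ τ) (hτN : τ < N) :
    ∫ U, F (xs σ U 0) * F' (xs σ U (τ : ZMod N)) *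
        ∏ t, κ (xs σ U t) (gs σ U t) (xs σ U (t + 1)) ∂(PM μ E) =
      A2 (PM μ A) (kp (PM μ A) (kk μ κ)) τ (N - τ) F F' := by
  have h1 := int_ring (μ := μ) σ hκ (h := fun x => F (x 0) * F' (x (τ : ZMod N)))
    ((hF.comp (measurable_pi_apply 0)).mul (hF'.comp (measurable_pi_apply _)))
  rw [h1]
  exact ring_two (kk_bm hκ) hF hF' hτ hτN

end slices

end Pool.Agent.Run7.h897.FS
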