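import Mathlib

/-!
# Bounded measurable functions on probability spaces
-/

open MeasureTheory Filter Topology

namespace Pool.Agent.Run7.h897.FS

/-- bounded measurable functions -/
def BM {X : Type*} [MeasurableSpace X] (f : X → ℝ) : Prop :=
  Measurable f ∧ ∃ C, ∀ x, |f x| ≤ C

variable {X Y : Type*} [MeasurableSpace X] [MeasurableSpace Y] {μ : Measure X}
  {ν : Measure Y} [IsProbabilityMeasure μ] [IsProbabilityMeasure ν] {f g : X → ℝ}

lemma BM.int (hf : BM f) : Integrable f μ := by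
  obtain ⟨h1, C, hC⟩ := hf
  exact Integrable.of_bound h1.aestronglyMeasurable C (Eventually.of_forall hC)

lemma BM.const (c : ℝ) : BM fun _ : X => c := ⟨measurable_const, |c|, fun _ => le_refl _⟩

lemma BM.add (hf : BM f) (hg : BM g) : BM fun x => f x + g x := by
  obtain ⟨h1, C, hC⟩ := hf
  obtain ⟨h2, D, hD⟩ := hg
  exact ⟨h1.add h2, C + D, fun x => (abs_add_le _ _).trans (add_le_add (hC x) (hD x))⟩

lemma BM.neg (hf : BM f) : BM fun x => -f x := by
  obtain ⟨h1, C, hC⟩ := hf
  exact ⟨h1.neg, C, fun x => by rw [abs_neg]; exact hC x⟩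

lemma BM.sub (hf : BM f) (hg : BM g) : BM fun x => f x - g x := by
  simpa only [sub_eq_add_neg] using hf.add hg.neg

lemma BM.mul (hf : BM f) (hg : BM g) : BM fun x => f x * g x := by
  obtain ⟨h1, C, hC⟩ := hf
  obtain ⟨h2, D, hD⟩ := hg
  refine ⟨h1.mul h2, |C| * |D|, fun x => ?_⟩
  rw [abs_mul]
  exact mul_le_mul ((hC x).trans (le_abs_self C)) ((hD x).trans (le_abs_self D)) (abs_nonneg _)
    (abs_nonneg _)

lemma BM.pow (hf : BM f) (n : ℕ) : BM fun x => f x ^ n := by
  induction n with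
  | zero => simpa using BM.const 1
  | succ n ih => simpa only [pow_succ] using ih.mul hf

lemma BM.comp {f : Y → ℝ} (hf : BM f) {φ : X → Y} (hφ : Measurable φ) : BM fun x => f (φ x) := by
  obtain ⟨h1, C, hC⟩ := hf
  exact ⟨h1.comp hφ, C, fun x => hC _⟩

lemma BM.sum {ι : Type*} (s : Finset ι) {f : ι → X → ℝ} (h : ∀ i ∈ s, BM (f i)) :
    BM fun x => ∑ i ∈ s, f i x := by
  classical
  induction s using Finset.induction_on with
  | empty => simpa using BM.const 0
  | insert a s ha ih =>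
    simp only [Finset.sum_insert ha]
    exact (h a (Finset.mem_insert_self a s)).add
      (ih fun i hi => h i (Finset.mem_insert_of_mem hi))

lemma BM.prod {ι : Type*} (s : Finset ι) {f : ι → X → ℝ} (h : ∀ i ∈ s, BM (f i)) :
    BM fun x => ∏ i ∈ s, f i x := by
  classical
  induction s using Finset.induction_on with
  | empty => simpa using BM.const 1
  | insert a s ha ih =>
    simp only [Finset.prod_insert ha]
    exact (h a (Finset.mem_insert_self a s)).mul
      (ih fun i hi => h i (Finset.mem_insert_of_mem hi))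

lemma abs_int_le {C : ℝ} (h : ∀ x, |f x| ≤ C) : |∫ x, f x ∂μ| ≤ C := by
  have := norm_integral_le_of_norm_le_const (μ := μ) (f := f) (C := C) (Eventually.of_forall h)
  simpa using this

/-- integration of one variable -/
lemma BM.intg {f : X × Y → ℝ} (hf : BM f) : BM fun x => ∫ y, f (x, y) ∂ν := by
  obtain ⟨h1, C, hC⟩ := hf
  exact ⟨(h1.stronglyMeasurable.integral_prod_right' (ν := ν)).measurable, C,
    fun x => abs_int_le fun y => hC _⟩

/-- Fubini -/
lemma fub {f : X × Y → ℝ} (hf : BM f) :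
    ∫ z, f z ∂(μ.prod ν) = ∫ x, ∫ y, f (x, y) ∂ν ∂μ :=
  integral_prod f hf.int

/-- exchange of integrals -/
lemma swp {f : X → Y → ℝ} (hf : BM (Function.uncurry f)) :
    ∫ x, ∫ y, f x y ∂ν ∂μ = ∫ y, ∫ x, f x y ∂μ ∂ν :=
  integral_integral_swap hf.int

/-- Schwarz -/
lemma schwarz (hf : BM f) (hg : BM g) :
    (∫ x, f x * g x ∂μ) ^ 2 ≤ (∫ x, f x ^ 2 ∂μ) * ∫ x, g x ^ 2 ∂μ := by
  have h1 : ∀ t : ℝ, 0 ≤ (∫ x, g x ^ 2 ∂μ) * (t * t) + (2 * ∫ x, f x * g x ∂μ) * t +
      ∫ x, f x ^ 2 ∂μ := by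
    intro t
    have h2 : ∫ x, (f x + t * g x) ^ 2 ∂μ = (∫ x, g x ^ 2 ∂μ) * (t * t) +
        (2 * ∫ x, f x * g x ∂μ) * t + ∫ x, f x ^ 2 ∂μ := by
      have e : ∀ x, (f x + t * g x) ^ 2 = (t * t) * g x ^ 2 + (2 * t) * (f x * g x) + f x ^ 2 :=
        fun x => by ring
      simp only [e]
      rw [integral_add, integral_add, integral_const_mul, integral_const_mul]
      · ring
      · exact ((hg.pow 2).int).const_mul _
      · exact ((hf.mul hg).int).const_mul _
      · exact (((hg.pow 2).int).const_mul _).add (((hf.mul hg).int).const_mul _)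
      · exact (hf.pow 2).int
    rw [← h2]
    exact integral_nonneg fun x => sq_nonneg _
  have h3 := discrim_le_zero h1
  rw [discrim] at h3
  nlinarith

lemma schwarz' (hf : BM f) (hg : BM g) :
    |∫ x, f x * g x ∂μ| ≤ √(∫ x, f x ^ 2 ∂μ) * √(∫ x, g x ^ 2 ∂μ) := by
  rw [← Real.sqrt_mul (integral_nonneg fun x => sq_nonneg _)]
  exact Real.abs_le_sqrt (schwarz hf hg)

/-- log-convex sequences -/
lemma interp {g : ℕ → ℝ} (h0 : ∀ n, 0 ≤ g n) (h : ∀ n, g (n + 1) ^ 2 ≤ g n * g (n + 2)) (S : ℕ) :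
    ∀ s ≤ S, g s ^ S ≤ g 0 ^ (S - s) * g S ^ s := by
  induction S with
  | zero =>
    intro s hs
    obtain rfl : s = 0 := by omega
    simp
  | succ S ih =>
    have key : g S ^ (S + 1) ≤ g 0 * g (S + 1) ^ S := by
      rcases Nat.eq_zero_or_pos S with rfl | hS
      · simp
      · obtain ⟨R, rfl⟩ : ∃ R, S = R + 1 := ⟨S - 1, by omega⟩
        have h1 := ih R (by omega)
        rw [show R + 1 - R = 1 by omega, pow_one] at h1
        have h2 : (g (R + 1) ^ 2) ^ (R + 1) ≤ (g R * g (R + 2)) ^ (R + 1) :=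
          pow_le_pow_left₀ (sq_nonneg _) (h R) _
        rcases (h0 (R + 1)).eq_or_lt with h3 | h3
        · rw [← h3]
          have : (0 : ℝ) ^ (R + 1 + 1) = 0 := by simp
          rw [this]
          exact mul_nonneg (h0 0) (pow_nonneg (h0 _) _)
        · have h4 : g (R + 1) ^ R * g (R + 1) ^ (R + 1 + 1) ≤
              g (R + 1) ^ R * (g 0 * g (R + 2) ^ (R + 1)) := by
            calc g (R + 1) ^ R * g (R + 1) ^ (R + 1 + 1) = (g (R + 1) ^ 2) ^ (R + 1) := by
                  rw [← pow_add, ← pow_mul]; congr 1; ring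
              _ ≤ (g R * g (R + 2)) ^ (R + 1) := h2
              _ = g R ^ (R + 1) * g (R + 2) ^ (R + 1) := mul_pow _ _ _
              _ ≤ (g 0 * g (R + 1) ^ R) * g (R + 2) ^ (R + 1) :=
                  mul_le_mul_of_nonneg_right h1 (pow_nonneg (h0 _) _)
              _ = _ := by ring
          exact le_of_mul_le_mul_left h4 (pow_pos h3 _)
    intro s hs
    rcases Nat.lt_or_ge s (S + 1) with hs' | hs'
    · rcases Nat.eq_zero_or_pos S with rfl | hS
      · have : s = 0 := by omega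
        subst this
        simp
      have h1 := ih s (by omega)
      have h2 : (g s ^ (S + 1)) ^ S ≤ (g 0 ^ (S + 1 - s) * g (S + 1) ^ s) ^ S := by
        calc (g s ^ (S + 1)) ^ S = (g s ^ S) ^ (S + 1) := by rw [← pow_mul, ← pow_mul, mul_comm]
          _ ≤ (g 0 ^ (S - s) * g S ^ s) ^ (S + 1) := pow_le_pow_left₀ (pow_nonneg (h0 _) _) h1 _
          _ = g 0 ^ ((S - s) * (S + 1)) * (g S ^ (S + 1)) ^ s := by
              rw [mul_pow, ← pow_mul, ← pow_mul, ← pow_mul, mul_comm (S + 1) s]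
          _ ≤ g 0 ^ ((S - s) * (S + 1)) * (g 0 * g (S + 1) ^ S) ^ s := by
              apply mul_le_mul_of_nonneg_left _ (pow_nonneg (h0 _) _)
              exact pow_le_pow_left₀ (pow_nonneg (h0 _) _) key _
          _ = g 0 ^ ((S - s) * (S + 1) + s) * g (S + 1) ^ (S * s) := by
              rw [mul_pow, pow_add, ← pow_mul]; ring
          _ = (g 0 ^ (S + 1 - s) * g (S + 1) ^ s) ^ S := by
              rw [mul_pow, ← pow_mul, ← pow_mul, mul_comm s S]
              congr 2
              obtain ⟨r, rfl⟩ := Nat.exists_eq_add_of_le (show s ≤ S by omega)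
              rw [show s + r - s = r by omega, show s + r + 1 - s = r + 1 by omega]
              ring
      exact (pow_le_pow_iff_left₀ (pow_nonneg (h0 _) _)
        (mul_nonneg (pow_nonneg (h0 _) _) (pow_nonneg (h0 _) _)) (by omega)).1 h2
    · have : s = S + 1 := by omega
      subst this
      simp

end Pool.Agent.Run7.h897.FS
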