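import Pool.Agent.Run7.h897.FS.Fm

/-!
# Exponential clustering from the finite volume criterion
-/

set_option linter.unusedSectionVars false
set_option linter.unusedVariables false
set_option linter.style.haveILetI false

open MeasureTheory Filter Topology

namespace Pool.Agent.Run7.h897.FS

/-! ### scales -/

lemma exists_scale {a n k0 : ℕ} (ha : 1 ≤ a) (hn : 2 ^ (k0 + 2) * a ≤ n) :
    ∃ k, k0 ≤ k ∧ 2 * (2 ^ (k + 1) * a) ≤ n ∧ n ≤ 4 * (2 ^ (k + 1) * a) := by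
  have h1 : 2 ^ (k0 + 2) ≤ n / a := (Nat.le_div_iff_mul_le (by omega)).2 hn
  have h0 : n / a ≠ 0 := by
    have := Nat.one_le_two_pow (n := k0 + 2)
    omega
  obtain ⟨m, hm⟩ : ∃ m, m = Nat.log 2 (n / a) := ⟨_, rfl⟩
  have h2 : 2 ^ m ≤ n / a := hm ▸ Nat.pow_log_le_self 2 h0
  have h3 : n / a < 2 ^ (m + 1) := hm ▸ Nat.lt_pow_succ_log_self (by norm_num) _
  have h4 : k0 + 2 ≤ m := by
    rw [hm]
    exact Nat.le_log_of_pow_le (by norm_num) h1
  obtain ⟨k, rfl⟩ : ∃ k, m = k + 2 := ⟨m - 2, by omega⟩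
  refine ⟨k, by omega, ?_, ?_⟩
  · have := (Nat.le_div_iff_mul_le (show 0 < a by omega)).1 h2
    calc 2 * (2 ^ (k + 1) * a) = 2 ^ (k + 2) * a := by ring
      _ ≤ n := this
  · have := (Nat.div_lt_iff_lt_mul (show 0 < a by omega)).1 h3
    calc n ≤ 2 ^ (k + 2 + 1) * a := this.le
      _ = 4 * (2 ^ (k + 1) * a) := by ring

/-- the small quantity at the scale `k` -/
noncomputable def xk (d k : ℕ) : ℝ := 1 / (3 * 5 ^ (d - 1)) * (1 / 2) ^ 2 ^ (k + 1)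

lemma xk_pos (d k : ℕ) : 0 < xk d k := by unfold xk; positivity

lemma xk_tend (d : ℕ) : Tendsto (xk d) atTop (𝓝 0) := by
  have h1 : Tendsto (fun k : ℕ => ((1 : ℝ) / 2) ^ 2 ^ (k + 1)) atTop (𝓝 0) := by
    refine (tendsto_pow_atTop_nhds_zero_of_lt_one (by norm_num) (by norm_num)).comp ?_
    refine tendsto_atTop_mono (fun k => ?_) tendsto_id
    have := Nat.lt_two_pow_self (n := k + 1)
    simp only [id]
    omega
  have h2 := h1.const_mul (1 / (3 * 5 ^ (d - 1)) : ℝ)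
  rw [mul_zero] at h2
  exact h2

lemma xk_le {d : ℕ} (hd : 2 ≤ d) (k : ℕ) :
    xk d k * Real.exp (2 * xk d k) ≤ (1 / 2) ^ 2 ^ (k + 1) := by
  have hK : (1 : ℝ) / (3 * 5 ^ (d - 1)) ≤ 1 / 15 := by
    apply one_div_le_one_div_of_le (by norm_num)
    have : (5 : ℝ) ^ 1 ≤ 5 ^ (d - 1) := pow_le_pow_right₀ (by norm_num) (by omega)
    linarith
  have h1 : ((1 : ℝ) / 2) ^ 2 ^ (k + 1) ≤ 1 := pow_le_one₀ (by norm_num) (by norm_num)
  have h2 : (0 : ℝ) < (1 / 2) ^ 2 ^ (k + 1) := by positivity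
  have h3 : xk d k ≤ 1 / 15 := by
    unfold xk
    calc _ ≤ 1 / 15 * (1 : ℝ) := mul_le_mul hK h1 h2.le (by norm_num)
      _ = _ := by ring
  have h4 : Real.exp (2 * xk d k) ≤ 15 := by
    have h5 : Real.exp (2 * xk d k) ≤ Real.exp 1 := Real.exp_le_exp.2 (by linarith)
    have h6 := Real.exp_one_lt_d9
    linarith
  calc xk d k * Real.exp (2 * xk d k) ≤ (1 / 15 * (1 / 2) ^ 2 ^ (k + 1)) * 15 := by
        refine mul_le_mul ?_ h4 (Real.exp_pos _).le (by positivity)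
        unfold xk
        exact mul_le_mul_of_nonneg_right hK h2.le
    _ = _ := by ring

/-- the error at the scale `k` -/
noncomputable def er (d a τ k : ℕ) : ℝ :=
  Real.exp (2 * xk d k) * (((xk d k * Real.exp (2 * xk d k)) ^
    (1 / (2 * (2 ^ (k + 1) * a : ℕ) : ℝ))) ^ τ +
      xk d k * Real.exp (xk d k * τ / (2 ^ (k + 1) * a : ℕ)))

lemma er_le {d a : ℕ} (hd : 2 ≤ d) (ha : 1 ≤ a) (τ k : ℕ) :
    er d a τ k ≤ Real.exp (2 * xk d k) * ((1 / 2 : ℝ) ^ (τ / (2 * a) : ℝ) +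
      xk d k * Real.exp (xk d k * τ)) := by
  unfold er
  have hx := xk_pos d k
  have ha' : (1 : ℝ) ≤ a := by exact_mod_cast ha
  have hs : (1 : ℝ) ≤ (2 ^ (k + 1) * a : ℕ) := by
    have : 1 ≤ 2 ^ (k + 1) * a := Nat.one_le_iff_ne_zero.2 (by positivity)
    exact_mod_cast this
  apply mul_le_mul_of_nonneg_left _ (Real.exp_pos _).le
  apply add_le_add
  · have h1 := Real.rpow_le_rpow (by positivity) (xk_le hd k)
      (show (0 : ℝ) ≤ 1 / (2 * (2 ^ (k + 1) * a : ℕ) : ℝ) by positivity)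
    have h2 := pow_le_pow_left₀ (Real.rpow_nonneg (by positivity) _) h1 τ
    refine h2.trans (le_of_eq ?_)
    rw [← Real.rpow_natCast (1 / 2 : ℝ) (2 ^ (k + 1)), ← Real.rpow_mul (by norm_num),
      ← Real.rpow_natCast _ τ, ← Real.rpow_mul (by norm_num)]
    congr 1
    push_cast
    field_simp
  · apply mul_le_mul_of_nonneg_left _ hx.le
    apply Real.exp_le_exp.2
    apply div_le_self (by positivity) hs

lemma er_lim {d a : ℕ} (hd : 2 ≤ d) (ha : 1 ≤ a) (τ : ℕ) {δ : ℝ} (hδ : 0 < δ) :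
    ∃ k0, ∀ k, k0 ≤ k → er d a τ k ≤ (1 / 2 : ℝ) ^ (τ / (2 * a) : ℝ) + δ := by
  have h1 := xk_tend d
  have h2 : Tendsto (fun k => Real.exp (2 * xk d k) * ((1 / 2 : ℝ) ^ (τ / (2 * a) : ℝ) +
      xk d k * Real.exp (xk d k * τ))) atTop (𝓝 (Real.exp (2 * 0) *
        ((1 / 2 : ℝ) ^ (τ / (2 * a) : ℝ) + 0 * Real.exp (0 * τ)))) := by
    have e1 := (Real.continuous_exp.tendsto _).comp (h1.const_mul 2)
    have e2 := (Real.continuous_exp.tendsto _).comp (h1.mul_const (τ : ℝ))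
    exact e1.mul ((h1.mul e2).const_add _)
  rw [mul_zero, Real.exp_zero, zero_mul, add_zero, one_mul] at h2
  have h3 := h2.eventually_lt_const (show (1 / 2 : ℝ) ^ (τ / (2 * a) : ℝ) <
    (1 / 2 : ℝ) ^ (τ / (2 * a) : ℝ) + δ by linarith)
  obtain ⟨k0, hk0⟩ := eventually_atTop.1 h3
  exact ⟨k0, fun k hk => (er_le hd ha τ k).trans (hk0 k hk).le⟩

/-! ### finite tori -/

section torus

variable {D : ℕ} {G : Type*} [Group G] [MeasurableSpace G] [MeasurableMul₂ G] [MeasurableInv G]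
  {μ : Measure G} [IsProbabilityMeasure μ] {w : G → ℝ}

/-- the expectation -/
noncomputable def Ex {d : ℕ} (μ : Measure G) (w : G → ℝ) (b : Fin d → Fin d → ℝ)
    (L : Fin d → ℕ) [∀ i, NeZero (L i)] (H : (Lk L → G) → ℝ) : ℝ :=
  (∫ U : Lk L → G, H U * Real.exp (-act w b U) ∂(PM μ (Lk L))) / Zf μ w b L

/-- the criterion in terms of the half sides -/
def CritH (μ : Measure G) (w : G → ℝ) {d : ℕ} (b : Fin d → Fin d → ℝ) (a : ℕ) : Prop :=
  ∀ (i : Fin d) (m : Fin d → ℕ), m i = a → (∀ j, j ≠ i → m j = 2 * a ∨ m j = 4 * a) →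
    dP (fun n => ZH μ w b (Function.update m i n)) a ≤ 1 / (6 * 5 ^ (d - 1))

/-- clustering in a finite cube -/
theorem cluster_fin [μ.IsInvInvariant] (hb : BM w) (hw : Wt w)
    (b : Fin (D + 1) → Fin (D + 1) → ℝ) (hD : 1 ≤ D) {a : ℕ} (ha : 1 ≤ a)
    (hcr : CritH μ w b a) {k n τ : ℕ} (h1 : 2 * (2 ^ (k + 1) * a) ≤ n)
    (h2 : n ≤ 4 * (2 ^ (k + 1) * a)) (hτ : 1 ≤ τ) (hτ2 : τ ≤ 2 * (2 ^ (k + 1) * a))
    (i : Fin (D + 1)) (L : Fin (D + 1) → ℕ) [∀ i, NeZero (L i)] (hL : ∀ i, L i = 2 * n)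
    {F F' : (Lk (cs L i) → G) → ℝ} (hF : BM F) (hF' : BM F') {C C' : ℝ}
    (hC : ∀ x, |F x| ≤ C) (hC' : ∀ x, |F' x| ≤ C') (hC0 : 0 ≤ C) (hC0' : 0 ≤ C') :
    |Ex μ w b L (fun U => F (xs (sg L i) U 0) * F' (xs (sg L i) U (τ : ZMod (L i)))) -
        Ex μ w b L (fun U => F (xs (sg L i) U 0)) *
          Ex μ w b L (fun U => F' (xs (sg L i) U 0))| ≤ 2 * C * C' * er (D + 1) a τ k := by
  set s0 := 2 ^ (k + 1) * a with hs0
  have hs01 : 1 ≤ s0 := Nat.one_le_iff_ne_zero.2 (by positivity)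
  have hd : 2 ≤ D + 1 := by omega
  have hsc := scales (fam (μ := μ) hb hw b) hd ha hcr k
  rw [← hs0] at hsc
  set m : Fin (D + 1) → ℕ := fun _ => n with hm
  have hm1 : ∀ j, 1 ≤ m j := fun j => by simp only [hm]; omega
  set E : ℕ → ℝ := fun r => ZH μ w b (Function.update m i r) with hE
  have hTS : TS E := fam hb hw b m hm1 i
  have hψ : psi E s0 ≤ xk (D + 1) k := by
    have := hsc i (Function.update m i s0) (by rw [Function.update_self]) fun j hj => by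
      rw [Function.update_of_ne hj]
      simp only [hm]
      omega
    rw [psD_update] at this
    exact this
  have hK := kp_KS (μ := PM μ (Lk (cs L i))) (tk_bm (μ := μ) (C := cs L i) hb b i)
    (tk_symm hb hw b i)
  have hEE : ∀ r, 1 ≤ r → EE (PM μ (Lk (cs L i)))
      (kp (PM μ (Lk (cs L i))) (tk μ (cs L i) w b i)) r = E r := by
    intro r hr
    exact (ZH_EE hb hw b i hm1 (fun j => hL (i.succAbove j)) hr).symm
  -- the splitting of the rest of the circle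
  obtain ⟨q, hq⟩ : ∃ q, τ + (s0 + q) = n + n := ⟨n + n - τ - s0, by omega⟩
  have hqs : s0 ≤ q := by omega
  have hcov := hK.cov_norm hTS hEE hs01 hτ le_rfl hqs hq hψ hF hF' hC hC' hC0 hC0'
  have hLi : L i = τ + (s0 + q) := by rw [hq, hL i]; ring
  have e0 : Zf μ w b L = A1 (PM μ (Lk (cs L i)))
      (kp (PM μ (Lk (cs L i))) (tk μ (cs L i) w b i)) (τ + (s0 + q)) (fun _ => 1) := by
    rw [Zf_eq hb hw b i, hLi]
  have e1 : ∀ {H : (Lk (cs L i) → G) → ℝ}, BM H →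
      ∫ U : Lk L → G, H (xs (sg L i) U 0) * Real.exp (-act w b U) ∂(PM μ (Lk L)) =
        A1 (PM μ (Lk (cs L i))) (kp (PM μ (Lk (cs L i))) (tk μ (cs L i) w b i))
          (τ + (s0 + q)) H := by
    intro H hH
    simp only [← prod_kw hw b i]
    rw [← hLi]
    exact int_ring_one (μ := μ) (sg L i) (kw_bm hb b i) hH
  have e2 : ∫ U : Lk L → G, (F (xs (sg L i) U 0) * F' (xs (sg L i) U (τ : ZMod (L i)))) *
      Real.exp (-act w b U) ∂(PM μ (Lk L)) =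
        A2 (PM μ (Lk (cs L i))) (kp (PM μ (Lk (cs L i))) (tk μ (cs L i) w b i)) τ
          (s0 + q) F F' := by
    simp only [← prod_kw hw b i]
    have hr : s0 + q = L i - τ := by omega
    rw [hr]
    exact int_ring_two (μ := μ) (sg L i) (kw_bm hb b i) hF hF' hτ (by omega)
  have hZ : 0 < Zf μ w b L := (act_bm hb b).neg.exp.int_pos fun U => Real.exp_pos _
  unfold Ex
  rw [e2, e1 hF, e1 hF']
  rw [← e0] at hcov
  set Z := Zf μ w b L
  have e3 : ∀ A B B' : ℝ, A / Z - B / Z * (B' / Z) = (A * Z - B * B') / Z ^ 2 := by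
    intro A B B'
    field_simp
  rw [e3, abs_div, abs_of_pos (show 0 < Z ^ 2 by positivity), div_le_iff₀ (by positivity)]
  exact hcov

/-- clustering in large cubes -/
theorem cluster_lim [μ.IsInvInvariant] (hb : BM w) (hw : Wt w)
    (b : Fin (D + 1) → Fin (D + 1) → ℝ) (hD : 1 ≤ D) {a : ℕ} (ha : 1 ≤ a)
    (hcr : CritH μ w b a) {τ : ℕ} (hτ : 1 ≤ τ) {δ : ℝ} (hδ : 0 < δ) :
    ∃ n0 : ℕ, ∀ n, n0 ≤ n → ∀ (i : Fin (D + 1)) (L : Fin (D + 1) → ℕ) [∀ i, NeZero (L i)],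
      (∀ i, L i = 2 * n) → ∀ {F F' : (Lk (cs L i) → G) → ℝ}, BM F → BM F' → ∀ {C C' : ℝ},
      (∀ x, |F x| ≤ C) → (∀ x, |F' x| ≤ C') → 0 ≤ C → 0 ≤ C' →
      |Ex μ w b L (fun U => F (xs (sg L i) U 0) * F' (xs (sg L i) U (τ : ZMod (L i)))) -
        Ex μ w b L (fun U => F (xs (sg L i) U 0)) *
          Ex μ w b L (fun U => F' (xs (sg L i) U 0))| ≤
        2 * C * C' * ((1 / 2 : ℝ) ^ (τ / (2 * a) : ℝ) + δ) := by
  obtain ⟨k0, hk0⟩ := er_lim (d := D + 1) (by omega) ha τ hδ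
  refine ⟨2 ^ (max k0 τ + 2) * a, fun n hn i L _ hL F F' hF hF' C C' hC hC' hC0 hC0' => ?_⟩
  obtain ⟨k, hk, h1, h2⟩ := exists_scale ha hn
  have hτk : τ ≤ 2 * (2 ^ (k + 1) * a) := by
    have h3 : τ ≤ k := (le_max_right _ _).trans hk
    have h4 := Nat.lt_two_pow_self (n := k + 1)
    have h5 : 2 ^ (k + 1) ≤ 2 ^ (k + 1) * a := Nat.le_mul_of_pos_right _ (by omega)
    omega
  refine (cluster_fin hb hw b hD ha hcr h1 h2 hτ hτk i L hL hF hF' hC hC' hC0 hC0').trans ?_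
  apply mul_le_mul_of_nonneg_left (hk0 k ((le_max_left _ _).trans hk))
  positivity

end torus

end Pool.Agent.Run7.h897.FS
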