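import Pool.Agent.Run7.h897.FS.Dbl

/-!
# Semigroups of hermitian kernels
-/

set_option linter.unusedSectionVars false
set_option linter.unusedVariables false

open MeasureTheory Filter Topology
open scoped ComplexConjugate

namespace Pool.Agent.Run7.h897.FS

variable {X Y : Type*} [MeasurableSpace X] [MeasurableSpace Y]

/-- bounded measurable complex functions -/
def BC {X : Type*} [MeasurableSpace X] (f : X → ℂ) : Prop :=
  Measurable f ∧ ∃ C, ∀ x, ‖f x‖ ≤ C

section bc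

variable {μ : Measure X} {ν : Measure Y} [IsProbabilityMeasure μ] [IsProbabilityMeasure ν]
  {f g : X → ℂ}

lemma BC.int (hf : BC f) : Integrable f μ := by
  obtain ⟨h1, C, hC⟩ := hf
  exact Integrable.of_bound h1.aestronglyMeasurable C (Eventually.of_forall hC)

lemma BC.const (c : ℂ) : BC fun _ : X => c := ⟨measurable_const, ‖c‖, fun _ => le_refl _⟩

lemma BC.add (hf : BC f) (hg : BC g) : BC fun x => f x + g x := by
  obtain ⟨h1, C, hC⟩ := hf
  obtain ⟨h2, D, hD⟩ := hg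
  exact ⟨h1.add h2, C + D, fun x => (norm_add_le _ _).trans (add_le_add (hC x) (hD x))⟩

lemma BC.mul (hf : BC f) (hg : BC g) : BC fun x => f x * g x := by
  obtain ⟨h1, C, hC⟩ := hf
  obtain ⟨h2, D, hD⟩ := hg
  refine ⟨h1.mul h2, |C| * |D|, fun x => ?_⟩
  rw [norm_mul]
  exact mul_le_mul ((hC x).trans (le_abs_self C)) ((hD x).trans (le_abs_self D)) (norm_nonneg _)
    (abs_nonneg _)

lemma BC.comp {f : Y → ℂ} (hf : BC f) {φ : X → Y} (hφ : Measurable φ) : BC fun x => f (φ x) := by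
  obtain ⟨h1, C, hC⟩ := hf
  exact ⟨h1.comp hφ, C, fun x => hC _⟩

lemma BC.sum {ι : Type*} (s : Finset ι) {f : ι → X → ℂ} (h : ∀ i ∈ s, BC (f i)) :
    BC fun x => ∑ i ∈ s, f i x := by
  classical
  induction s using Finset.induction_on with
  | empty => simpa using BC.const 0
  | insert a s ha ih =>
    simp only [Finset.sum_insert ha]
    exact (h a (Finset.mem_insert_self a s)).add
      (ih fun i hi => h i (Finset.mem_insert_of_mem hi))

lemma BM.toC {f : X → ℝ} (hf : BM f) : BC fun x => (f x : ℂ) := by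
  obtain ⟨h1, C, hC⟩ := hf
  refine ⟨Complex.measurable_ofReal.comp h1, C, fun x => ?_⟩
  rw [Complex.norm_real]
  exact hC x

lemma BC.norm (hf : BC f) : BM fun x => ‖f x‖ := by
  obtain ⟨h1, C, hC⟩ := hf
  exact ⟨h1.norm, C, fun x => by rw [abs_norm]; exact hC x⟩

lemma norm_int_le {C : ℝ} (h : ∀ x, ‖f x‖ ≤ C) : ‖∫ x, f x ∂μ‖ ≤ C := by
  have := norm_integral_le_of_norm_le_const (μ := μ) (f := f) (C := C) (Eventually.of_forall h)
  simpa using this

lemma BC.intg {f : X × Y → ℂ} (hf : BC f) : BC fun x => ∫ y, f (x, y) ∂ν := by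
  obtain ⟨h1, C, hC⟩ := hf
  exact ⟨(h1.stronglyMeasurable.integral_prod_right' (ν := ν)).measurable, C,
    fun x => norm_int_le fun y => hC _⟩

lemma cswp {f : X → Y → ℂ} (hf : BC (Function.uncurry f)) :
    ∫ x, ∫ y, f x y ∂ν ∂μ = ∫ y, ∫ x, f x y ∂μ ∂ν :=
  integral_integral_swap hf.int

lemma cfub {f : X × Y → ℂ} (hf : BC f) :
    ∫ z, f z ∂(μ.prod ν) = ∫ x, ∫ y, f (x, y) ∂ν ∂μ :=
  integral_prod f hf.int

lemma re_int (hf : BC f) : (∫ x, f x ∂μ).re = ∫ x, (f x).re ∂μ := by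
  have := integral_re (𝕜 := ℂ) (μ := μ) (f := f) hf.int
  simpa using this.symm

/-- Schwarz -/
lemma cschwarz (hf : BC f) (hg : BC g) :
    ‖∫ x, f x * g x ∂μ‖ ^ 2 ≤ (∫ x, ‖f x‖ ^ 2 ∂μ) * ∫ x, ‖g x‖ ^ 2 ∂μ := by
  have h1 : ‖∫ x, f x * g x ∂μ‖ ≤ ∫ x, ‖f x‖ * ‖g x‖ ∂μ := by
    refine (norm_integral_le_integral_norm _).trans (le_of_eq ?_)
    congr 1
    funext x
    exact norm_mul _ _
  exact (pow_le_pow_left₀ (norm_nonneg _) h1 2).trans (schwarz hf.norm hg.norm)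

end bc

/-- The kernels `k n`, `n ≥ 1`, of the powers of a hermitian operator. -/
structure KC (μ : Measure X) (k : ℕ → X → X → ℂ) : Prop where
  bm : ∀ n, 1 ≤ n → BC (Function.uncurry (k n))
  herm : ∀ n, 1 ≤ n → ∀ x y, k n x y = conj (k n y x)
  semi : ∀ m n, 1 ≤ m → 1 ≤ n → ∀ x y, k (m + n) x y = ∫ u, k m x u * k n u y ∂μ

/-- the squared Hilbert-Schmidt norms -/
noncomputable def EC (μ : Measure X) (k : ℕ → X → X → ℂ) (n : ℕ) : ℝ :=
  ∫ x, ∫ y, ‖k n x y‖ ^ 2 ∂μ ∂μ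

variable {μ : Measure X} [IsProbabilityMeasure μ] {k : ℕ → X → X → ℂ}

lemma KC.bl (h : KC μ k) {n : ℕ} (hn : 1 ≤ n) (x : X) : BC fun y => k n x y :=
  (h.bm n hn).comp (measurable_const.prodMk measurable_id)

lemma KC.br (h : KC μ k) {n : ℕ} (hn : 1 ≤ n) (y : X) : BC fun x => k n x y :=
  (h.bm n hn).comp (measurable_id.prodMk measurable_const)

lemma KC.nsymm (h : KC μ k) {n : ℕ} (hn : 1 ≤ n) (x y : X) : ‖k n x y‖ = ‖k n y x‖ := by
  rw [h.herm n hn x y, Complex.norm_conj]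

lemma KC.mul_swap (h : KC μ k) {n : ℕ} (hn : 1 ≤ n) (x y : X) :
    k n x y * k n y x = ((‖k n x y‖ ^ 2 : ℝ) : ℂ) := by
  rw [h.herm n hn y x, Complex.mul_conj, Complex.normSq_eq_norm_sq]

lemma KC.diag (h : KC μ k) {n : ℕ} (hn : 1 ≤ n) (x : X) :
    k (n + n) x x = ((∫ y, ‖k n x y‖ ^ 2 ∂μ : ℝ) : ℂ) := by
  rw [h.semi n n hn hn, ← integral_complex_ofReal]
  congr 1
  funext y
  exact h.mul_swap hn x y

lemma KC.EC_diag (h : KC μ k) {n : ℕ} (hn : 1 ≤ n) : EC μ k n = ∫ x, (k (n + n) x x).re ∂μ := by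
  unfold EC
  congr 1
  funext x
  rw [h.diag hn, Complex.ofReal_re]

lemma KC.EC_diagC (h : KC μ k) {n : ℕ} (hn : 1 ≤ n) :
    ((EC μ k n : ℝ) : ℂ) = ∫ x, k (n + n) x x ∂μ := by
  unfold EC
  rw [← integral_complex_ofReal]
  congr 1
  funext x
  rw [h.diag hn]

lemma EC_nonneg (n : ℕ) : 0 ≤ EC μ k n :=
  integral_nonneg fun x => integral_nonneg fun y => sq_nonneg _

lemma KC.nb (h : KC μ k) {n : ℕ} (hn : 1 ≤ n) : BM fun z : X × X => ‖k n z.1 z.2‖ :=
  (h.bm n hn).norm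

lemma KC.EC_prod (h : KC μ k) {n : ℕ} (hn : 1 ≤ n) :
    EC μ k n = ∫ z : X × X, ‖k n z.1 z.2‖ ^ 2 ∂(μ.prod μ) := by
  rw [fub ((h.nb hn).pow 2)]
  rfl

lemma KC.bsq (h : KC μ k) {n : ℕ} (hn : 1 ≤ n) : BM fun x => ∫ y, ‖k n x y‖ ^ 2 ∂μ :=
  ((h.nb hn).pow 2).intg

/-- log-convexity -/
lemma KC.lc (h : KC μ k) {n : ℕ} (hn : 1 ≤ n) :
    EC μ k (n + 1) ^ 2 ≤ EC μ k n * EC μ k (n + 2) := by
  have h1 : EC μ k (n + 1) ≤ ∫ z : X × X, ‖k n z.1 z.2‖ * ‖k (n + 2) z.1 z.2‖ ∂(μ.prod μ) := by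
    rw [fub ((h.nb hn).mul (h.nb (by omega))), h.EC_diag (by omega)]
    have b1 : BC fun x => k (n + 1 + (n + 1)) x x :=
      (h.bm (n + 1 + (n + 1)) (by omega)).comp (measurable_id.prodMk measurable_id)
    have b2 : BM fun x => ∫ y, ‖k n x y‖ * ‖k (n + 2) x y‖ ∂μ :=
      ((h.nb hn).mul (h.nb (n := n + 2) (by omega))).intg
    have b3 : BM fun x => (k (n + 1 + (n + 1)) x x).re := by
      obtain ⟨m1, C, hC⟩ := b1
      exact ⟨Complex.measurable_re.comp m1, C, fun x => (Complex.abs_re_le_norm _).trans (hC x)⟩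
    refine integral_mono b3.int b2.int fun x => ?_
    refine (Complex.re_le_norm _).trans ?_
    rw [show n + 1 + (n + 1) = n + (n + 2) by ring, h.semi n (n + 2) hn (by omega)]
    refine (norm_integral_le_integral_norm _).trans (le_of_eq ?_)
    congr 1
    funext y
    rw [norm_mul, h.nsymm (n := n + 2) (by omega) y x]
  have h2 := schwarz (μ := μ.prod μ) (h.nb hn) (h.nb (n := n + 2) (by omega))
  rw [← h.EC_prod hn, ← h.EC_prod (n := n + 2) (by omega)] at h2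
  exact (pow_le_pow_left₀ (EC_nonneg _) h1 2).trans h2

/-- submultiplicativity -/
lemma KC.sub (h : KC μ k) {n m : ℕ} (hn : 1 ≤ n) (hm : 1 ≤ m) :
    EC μ k (n + m) ≤ EC μ k n * EC μ k m := by
  have h1 : ∀ x y, ‖k (n + m) x y‖ ^ 2 ≤ (∫ u, ‖k n x u‖ ^ 2 ∂μ) * ∫ u, ‖k m y u‖ ^ 2 ∂μ := by
    intro x y
    rw [h.semi n m hn hm]
    have := cschwarz (μ := μ) (h.bl hn x) (h.br hm y)
    refine this.trans (le_of_eq ?_)
    congr 2
    funext u
    rw [h.nsymm hm u y]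
  unfold EC
  calc ∫ x, ∫ y, ‖k (n + m) x y‖ ^ 2 ∂μ ∂μ
      ≤ ∫ x, ∫ y, (∫ u, ‖k n x u‖ ^ 2 ∂μ) * ∫ u, ‖k m y u‖ ^ 2 ∂μ ∂μ ∂μ := by
        refine integral_mono (h.bsq (n := n + m) (by omega)).int ?_ fun x => ?_
        · have : BM fun x => (∫ u, ‖k n x u‖ ^ 2 ∂μ) * ∫ y, ∫ u, ‖k m y u‖ ^ 2 ∂μ ∂μ :=
            (h.bsq hn).mul (BM.const _)
          simpa only [integral_const_mul] using this.int
        · exact integral_mono (((h.bl (n := n + m) (by omega) x).norm.pow 2).int)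
            (((BM.const _).mul (h.bsq hm)).int) fun y => h1 x y
    _ = (∫ x, ∫ y, ‖k n x y‖ ^ 2 ∂μ ∂μ) * ∫ x, ∫ y, ‖k m x y‖ ^ 2 ∂μ ∂μ := by
        simp only [integral_const_mul, integral_mul_const]

/-! ### two copies -/

/-- the kernel on symmetric (`ε = 1`) or antisymmetric (`ε = -1`) functions of two variables -/
noncomputable def KDC (ε : ℝ) (k : ℕ → X → X → ℂ) (n : ℕ) (z z' : X × X) : ℂ :=
  (k n z.1 z'.1 * k n z.2 z'.2 + ε * (k n z.1 z'.2 * k n z.2 z'.1)) / 2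

lemma cprod2 {f g : X → ℂ} (hf : BC f) (hg : BC g) :
    ∫ w : X × X, f w.1 * g w.2 ∂(μ.prod μ) = (∫ x, f x ∂μ) * ∫ x, g x ∂μ :=
  integral_prod_mul f g

lemma KC.dbl (h : KC μ k) {ε : ℝ} (hε : ε * ε = 1) : KC (μ.prod μ) (KDC ε k) where
  bm n hn := by
    have b1 : ∀ {φ ψ : (X × X) × (X × X) → X}, Measurable φ → Measurable ψ →
        BC fun w => k n (φ w) (ψ w) := fun hφ hψ => (h.bm n hn).comp (hφ.prodMk hψ)
    have m1 : Measurable fun w : (X × X) × (X × X) => w.1.1 := measurable_fst.fst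
    have m2 : Measurable fun w : (X × X) × (X × X) => w.1.2 := measurable_fst.snd
    have m3 : Measurable fun w : (X × X) × (X × X) => w.2.1 := measurable_snd.fst
    have m4 : Measurable fun w : (X × X) × (X × X) => w.2.2 := measurable_snd.snd
    have := (((b1 m1 m3).mul (b1 m2 m4)).add ((BC.const (ε : ℂ)).mul
      ((b1 m1 m4).mul (b1 m2 m3)))).mul (BC.const (1 / 2))
    convert this using 1
    funext w
    simp only [Function.uncurry, FS.KDC]
    ring
  herm n hn z z' := by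
    unfold FS.KDC
    rw [h.herm n hn z.1 z'.1, h.herm n hn z.2 z'.2, h.herm n hn z.1 z'.2, h.herm n hn z.2 z'.1]
    simp only [map_div₀, map_add, map_mul, Complex.conj_ofReal, Complex.conj_conj, map_ofNat]
    ring
  semi m n hm hn z z' := by
    have hε2 : (ε : ℂ) * ε = 1 := by exact_mod_cast congrArg (fun r : ℝ => (r : ℂ)) hε
    have e : ∀ w : X × X, FS.KDC ε k m z w * FS.KDC ε k n w z' =
        1 / 4 * ((k m z.1 w.1 * k n w.1 z'.1) * (k m z.2 w.2 * k n w.2 z'.2)) +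
        ε / 4 * ((k m z.1 w.1 * k n w.1 z'.2) * (k m z.2 w.2 * k n w.2 z'.1)) +
        ε / 4 * ((k m z.2 w.1 * k n w.1 z'.1) * (k m z.1 w.2 * k n w.2 z'.2)) +
        1 / 4 * ((k m z.2 w.1 * k n w.1 z'.2) * (k m z.1 w.2 * k n w.2 z'.1)) := by
      intro w
      unfold FS.KDC
      linear_combination (1 / 4 * (k m z.1 w.2 * k m z.2 w.1) * (k n w.1 z'.2 * k n w.2 z'.1)) *
        hε2
    have b : ∀ a c : X, BC fun u => k m a u * k n u c := fun a c => (h.bl hm a).mul (h.br hn c)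
    have b2 : ∀ a c a' c' : X, BC fun w : X × X => (k m a w.1 * k n w.1 c) *
        (k m a' w.2 * k n w.2 c') := fun a c a' c' =>
      ((b a c).comp measurable_fst).mul ((b a' c').comp measurable_snd)
    simp only [e]
    rw [integral_add, integral_add, integral_add]
    · simp only [integral_const_mul]
      rw [cprod2 (b z.1 z'.1) (b z.2 z'.2), cprod2 (b z.1 z'.2) (b z.2 z'.1),
        cprod2 (b z.2 z'.1) (b z.1 z'.2), cprod2 (b z.2 z'.2) (b z.1 z'.1)]
      simp only [← h.semi m n hm hn]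
      unfold FS.KDC
      ring
    · exact ((b2 _ _ _ _).int).const_mul _
    · exact ((b2 _ _ _ _).int).const_mul _
    · exact (((b2 _ _ _ _).int).const_mul _).add (((b2 _ _ _ _).int).const_mul _)
    · exact ((b2 _ _ _ _).int).const_mul _
    · exact ((((b2 _ _ _ _).int).const_mul _).add (((b2 _ _ _ _).int).const_mul _)).add
        (((b2 _ _ _ _).int).const_mul _)
    · exact ((b2 _ _ _ _).int).const_mul _

lemma KC.EC_KDC (h : KC μ k) {ε : ℝ} (hε : ε * ε = 1) {n : ℕ} (hn : 1 ≤ n) :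
    EC (μ.prod μ) (KDC ε k) n = (EC μ k n ^ 2 + ε * EC μ k (2 * n)) / 2 := by
  have hn2 : 1 ≤ n + n := by omega
  have e : ∀ z : X × X, FS.KDC ε k (n + n) z z =
      1 / 2 * (k (n + n) z.1 z.1 * k (n + n) z.2 z.2) +
        ε / 2 * ((‖k (n + n) z.1 z.2‖ ^ 2 : ℝ) : ℂ) := by
    intro z
    unfold FS.KDC
    rw [h.mul_swap hn2]
    ring
  have bd : BC fun x => k (n + n) x x := (h.bm _ hn2).comp (measurable_id.prodMk measurable_id)
  have h1 : ((EC (μ.prod μ) (KDC ε k) n : ℝ) : ℂ) =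
      (((EC μ k n ^ 2 + ε * EC μ k (2 * n)) / 2 : ℝ) : ℂ) := by
    rw [(h.dbl hε).EC_diagC hn]
    simp only [e]
    rw [integral_add, integral_const_mul, integral_const_mul, cprod2 bd bd,
      integral_complex_ofReal, ← h.EC_prod hn2, ← h.EC_diagC hn, ← two_mul]
    · push_cast
      ring
    · exact (((bd.comp measurable_fst).mul (bd.comp measurable_snd)).int).const_mul _
    · exact (((((h.nb hn2).pow 2)).toC).int).const_mul _
  exact_mod_cast h1

/-- the sequence of the traces has the properties of the numerical part -/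
theorem KC.ts (h : KC μ k) (hpos : ∀ n, 1 ≤ n → 0 < EC μ k n) : TS (EC μ k) where
  pos := hpos
  lc n hn := h.lc hn
  sub n m hn hm := h.sub hn hm
  pur n hn := by
    have hε : (-1 : ℝ) * (-1) = 1 := by norm_num
    have h1 := (h.dbl hε).sub hn hn
    rw [← two_mul, h.EC_KDC hε hn, h.EC_KDC hε (by omega)] at h1
    rw [show 2 * (2 * n) = 4 * n by ring] at h1
    nlinarith

/-- positivity for one exponent implies positivity for all of them -/
lemma KC.pos_all (h : KC μ k) {n0 : ℕ} (hn0 : 2 ≤ n0) (h0 : 0 < EC μ k n0) :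
    ∀ n, 1 ≤ n → 0 < EC μ k n := by
  -- downwards
  have down : ∀ n m, 1 ≤ n → 1 ≤ m → 0 < EC μ k (n + m) → 0 < EC μ k n := by
    intro n m hn hm hp
    have h1 := h.sub hn hm
    rcases (EC_nonneg (μ := μ) (k := k) n).eq_or_lt with h2 | h2
    · rw [← h2, zero_mul] at h1; linarith
    · exact h2
  have up : ∀ j, 0 < EC μ k (n0 + j) := by
    intro j
    induction j with
    | zero => exact h0
    | succ j ih =>
      have h1 := h.lc (n := n0 + j - 1) (by omega)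
      rw [show n0 + j - 1 + 1 = n0 + j by omega, show n0 + j - 1 + 2 = n0 + (j + 1) by omega] at h1
      rcases (EC_nonneg (μ := μ) (k := k) (n0 + (j + 1))).eq_or_lt with h2 | h2
      · rw [← h2, mul_zero] at h1
        have := pow_pos ih 2
        linarith
      · exact h2
  intro n hn
  exact down n n0 hn (by omega) (by rw [add_comm]; exact up n)

end Pool.Agent.Run7.h897.FS
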