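import Pool.Agent.Run7.h897.FS.Dbl

/-!
# Powers of a kernel and integrals over a circle
-/

set_option linter.unusedSectionVars false
set_option linter.unusedVariables false

open MeasureTheory Filter Topology

namespace Pool.Agent.Run7.h897.FS

variable {X : Type*} [MeasurableSpace X] {μ : Measure X} [IsProbabilityMeasure μ]
  {k : X → X → ℝ}

/-- the kernels of the powers -/
noncomputable def kp (μ : Measure X) (k : X → X → ℝ) : ℕ → X → X → ℝ
  | 0 => fun _ _ => 0
  | 1 => k
  | n + 2 => fun x y => ∫ u, k x u * kp μ k (n + 1) u y ∂μ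

lemma kp_one : kp μ k 1 = k := rfl

lemma kp_succ {n : ℕ} (hn : 1 ≤ n) (x y : X) :
    kp μ k (n + 1) x y = ∫ u, k x u * kp μ k n u y ∂μ := by
  obtain ⟨m, rfl⟩ : ∃ m, n = m + 1 := ⟨n - 1, by omega⟩
  rfl

lemma kp_bm (hk : BM (Function.uncurry k)) {n : ℕ} (hn : 1 ≤ n) :
    BM (Function.uncurry (kp μ k n)) := by
  induction n, hn using Nat.le_induction with
  | base => exact hk
  | succ n hn ih =>
    have h1 : BM fun w : (X × X) × X => k w.1.1 w.2 * kp μ k n w.2 w.1.2 :=
      (hk.comp (measurable_fst.fst.prodMk measurable_snd)).mul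
        (ih.comp (measurable_snd.prodMk measurable_fst.snd))
    have h2 := h1.intg (ν := μ)
    convert h2 using 1
    funext w
    exact kp_succ hn _ _

lemma kp_semi (hk : BM (Function.uncurry k)) {m n : ℕ} (hm : 1 ≤ m) (hn : 1 ≤ n) :
    ∀ x y, kp μ k (m + n) x y = ∫ u, kp μ k m x u * kp μ k n u y ∂μ := by
  induction m, hm using Nat.le_induction with
  | base =>
    intro x y
    rw [add_comm, kp_succ hn]
    rfl
  | succ m hm ih =>
    intro x y
    rw [show m + 1 + n = m + n + 1 by ring, kp_succ (by omega)]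
    have e1 : ∀ u, k x u * kp μ k (m + n) u y =
        ∫ v, k x u * (kp μ k m u v * kp μ k n v y) ∂μ := fun u => by
      rw [ih, integral_const_mul]
    have e2 : ∀ v, kp μ k (m + 1) x v * kp μ k n v y =
        ∫ u, k x u * (kp μ k m u v * kp μ k n v y) ∂μ := fun v => by
      rw [kp_succ hm, ← integral_mul_const]
      congr 1
      funext u
      ring
    simp only [e1, e2]
    refine swp ?_
    exact (hk.comp (measurable_const.prodMk measurable_fst)).mul
      (((kp_bm hk hm).comp (measurable_fst.prodMk measurable_snd)).mul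
        ((kp_bm hk hn).comp (measurable_snd.prodMk measurable_const)))

lemma kp_symm (hk : BM (Function.uncurry k)) (hs : ∀ x y, k x y = k y x) {n : ℕ} (hn : 1 ≤ n) :
    ∀ x y, kp μ k n x y = kp μ k n y x := by
  induction n, hn using Nat.le_induction with
  | base => exact hs
  | succ n hn ih =>
    intro x y
    rw [kp_succ hn, kp_semi hk hn le_rfl]
    congr 1
    funext u
    rw [hs x u, ih u y, kp_one, mul_comm]

lemma kp_KS (hk : BM (Function.uncurry k)) (hs : ∀ x y, k x y = k y x) : KS μ (kp μ k) where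
  bm n hn := kp_bm hk hn
  symm n hn := kp_symm hk hs hn
  semi m n hm hn := kp_semi hk hm hn

lemma kp_pos (hk : BM (Function.uncurry k)) (hp : ∀ x y, 0 < k x y) {n : ℕ} (hn : 1 ≤ n) :
    ∀ x y, 0 < kp μ k n x y := by
  induction n, hn using Nat.le_induction with
  | base => exact hp
  | succ n hn ih =>
    intro x y
    rw [kp_succ hn]
    have hi : Integrable (fun u => k x u * kp μ k n u y) μ :=
      ((hk.comp (measurable_const.prodMk measurable_id)).mul ((kp_bm hk hn).comp
        (measurable_id.prodMk measurable_const))).int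
    rw [integral_pos_iff_support_of_nonneg (fun u => (mul_pos (hp _ _) (ih _ _)).le) hi]
    have : Function.support (fun u => k x u * kp μ k n u y) = Set.univ := by
      ext u
      simp [(hp x u).ne', (ih u y).ne']
    rw [this]
    simp

lemma kp_EE_pos (hk : BM (Function.uncurry k)) (hp : ∀ x y, 0 < k x y) {n : ℕ} (hn : 1 ≤ n) :
    0 < EE μ (kp μ k) n := by
  have h1 : EE μ (kp μ k) n = ∫ z, (Function.uncurry (kp μ k n) z) ^ 2 ∂(μ.prod μ) := by
    rw [fub ((kp_bm hk hn).pow 2)]
    rfl
  rw [h1, integral_pos_iff_support_of_nonneg (fun u => sq_nonneg _) ((kp_bm hk hn).pow 2).int]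
  have : Function.support (fun z => (Function.uncurry (kp μ k n) z) ^ 2) = Set.univ := by
    ext z
    have := kp_pos (μ := μ) hk hp hn z.1 z.2
    simp only [Function.mem_support, Set.mem_univ, iff_true]
    exact pow_ne_zero _ this.ne'
  rw [this]
  simp

/-! ### chains -/

/-- iterated application of kernels -/
noncomputable def It (μ : Measure X) : ℕ → (ℕ → X → X → ℝ) → (X → ℝ) → X → ℝ
  | 0, _, h => h
  | n + 1, κ, h => fun y => ∫ v, κ 0 y v * It μ n (fun t => κ (t + 1)) h v ∂μ

lemma It_bm (n : ℕ) : ∀ {κ : ℕ → X → X → ℝ} {h : X → ℝ},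
    (∀ t, BM (Function.uncurry (κ t))) → BM h → BM (It μ n κ h) := by
  induction n with
  | zero => intro κ h _ hh; exact hh
  | succ n ih =>
    intro κ h hκ hh
    have h1 : BM fun w : X × X => κ 0 w.1 w.2 * It μ n (fun t => κ (t + 1)) h w.2 :=
      ((hκ 0)).mul ((ih (fun t => hκ (t + 1)) hh).comp measurable_snd)
    exact h1.intg

lemma cons_bm {n : ℕ} (y : X) : Measurable fun u : Fin n → X => (Fin.cons y u : Fin (n + 1) → X) := by
  refine measurable_pi_iff.2 fun i => ?_
  refine Fin.cases ?_ (fun j => ?_) i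
  · simp
  · simpa using measurable_pi_apply j


lemma int_cons {n : ℕ} {f : (Fin (n + 1) → X) → ℝ} (hf : BM f) :
    ∫ x, f x ∂(Measure.pi fun _ => μ) =
      ∫ y, ∫ u : Fin n → X, f (Fin.cons y u) ∂(Measure.pi fun _ => μ) ∂μ := by
  have h1 := (measurePreserving_piFinSuccAbove (fun _ : Fin (n + 1) => μ) 0).symm
  have h2 := h1.integral_comp' (g := f)
  have e : ∀ (x : X) (u : Fin n → X),
      (MeasurableEquiv.piFinSuccAbove (fun _ : Fin (n + 1) => X) 0).symm (x, u) =
        (Fin.cons x u : Fin (n + 1) → X) := by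
    intro x u
    change Fin.insertNth (α := fun _ => X) 0 x u = _
    rw [Fin.insertNth_zero']
  rw [← h2, fub]
  · simp only [e]
  · refine hf.comp ?_
    exact h1.measurable

lemma chain (n : ℕ) : ∀ {κ : ℕ → X → X → ℝ} {h : X → ℝ},
    (∀ t, BM (Function.uncurry (κ t))) → BM h → ∀ y,
    ∫ u : Fin n → X, (∏ t : Fin n, κ t ((Fin.cons y u : Fin (n + 1) → X) t.castSucc)
        ((Fin.cons y u : Fin (n + 1) → X) t.succ)) *
      h ((Fin.cons y u : Fin (n + 1) → X) (Fin.last n)) ∂(Measure.pi fun _ => μ) =
      It μ n κ h y := by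
  induction n with
  | zero =>
    intro κ h hκ hh y
    simp [It]
  | succ n ih =>
    intro κ h hκ hh y
    rw [int_cons]
    · simp only [It]
      congr 1
      funext v
      rw [← ih (fun t => hκ (t + 1)) hh v, ← integral_const_mul]
      congr 1
      funext u
      rw [Fin.prod_univ_succ]
      have e1 : (Fin.cons y (Fin.cons v u : Fin (n + 1) → X) : Fin (n + 2) → X)
          (Fin.castSucc 0) = y := rfl
      have e2 : (Fin.cons y (Fin.cons v u : Fin (n + 1) → X) : Fin (n + 2) → X)
          (Fin.succ 0) = v := rfl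
      have e3 : ∀ t : Fin n, (Fin.cons y (Fin.cons v u : Fin (n + 1) → X) : Fin (n + 2) → X)
          (Fin.castSucc t.succ) = (Fin.cons v u : Fin (n + 1) → X) t.castSucc := fun t => by
        rw [← Fin.succ_castSucc, Fin.cons_succ]
      have e4 : ∀ t : Fin n, (Fin.cons y (Fin.cons v u : Fin (n + 1) → X) : Fin (n + 2) → X)
          (Fin.succ t.succ) = (Fin.cons v u : Fin (n + 1) → X) t.succ := fun t => by
        rw [Fin.cons_succ]
      have e5 : (Fin.cons y (Fin.cons v u : Fin (n + 1) → X) : Fin (n + 2) → X)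
          (Fin.last (n + 1)) = (Fin.cons v u : Fin (n + 1) → X) (Fin.last n) := by
        rw [← Fin.succ_last, Fin.cons_succ]
      simp only [e1, e2, e3, e4, e5, Fin.val_zero, Fin.val_succ]
      ring
    · refine BM.mul (BM.prod _ fun t _ => ?_) ?_
      · refine (hκ t).comp (φ := fun u : Fin (n + 1) → X =>
          ((Fin.cons y u : Fin (n + 2) → X) t.castSucc, (Fin.cons y u : Fin (n + 2) → X) t.succ))
          ?_
        exact ((measurable_pi_apply _).comp (cons_bm y)).prodMk
          ((measurable_pi_apply _).comp (cons_bm y))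
      · exact hh.comp ((measurable_pi_apply _).comp (cons_bm y))

/-- integrals over a circle -/
lemma ring_int {n : ℕ} {κ : ℕ → X → X → ℝ} (hκ : ∀ t, BM (Function.uncurry (κ t))) :
    ∫ x : Fin (n + 1) → X, ∏ t : Fin (n + 1), κ t (x t) (x (t + 1)) ∂(Measure.pi fun _ => μ) =
      ∫ y, It μ n κ (fun u => κ n u y) y ∂μ := by
  rw [int_cons]
  · congr 1
    funext y
    have hb : BM fun u => κ n u y := (hκ n).comp (measurable_id.prodMk measurable_const)
    rw [← chain n hκ hb y]
    congr 1
    funext u
    rw [Fin.prod_univ_castSucc]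
    congr 1
    · refine Finset.prod_congr rfl fun t _ => ?_
      rw [Fin.coeSucc_eq_succ]
      rfl
    · rw [Fin.last_add_one]
      rfl
  · refine BM.prod _ fun t _ => ?_
    exact (hκ t).comp (φ := fun x : Fin (n + 1) → X => (x t, x (t + 1)))
      ((measurable_pi_apply _).prodMk (measurable_pi_apply _))

/-- no insertions -/
lemma It_kp (hk : BM (Function.uncurry k)) (n m : ℕ) (hm : 1 ≤ m) (y : X) :
    It μ n (fun _ => k) (fun u => kp μ k m u y) = fun u => kp μ k (n + m) u y := by
  induction n with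
  | zero => simp [It]
  | succ n ih =>
    funext x
    simp only [It, ih]
    rw [show n + 1 + m = n + m + 1 by ring, kp_succ (by omega)]

lemma It_kp' (hk : BM (Function.uncurry k)) (n m : ℕ) (hm : 1 ≤ m) {h : X → ℝ} (hh : BM h) :
    It μ n (fun _ => k) (ap μ (kp μ k) m h) = ap μ (kp μ k) (n + m) h := by
  induction n with
  | zero => simp [It]
  | succ n ih =>
    funext x
    simp only [It, ih]
    unfold ap
    have e1 : ∀ u, k x u * ∫ y, kp μ k (n + m) u y * h y ∂μ =
        ∫ y, k x u * (kp μ k (n + m) u y * h y) ∂μ := fun u => (integral_const_mul _ _).symm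
    simp only [e1]
    rw [swp]
    · congr 1
      funext y
      rw [show n + 1 + m = n + m + 1 by ring, kp_succ (by omega), ← integral_mul_const]
      congr 1
      funext u
      ring
    · exact (hk.comp (measurable_const.prodMk measurable_fst)).mul
        (((kp_bm hk (show 1 ≤ n + m by omega)).comp
          (measurable_fst.prodMk measurable_snd)).mul (hh.comp measurable_snd))

/-- splitting of chains -/
lemma It_add (n m : ℕ) : ∀ (κ : ℕ → X → X → ℝ) (h : X → ℝ),
    It μ (n + m) κ h = It μ n κ (It μ m (fun t => κ (n + t)) h) := by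
  induction n with
  | zero => intro κ h; simp [It]
  | succ n ih =>
    intro κ h
    rw [show n + 1 + m = n + m + 1 by ring]
    funext y
    simp only [It]
    rw [ih]
    have : ∀ t, n + t + 1 = n + 1 + t := fun t => by ring
    simp only [this]

lemma It_congr (n : ℕ) : ∀ {κ κ' : ℕ → X → X → ℝ} (h : X → ℝ), (∀ t < n, κ t = κ' t) →
    It μ n κ h = It μ n κ' h := by
  induction n with
  | zero => intro κ κ' h _; rfl
  | succ n ih =>
    intro κ κ' h hκ
    funext y
    simp only [It]
    rw [hκ 0 (by omega), ih h fun t ht => hκ (t + 1) (by omega)]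

/-- the circle without insertions -/
lemma ring_zero (hk : BM (Function.uncurry k)) {N : ℕ} [NeZero N] :
    ∫ x : ZMod N → X, ∏ t : ZMod N, k (x t) (x (t + 1)) ∂(Measure.pi fun _ => μ) =
      A1 μ (kp μ k) N (fun _ => 1) := by
  obtain ⟨n, rfl⟩ : ∃ n, N = n + 1 := ⟨N - 1, by have := NeZero.pos N; omega⟩
  have h1 := ring_int (μ := μ) (n := n) (κ := fun _ => k) fun _ => hk
  unfold A1
  simp only [one_mul]
  refine h1.trans ?_
  congr 1
  funext y
  have h2 := It_kp (μ := μ) hk n 1 le_rfl y
  simp only [kp_one] at h2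
  rw [h2]

/-- the circle with one insertion -/
lemma ring_one (hk : BM (Function.uncurry k)) {N : ℕ} [NeZero N] {F : X → ℝ} (hF : BM F) :
    ∫ x : ZMod N → X, F (x 0) * ∏ t : ZMod N, k (x t) (x (t + 1)) ∂(Measure.pi fun _ => μ) =
      A1 μ (kp μ k) N F := by
  obtain ⟨n, rfl⟩ : ∃ n, N = n + 1 := ⟨N - 1, by have := NeZero.pos N; omega⟩
  set κ : ℕ → X → X → ℝ := fun t x y => (if t = 0 then F x else 1) * k x y with hκ
  have hb : ∀ t, BM (Function.uncurry (κ t)) := by
    intro t
    refine BM.mul ?_ hk
    by_cases ht : t = 0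
    · simpa [ht] using hF.comp measurable_fst
    · simpa [ht] using BM.const 1
  have h1 := ring_int (μ := μ) (n := n) (κ := κ) hb
  have e1 : ∀ x : Fin (n + 1) → X, ∏ t : Fin (n + 1), κ t (x t) (x (t + 1)) =
      F (x 0) * ∏ t : Fin (n + 1), k (x t) (x (t + 1)) := by
    intro x
    simp only [hκ, Finset.prod_mul_distrib]
    congr 1
    rw [Fin.prod_univ_succ]
    simp
  simp only [e1] at h1
  refine h1.trans ?_
  unfold A1
  congr 1
  funext y
  rcases n with _ | n
  · simp [It, hκ, kp_one]
  · have h2 := It_kp (μ := μ) hk n 1 le_rfl y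
    simp only [kp_one] at h2
    have e2 : (fun u => κ (n + 1) u y) = fun u => k u y := by
      funext u
      simp [hκ]
    rw [e2]
    simp only [It]
    have e3 : It μ n (fun t => κ (t + 1)) (fun u => k u y) = It μ n (fun _ => k) fun u => k u y :=
      It_congr n _ fun t _ => by
        funext u v
        simp [hκ]
    rw [e3, h2]
    simp only [hκ, if_pos]
    rw [kp_succ (by omega)]
    rw [← integral_const_mul]
    congr 1
    funext v
    ring

/-- the circle with two insertions -/
lemma ring_two (hk : BM (Function.uncurry k)) {N : ℕ} [NeZero N] {F F' : X → ℝ} (hF : BM F)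
    (hF' : BM F') {τ : ℕ} (hτ : 1 ≤ τ) (hτN : τ < N) :
    ∫ x : ZMod N → X, F (x 0) * F' (x (τ : ZMod N)) * ∏ t : ZMod N, k (x t) (x (t + 1))
      ∂(Measure.pi fun _ => μ) = A2 μ (kp μ k) τ (N - τ) F F' := by
  obtain ⟨n, rfl⟩ : ∃ n, N = n + 1 := ⟨N - 1, by have := NeZero.pos N; omega⟩
  set κ : ℕ → X → X → ℝ := fun t x y => (if t = 0 then F x else 1) *
    (if t = τ then F' x else 1) * k x y with hκ
  have hb : ∀ t, BM (Function.uncurry (κ t)) := by
    intro t
    refine BM.mul (BM.mul ?_ ?_) hk
    · by_cases ht : t = 0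
      · simpa [ht] using hF.comp measurable_fst
      · simpa [ht] using BM.const 1
    · by_cases ht : t = τ
      · simpa [ht] using hF'.comp measurable_fst
      · simpa [ht] using BM.const 1
  have h1 := ring_int (μ := μ) (n := n) (κ := κ) hb
  have e0 : ((τ : ZMod (n + 1)) : Fin (n + 1)) = ⟨τ, hτN⟩ := by
    apply Fin.ext
    exact ZMod.val_cast_of_lt hτN
  have e1 : ∀ x : Fin (n + 1) → X, ∏ t : Fin (n + 1), κ t (x t) (x (t + 1)) =
      F (x 0) * F' (x (τ : ZMod (n + 1))) * ∏ t : Fin (n + 1), k (x t) (x (t + 1)) := by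
    intro x
    simp only [hκ, Finset.prod_mul_distrib]
    congr 2
    · rw [Fin.prod_univ_succ]
      simp
    · rw [Finset.prod_eq_single (⟨τ, hτN⟩ : Fin (n + 1))]
      · rw [e0]
        simp
      · intro b _ hb
        have : (b : ℕ) ≠ τ := fun h => hb (Fin.ext h)
        simp [this]
      · simp
  simp only [e1] at h1
  refine h1.trans ?_
  unfold A2
  congr 1
  funext y
  -- n = τ - 1 + (n - τ) + 1
  obtain ⟨s, rfl⟩ : ∃ s, τ = s + 1 := ⟨τ - 1, by omega⟩
  obtain ⟨r, rfl⟩ : ∃ r, n = s + 1 + r := ⟨n - (s + 1), by omega⟩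
  have hr : s + 1 + r + 1 - (s + 1) = r + 1 := by omega
  rw [hr]
  -- the inner part
  have inner : It μ r (fun t => κ (s + 1 + t)) (fun u => κ (s + 1 + r) u y) =
      fun u => F' u * kp μ k (r + 1) u y := by
    rcases r with _ | r
    · funext u
      simp [It, hκ, kp_one]
    · have e2 : (fun u => κ (s + 1 + (r + 1)) u y) = fun u => k u y := by
        funext u
        simp [hκ]
      rw [e2]
      funext u
      simp only [It]
      have e3 : It μ r (fun t => κ (s + 1 + (t + 1))) (fun u => k u y) =
          It μ r (fun _ => k) fun u => k u y :=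
        It_congr r _ fun t _ => by
          funext u v
          simp [hκ]
      have h2 := It_kp (μ := μ) hk r 1 le_rfl y
      simp only [kp_one] at h2
      rw [e3, h2, kp_succ (n := r + 1) (by omega), ← integral_const_mul]
      congr 1
      funext v
      simp [hκ]
      ring
  have hB : BM fun u => F' u * kp μ k (r + 1) u y :=
    hF'.mul ((kp_bm hk (show 1 ≤ r + 1 by omega)).comp (measurable_id.prodMk measurable_const))
  rw [show s + 1 + r = (s + 1) + r by ring, It_add, inner]
  simp only [It]
  have e4 : It μ s (fun t => κ (t + 1)) (fun u => F' u * kp μ k (r + 1) u y) =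
      It μ s (fun _ => k) fun u => F' u * kp μ k (r + 1) u y :=
    It_congr s _ fun t ht => by
      funext u v
      have : t ≠ s := by omega
      simp [hκ, this]
  rw [e4]
  have e5 : ∀ (h : X → ℝ), BM h → ∀ x, ∫ v, k x v * It μ s (fun _ => k) h v ∂μ =
      ap μ (kp μ k) (s + 1) h x := by
    intro h hh x
    rcases s with _ | s
    · simp [It, ap, kp_one]
    · have h3 := It_kp' (μ := μ) hk (s + 1) 1 le_rfl hh
      have h4 : It μ (s + 1) (fun _ => k) h = It μ s (fun _ => k) (ap μ (kp μ k) 1 h) := by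
        rw [It_add s 1]
        rfl
      rw [h4, It_kp' hk s 1 le_rfl hh]
      have h5 := It_kp' (μ := μ) hk 1 (s + 1) (by omega) hh
      have h6 := congrFun h5 x
      simp only [It] at h6
      rw [add_comm 1 (s + 1)] at h6
      exact h6
  have e6 : ∀ v, κ 0 y v = F y * k y v := fun v => by simp [hκ]
  simp only [e6]
  have e7 : ∀ v, F y * k y v * It μ s (fun _ => k) (fun u => F' u * kp μ k (r + 1) u y) v =
      F y * (k y v * It μ s (fun _ => k) (fun u => F' u * kp μ k (r + 1) u y) v) :=
    fun v => by ring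
  simp only [e7]
  rw [integral_const_mul, e5 _ hB, ap, ← integral_const_mul]
  congr 1
  funext v
  ring

end Pool.Agent.Run7.h897.FS
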