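import Pool.Agent.Run7.h897.FS.Cx
import Pool.Agent.Run7.h897.FS.Ring

/-!
# Kernels with a symmetry: the sectors
-/

set_option linter.unusedSectionVars false
set_option linter.unusedVariables false

open MeasureTheory Filter Topology
open scoped ComplexConjugate

namespace Pool.Agent.Run7.h897.FS

variable {X : Type*} [MeasurableSpace X] {μ : Measure X} [IsProbabilityMeasure μ]
  {k : ℕ → X → X → ℝ} {N : ℕ} [NeZero N]

/-- an action of `ℤ / N` which preserves the kernels -/
structure Act (μ : Measure X) (k : ℕ → X → X → ℝ) (C : ZMod N → X → X) : Prop where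
  zero : ∀ x, C 0 x = x
  add : ∀ i j x, C (i + j) x = C i (C j x)
  mp : ∀ j, MeasurePreserving (C j) μ μ
  inv : ∀ n, 1 ≤ n → ∀ j x y, k n (C j x) (C j y) = k n x y

variable {C : ZMod N → X → X}

lemma Act.move (h : Act μ k C) {n : ℕ} (hn : 1 ≤ n) (j : ZMod N) (x y : X) :
    k n x (C j y) = k n (C (-j) x) y := by
  rw [← h.inv n hn (-j) x (C j y), ← h.add, neg_add_cancel, h.zero]

lemma Act.inj (h : Act μ k C) (j : ZMod N) (x : X) : C (-j) (C j x) = x := by
  rw [← h.add, neg_add_cancel, h.zero]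

/-- the action as a measurable equivalence -/
def Act.eqv (h : Act μ k C) (j : ZMod N) : X ≃ᵐ X where
  toFun := C j
  invFun := C (-j)
  left_inv x := by rw [← h.add, neg_add_cancel, h.zero]
  right_inv x := by
    rw [← h.add, add_neg_cancel, h.zero]
  measurable_toFun := (h.mp j).measurable
  measurable_invFun := (h.mp (-j)).measurable

lemma Act.int_comp (h : Act μ k C) (j : ZMod N) {E : Type*} [NormedAddCommGroup E]
    [NormedSpace ℝ E] (f : X → E) : ∫ x, f (C j x) ∂μ = ∫ x, f x ∂μ := by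
  have h1 : MeasurePreserving (h.eqv j) μ μ := h.mp j
  exact h1.integral_comp' (g := f)

/-- the kernel on the sector with the character `χ` -/
noncomputable def kx (C : ZMod N → X → X) (χ : AddChar (ZMod N) ℂ) (k : ℕ → X → X → ℝ) (n : ℕ)
    (x y : X) : ℂ := (1 / N) * ∑ j, χ j * (k n (C j x) y : ℂ)

/-- the twisted trace -/
noncomputable def Tw (μ : Measure X) (k : ℕ → X → X → ℝ) (C : ZMod N → X → X) (j : ZMod N)
    (n : ℕ) : ℝ := ∫ x, k n (C j x) x ∂μ

lemma kx_bm (hk : KS μ k) (h : Act μ k C) (χ : AddChar (ZMod N) ℂ) {n : ℕ} (hn : 1 ≤ n) :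
    BC (Function.uncurry (kx C χ k n)) := by
  unfold kx
  refine (BC.const (1 / N : ℂ)).mul (BC.sum _ fun j _ => (BC.const (χ j)).mul ?_)
  have h1 : BM fun z : X × X => k n (C j z.1) z.2 :=
    (hk.bm n hn).comp (((h.mp j).measurable.comp measurable_fst).prodMk measurable_snd)
  exact h1.toC

lemma kx_KC (hk : KS μ k) (h : Act μ k C) (χ : AddChar (ZMod N) ℂ) : KC μ (kx C χ k) where
  bm n hn := kx_bm hk h χ hn
  herm n hn x y := by
    unfold kx
    rw [map_mul, map_sum, map_div₀, map_one, Complex.conj_natCast]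
    congr 1
    rw [← Equiv.sum_comp (Equiv.neg (ZMod N)) fun j => χ j * ((k n (C j x) y : ℝ) : ℂ)]
    refine Finset.sum_congr rfl fun j _ => ?_
    rw [map_mul, Complex.conj_ofReal]
    congr 1
    · rw [Equiv.neg_apply, AddChar.map_neg_eq_conj]
    · rw [Equiv.neg_apply, ← h.move hn, hk.symm n hn]
  semi m n hm hn x y := by
    have hN : (N : ℂ) ≠ 0 := by exact_mod_cast NeZero.ne N
    have b1 : ∀ i j, BC fun u => ((k m (C i x) u : ℝ) : ℂ) * ((k n (C j u) y : ℝ) : ℂ) := by
      intro i j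
      refine BC.mul ?_ ?_
      · exact (hk.bl hm (C i x)).toC
      · exact (BM.comp (hk.br hn y) (h.mp j).measurable).toC
    have key : ∀ i j, ∫ u, ((k m (C i x) u : ℝ) : ℂ) * ((k n (C j u) y : ℝ) : ℂ) ∂μ =
        ((k (m + n) (C (i + j) x) y : ℝ) : ℂ) := by
      intro i j
      rw [← h.int_comp (-j)]
      have e1 : ∀ u, ((k m (C i x) (C (-j) u) : ℝ) : ℂ) * ((k n (C j (C (-j) u)) y : ℝ) : ℂ) =
          ((k m (C (i + j) x) u * k n u y : ℝ) : ℂ) := by
        intro u
        rw [h.move hm (-j), neg_neg, ← h.add, ← h.add, add_neg_cancel, h.zero, add_comm j i]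
        push_cast
        rfl
      simp only [e1]
      rw [integral_complex_ofReal, ← hk.semi m n hm hn]
    have e2 : ∀ u, kx C χ k m x u * kx C χ k n u y = ∑ i, ∑ j, (1 / N * (1 / N) * (χ i * χ j)) *
        (((k m (C i x) u : ℝ) : ℂ) * ((k n (C j u) y : ℝ) : ℂ)) := by
      intro u
      unfold kx
      rw [mul_mul_mul_comm, Finset.sum_mul_sum, Finset.mul_sum]
      refine Finset.sum_congr rfl fun i _ => ?_
      rw [Finset.mul_sum]
      refine Finset.sum_congr rfl fun j _ => ?_
      ring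
    simp only [e2]
    rw [integral_finsetSum _ fun i _ => (BC.sum _ fun j _ => (BC.const _).mul (b1 i j)).int]
    have e3 : ∀ i, ∫ u, ∑ j, (1 / N * (1 / N) * (χ i * χ j)) *
        (((k m (C i x) u : ℝ) : ℂ) * ((k n (C j u) y : ℝ) : ℂ)) ∂μ =
        ∑ s, (1 / N * (1 / N) * χ s) * ((k (m + n) (C s x) y : ℝ) : ℂ) := by
      intro i
      rw [integral_finsetSum _ fun j _ => ((BC.const _).mul (b1 i j)).int,
        ← Equiv.sum_comp (Equiv.addLeft i) fun s => (1 / N * (1 / N) * χ s : ℂ) *
          ((k (m + n) (C s x) y : ℝ) : ℂ)]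
      refine Finset.sum_congr rfl fun j _ => ?_
      rw [integral_const_mul, key, Equiv.coe_addLeft, AddChar.map_add_eq_mul]
    simp only [e3]
    rw [Finset.sum_const, Finset.card_univ, ZMod.card, nsmul_eq_mul, Finset.mul_sum]
    unfold kx
    rw [Finset.mul_sum]
    refine Finset.sum_congr rfl fun s _ => ?_
    field_simp

/-- the trace on the sector -/
lemma EC_kx (hk : KS μ k) (h : Act μ k C) (χ : AddChar (ZMod N) ℂ) {n : ℕ} (hn : 1 ≤ n) :
    EC μ (kx C χ k) n = (1 / N) * ∑ j, (χ j).re * Tw μ k C j (n + n) := by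
  rw [(kx_KC hk h χ).EC_diag hn]
  have hn2 : 1 ≤ n + n := by omega
  have e1 : ∀ x, (kx C χ k (n + n) x x).re =
      ∑ j, (1 / N * (χ j).re) * k (n + n) (C j x) x := by
    intro x
    unfold kx
    rw [Finset.mul_sum, Complex.re_sum]
    refine Finset.sum_congr rfl fun j _ => ?_
    have : (1 / N : ℂ) * (χ j * (k (n + n) (C j x) x : ℂ)) =
        ((1 / N * k (n + n) (C j x) x : ℝ) : ℂ) * χ j := by
      push_cast
      ring
    rw [this, Complex.re_ofReal_mul]
    ring
  simp only [e1]
  have b1 : ∀ j, BM fun x => k (n + n) (C j x) x := fun j =>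
    (hk.bm _ hn2).comp ((h.mp j).measurable.prodMk measurable_id)
  rw [integral_finsetSum _ fun j _ => ((BM.const _).mul (b1 j)).int, Finset.mul_sum]
  refine Finset.sum_congr rfl fun j _ => ?_
  rw [integral_const_mul]
  unfold Tw
  ring

lemma Tw_zero (h : Act μ k C) (n : ℕ) : Tw μ k C 0 n = ∫ x, k n x x ∂μ := by
  unfold Tw
  simp only [h.zero]

/-! ### a circle with a twist -/

/-- a circle with one twisted kernel -/
lemma ring_tw {k : X → X → ℝ} (hk : BM (Function.uncurry k)) {φ : X ≃ᵐ X}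
    (hφ : MeasurePreserving φ μ μ)
    (hinv : ∀ n, 1 ≤ n → ∀ x y, kp μ k n (φ x) (φ y) = kp μ k n x y) {N : ℕ} [NeZero N] :
    ∫ x : ZMod N → X, ∏ t : ZMod N, (if t = 0 then k (x t) (φ (x (t + 1)))
      else k (x t) (x (t + 1))) ∂(Measure.pi fun _ => μ) = ∫ y, kp μ k N y (φ y) ∂μ := by
  obtain ⟨n, rfl⟩ : ∃ n, N = n + 1 := ⟨N - 1, by have := NeZero.pos N; omega⟩
  set κ : ℕ → X → X → ℝ := fun t x y => if t = 0 then k x (φ y) else k x y with hκ
  have hb : ∀ t, BM (Function.uncurry (κ t)) := by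
    intro t
    by_cases ht : t = 0
    · simp only [hκ, ht, if_true]
      exact hk.comp (measurable_fst.prodMk (hφ.measurable.comp measurable_snd))
    · simp only [hκ, ht, if_false]
      exact hk
  have h1 := ring_int (μ := μ) (n := n) (κ := κ) hb
  have e1 : ∀ x : Fin (n + 1) → X, ∏ t : Fin (n + 1), κ t (x t) (x (t + 1)) =
      ∏ t : Fin (n + 1), (if t = 0 then k (x t) (φ (x (t + 1))) else k (x t) (x (t + 1))) := by
    intro x
    refine Finset.prod_congr rfl fun t _ => ?_
    simp only [hκ]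
    have : ((t : ℕ) = 0) ↔ t = 0 := ⟨fun h => Fin.ext h, fun h => by rw [h]; rfl⟩
    simp only [this]
  simp only [e1] at h1
  refine h1.trans ?_
  congr 1
  funext y
  rcases n with _ | n
  · simp [It, hκ, kp_one]
  · have h2 := It_kp (μ := μ) hk n 1 le_rfl y
    simp only [kp_one] at h2
    have e2 : (fun u => κ (n + 1) u y) = fun u => k u y := by
      funext u
      simp [hκ]
    rw [e2]
    simp only [It]
    have e3 : It μ n (fun t => κ (t + 1)) (fun u => k u y) = It μ n (fun _ => k) fun u => k u y :=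
      It_congr n _ fun t _ => by
        funext u v
        simp [hκ]
    rw [e3, h2]
    simp only [hκ, if_pos]
    have e4 : ∀ v, k y (φ v) * kp μ k (n + 1) v y =
        (fun u => k y u * kp μ k (n + 1) u (φ y)) (φ v) := by
      intro v
      simp only
      rw [hinv (n + 1) (by omega)]
    simp only [e4]
    rw [kp_succ (by omega)]
    exact hφ.integral_comp' (g := fun u => k y u * kp μ k (n + 1) u (φ y))

end Pool.Agent.Run7.h897.FS
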