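import Pool.Agent.Run7.h897.FS.Ker

/-!
# Two copies of a kernel: symmetric and antisymmetric functions
-/

set_option linter.unusedSectionVars false
set_option linter.unusedVariables false

open MeasureTheory Filter Topology

namespace Pool.Agent.Run7.h897.FS

variable {X : Type*} [MeasurableSpace X] {μ : Measure X} [IsProbabilityMeasure μ]
  {k : ℕ → X → X → ℝ}

/-- the kernel on symmetric (`ε = 1`) or antisymmetric (`ε = -1`) functions of two variables -/
noncomputable def KD (ε : ℝ) (k : ℕ → X → X → ℝ) (n : ℕ) (z z' : X × X) : ℝ :=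
  (k n z.1 z'.1 * k n z.2 z'.2 + ε * (k n z.1 z'.2 * k n z.2 z'.1)) / 2

lemma prod2 {f g : X → ℝ} (hf : BM f) (hg : BM g) :
    ∫ w : X × X, f w.1 * g w.2 ∂(μ.prod μ) = (∫ x, f x ∂μ) * ∫ x, g x ∂μ :=
  integral_prod_mul f g

lemma KS.dbl (h : KS μ k) {ε : ℝ} (hε : ε * ε = 1) : KS (μ.prod μ) (KD ε k) where
  bm n hn := by
    have b1 : ∀ {φ ψ : (X × X) × (X × X) → X}, Measurable φ → Measurable ψ →
        BM fun w => k n (φ w) (ψ w) := fun hφ hψ => (h.bm n hn).comp (hφ.prodMk hψ)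
    have m1 : Measurable fun w : (X × X) × (X × X) => w.1.1 := measurable_fst.fst
    have m2 : Measurable fun w : (X × X) × (X × X) => w.1.2 := measurable_fst.snd
    have m3 : Measurable fun w : (X × X) × (X × X) => w.2.1 := measurable_snd.fst
    have m4 : Measurable fun w : (X × X) × (X × X) => w.2.2 := measurable_snd.snd
    have := (((b1 m1 m3).mul (b1 m2 m4)).add ((BM.const ε).mul
      ((b1 m1 m4).mul (b1 m2 m3)))).mul (BM.const (1 / 2))
    convert this using 1
    funext w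
    simp only [Function.uncurry, FS.KD]
    ring
  symm n hn z z' := by
    unfold FS.KD
    rw [h.symm n hn z.1 z'.1, h.symm n hn z.2 z'.2, h.symm n hn z.1 z'.2, h.symm n hn z.2 z'.1]
    ring
  semi m n hm hn z z' := by
    have e : ∀ w : X × X, FS.KD ε k m z w * FS.KD ε k n w z' =
        1 / 4 * ((k m z.1 w.1 * k n w.1 z'.1) * (k m z.2 w.2 * k n w.2 z'.2)) +
        ε / 4 * ((k m z.1 w.1 * k n w.1 z'.2) * (k m z.2 w.2 * k n w.2 z'.1)) +
        ε / 4 * ((k m z.2 w.1 * k n w.1 z'.1) * (k m z.1 w.2 * k n w.2 z'.2)) +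
        1 / 4 * ((k m z.2 w.1 * k n w.1 z'.2) * (k m z.1 w.2 * k n w.2 z'.1)) := by
      intro w
      unfold FS.KD
      linear_combination (1 / 4 * (k m z.1 w.2 * k m z.2 w.1) * (k n w.1 z'.2 * k n w.2 z'.1)) *
        hε
    have b : ∀ a c : X, BM fun u => k m a u * k n u c := fun a c => (h.bl hm a).mul (h.br hn c)
    have b2 : ∀ a c a' c' : X, BM fun w : X × X => (k m a w.1 * k n w.1 c) *
        (k m a' w.2 * k n w.2 c') := fun a c a' c' =>
      ((b a c).comp measurable_fst).mul ((b a' c').comp measurable_snd)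
    simp only [e]
    rw [integral_add, integral_add, integral_add]
    · simp only [integral_const_mul]
      rw [prod2 (b z.1 z'.1) (b z.2 z'.2), prod2 (b z.1 z'.2) (b z.2 z'.1),
        prod2 (b z.2 z'.1) (b z.1 z'.2), prod2 (b z.2 z'.2) (b z.1 z'.1)]
      simp only [← h.semi m n hm hn]
      unfold FS.KD
      ring
    · exact ((b2 _ _ _ _).int).const_mul _
    · exact ((b2 _ _ _ _).int).const_mul _
    · exact (((b2 _ _ _ _).int).const_mul _).add (((b2 _ _ _ _).int).const_mul _)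
    · exact ((b2 _ _ _ _).int).const_mul _
    · exact ((((b2 _ _ _ _).int).const_mul _).add (((b2 _ _ _ _).int).const_mul _)).add
        (((b2 _ _ _ _).int).const_mul _)
    · exact ((b2 _ _ _ _).int).const_mul _

lemma KS.EE_KD (h : KS μ k) {ε : ℝ} (hε : ε * ε = 1) {n : ℕ} (hn : 1 ≤ n) :
    EE (μ.prod μ) (KD ε k) n = (EE μ k n ^ 2 + ε * EE μ k (2 * n)) / 2 := by
  rw [(h.dbl hε).EE_diag hn]
  have hn2 : 1 ≤ n + n := by omega
  have e : ∀ z : X × X, FS.KD ε k (n + n) z z =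
      1 / 2 * (k (n + n) z.1 z.1 * k (n + n) z.2 z.2) +
        ε / 2 * (Function.uncurry (k (n + n)) z) ^ 2 := by
    intro z
    unfold FS.KD
    simp only [Function.uncurry]
    rw [h.symm (n + n) hn2 z.2 z.1]
    ring
  have bd : BM fun x => k (n + n) x x := (h.bm _ hn2).comp (measurable_id.prodMk measurable_id)
  simp only [e]
  rw [integral_add, integral_const_mul, integral_const_mul, prod2 bd bd, ← h.EE_prod hn2,
    ← h.EE_diag hn, ← two_mul]
  · ring
  · exact (((bd.comp measurable_fst).mul (bd.comp measurable_snd)).int).const_mul _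
  · exact (((h.bm _ hn2).pow 2).int).const_mul _

/-- the sequence of the traces has the properties of the numerical part -/
theorem KS.ts (h : KS μ k) (hpos : ∀ n, 1 ≤ n → 0 < EE μ k n) : TS (EE μ k) where
  pos := hpos
  lc n hn := h.lc hn
  sub n m hn hm := h.sub hn hm
  pur n hn := by
    have hε : (-1 : ℝ) * (-1) = 1 := by norm_num
    have h1 := (h.dbl hε).sub hn hn
    rw [← two_mul, h.EE_KD hε hn, h.EE_KD hε (by omega)] at h1
    rw [show 2 * (2 * n) = 4 * n by ring] at h1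
    nlinarith

/-! ### covariances -/

/-- the expectation of the product of two observables at the distance `τ` on the circle of
length `N = τ + r` -/
noncomputable def A2 (μ : Measure X) (k : ℕ → X → X → ℝ) (τ r : ℕ) (F F' : X → ℝ) : ℝ :=
  ∫ x, ∫ y, F x * F' y * (k τ x y * k r y x) ∂μ ∂μ

/-- the expectation of one observable -/
noncomputable def A1 (μ : Measure X) (k : ℕ → X → X → ℝ) (N : ℕ) (F : X → ℝ) : ℝ :=
  ∫ x, F x * k N x x ∂μ

lemma KS.A1_left (h : KS μ k) {τ r : ℕ} (hτ : 1 ≤ τ) (hr : 1 ≤ r) {F : X → ℝ} (hF : BM F) :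
    ∫ x, ∫ y, F x * (k τ x y * k r y x) ∂μ ∂μ = A1 μ k (τ + r) F := by
  unfold A1
  congr 1
  funext x
  rw [h.semi τ r hτ hr, integral_const_mul]

lemma KS.A1_right (h : KS μ k) {τ r : ℕ} (hτ : 1 ≤ τ) (hr : 1 ≤ r) {F : X → ℝ} (hF : BM F) :
    ∫ x, ∫ y, F y * (k τ x y * k r y x) ∂μ ∂μ = A1 μ k (τ + r) F := by
  rw [swp]
  · rw [add_comm τ r, ← h.A1_left hr hτ hF]
    congr 1
    funext x
    congr 1
    funext y
    ring
  · exact (hF.comp measurable_snd).mul ((h.bm τ hτ).mul ((h.bm r hr).comp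
      (measurable_snd.prodMk measurable_fst)))

/-- the truncated correlation as an integral over two copies -/
lemma KS.cov_eq (h : KS μ k) {τ r : ℕ} (hτ : 1 ≤ τ) (hr : 1 ≤ r) {F F' : X → ℝ} (hF : BM F)
    (hF' : BM F') :
    2 * (A2 μ k τ r F F' * A1 μ k (τ + r) (fun _ => 1) - A1 μ k (τ + r) F * A1 μ k (τ + r) F') =
      ∫ z, ∫ z', (F z.1 - F z.2) * (F' z'.1 - F' z'.2) *
        ((k τ z.1 z'.1 * k τ z.2 z'.2) * (k r z'.1 z.1 * k r z'.2 z.2)) ∂(μ.prod μ)
          ∂(μ.prod μ) := by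
  set c : X → X → ℝ := fun x y => k τ x y * k r y x with hc
  have bc : BM (Function.uncurry c) := (h.bm τ hτ).mul ((h.bm r hr).comp
      (measurable_snd.prodMk measurable_fst))
  have bcx : ∀ x, BM (c x) := fun x => bc.comp (measurable_const.prodMk measurable_id)
  have bF'c : ∀ x, BM fun y => F' y * c x y := fun x => hF'.mul (bcx x)
  have i1 : ∀ G G' : X → ℝ, BM G → BM G' → BM fun x => G x * ∫ y, G' y * c x y ∂μ := by
    intro G G' hG hG'
    refine hG.mul ?_
    have : BM fun w : X × X => G' w.2 * c w.1 w.2 := (hG'.comp measurable_snd).mul bc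
    exact this.intg
  have e : ∀ z : X × X, ∫ z' : X × X, (F z.1 - F z.2) * (F' z'.1 - F' z'.2) *
        ((k τ z.1 z'.1 * k τ z.2 z'.2) * (k r z'.1 z.1 * k r z'.2 z.2)) ∂(μ.prod μ) =
      (F z.1 * ∫ y, F' y * c z.1 y ∂μ) * (1 * ∫ y, 1 * c z.2 y ∂μ)
      - (F z.1 * ∫ y, 1 * c z.1 y ∂μ) * (1 * ∫ y, F' y * c z.2 y ∂μ)
      - (1 * ∫ y, F' y * c z.1 y ∂μ) * (F z.2 * ∫ y, 1 * c z.2 y ∂μ)
      + (1 * ∫ y, 1 * c z.1 y ∂μ) * (F z.2 * ∫ y, F' y * c z.2 y ∂μ) := by
    intro z
    have e1 : ∀ z' : X × X, (F z.1 - F z.2) * (F' z'.1 - F' z'.2) *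
        ((k τ z.1 z'.1 * k τ z.2 z'.2) * (k r z'.1 z.1 * k r z'.2 z.2)) =
        (F z.1 - F z.2) * ((F' z'.1 * c z.1 z'.1) * (1 * c z.2 z'.2)) -
          (F z.1 - F z.2) * ((1 * c z.1 z'.1) * (F' z'.2 * c z.2 z'.2)) := by
      intro z'
      simp only [hc]
      ring
    simp only [e1]
    have b1 : ∀ x, BM fun y => (1 : ℝ) * c x y := fun x => (BM.const 1).mul (bcx x)
    rw [integral_sub, integral_const_mul, integral_const_mul, prod2 (bF'c z.1) (b1 z.2),
      prod2 (b1 z.1) (bF'c z.2)]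
    · ring
    · exact ((((bF'c z.1).comp measurable_fst).mul ((b1 z.2).comp measurable_snd)).int).const_mul _
    · exact ((((b1 z.1).comp measurable_fst).mul ((bF'c z.2).comp measurable_snd)).int).const_mul _
  simp only [e]
  have one : BM fun _ : X => (1 : ℝ) := BM.const 1
  have j1 := i1 F F' hF hF'
  have j2 := i1 (fun _ => 1) (fun _ => 1) one one
  have j3 := i1 F (fun _ => 1) hF one
  have j4 := i1 (fun _ => 1) F' one hF'
  have p1 := (j1.comp measurable_fst (X := X × X)).mul (j2.comp measurable_snd (X := X × X))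
  have p2 := (j3.comp measurable_fst (X := X × X)).mul (j4.comp measurable_snd (X := X × X))
  have p3 := (j4.comp measurable_fst (X := X × X)).mul (j3.comp measurable_snd (X := X × X))
  have p4 := (j2.comp measurable_fst (X := X × X)).mul (j1.comp measurable_snd (X := X × X))
  rw [integral_add ((p1.sub p2).sub p3).int p4.int, integral_sub (p1.sub p2).int p3.int,
    integral_sub p1.int p2.int, prod2 j1 j2, prod2 j3 j4, prod2 j4 j3, prod2 j2 j1]
  have q1 : ∫ x, F x * ∫ y, F' y * c x y ∂μ ∂μ = A2 μ k τ r F F' := by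
    unfold A2
    congr 1
    funext x
    rw [← integral_const_mul]
    congr 1
    funext y
    simp only [hc]
    ring
  have q2 : ∫ x, (1 : ℝ) * ∫ y, 1 * c x y ∂μ ∂μ = A1 μ k (τ + r) fun _ => 1 := by
    rw [← h.A1_left hτ hr one]
    simp only [one_mul, hc]
  have q3 : ∫ x, F x * ∫ y, 1 * c x y ∂μ ∂μ = A1 μ k (τ + r) F := by
    rw [← h.A1_left hτ hr hF]
    simp only [one_mul, hc, integral_const_mul]
  have q4 : ∫ x, (1 : ℝ) * ∫ y, F' y * c x y ∂μ ∂μ = A1 μ k (τ + r) F' := by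
    rw [← h.A1_right hτ hr hF']
    simp only [one_mul, hc]
  rw [q1, q2, q3, q4]
  ring

/-- The fundamental estimate of the truncated correlations. -/
theorem KS.cov (h : KS μ k) {s0 : ℕ} (hs0 : 1 ≤ s0) {τ p q : ℕ} (hτ : 1 ≤ τ) (hp : 1 ≤ p)
    (hq : 1 ≤ q) {F F' : X → ℝ} (hF : BM F) (hF' : BM F') {C C' : ℝ} (hC : ∀ x, |F x| ≤ C)
    (hC' : ∀ x, |F' x| ≤ C') (hC0 : 0 ≤ C) (hC0' : 0 ≤ C') :
    |A2 μ k τ (p + q) F F' * A1 μ k (τ + (p + q)) (fun _ => 1) -
        A1 μ k (τ + (p + q)) F * A1 μ k (τ + (p + q)) F'| ≤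
      2 * C * C' * (rho (μ.prod μ) (KD (-1) k) s0 ^ τ *
          (√(EE (μ.prod μ) (KD 1 k) q) * √(EE (μ.prod μ) (KD 1 k) p)) +
        rho (μ.prod μ) (KD 1 k) s0 ^ τ *
          (√(EE (μ.prod μ) (KD (-1) k) q) * √(EE (μ.prod μ) (KD (-1) k) p))) := by
  set r := p + q with hr
  have hr1 : 1 ≤ r := by omega
  have hε : (-1 : ℝ) * (-1) = 1 := by norm_num
  have hε' : (1 : ℝ) * 1 = 1 := by norm_num
  set f : X × X → ℝ := fun z => F z.1 - F z.2 with hf
  set f' : X × X → ℝ := fun z => F' z.1 - F' z.2 with hf'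
  have bf : BM f := (hF.comp measurable_fst).sub (hF.comp measurable_snd)
  have bf' : BM f' := (hF'.comp measurable_fst).sub (hF'.comp measurable_snd)
  have hfC : ∀ z, |f z| ≤ 2 * C := fun z => by
    refine (abs_sub _ _).trans ?_
    have := hC z.1
    have := hC z.2
    linarith
  have hfC' : ∀ z, |f' z| ≤ 2 * C' := fun z => by
    refine (abs_sub _ _).trans ?_
    have := hC' z.1
    have := hC' z.2
    linarith
  have hcov := h.cov_eq hτ hr1 hF hF'
  have split : ∫ z, ∫ z', (F z.1 - F z.2) * (F' z'.1 - F' z'.2) *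
        ((k τ z.1 z'.1 * k τ z.2 z'.2) * (k r z'.1 z.1 * k r z'.2 z.2)) ∂(μ.prod μ)
          ∂(μ.prod μ) =
      ∫ z, ∫ z', f z * f' z' * (FS.KD (-1) k τ z z' * FS.KD 1 k r z' z) ∂(μ.prod μ) ∂(μ.prod μ) +
      ∫ z, ∫ z', f z * f' z' * (FS.KD 1 k τ z z' * FS.KD (-1) k r z' z) ∂(μ.prod μ)
        ∂(μ.prod μ) := by
    have bm1 : ∀ {ε ε' : ℝ}, ε * ε = 1 → ε' * ε' = 1 → BM fun w : (X × X) × (X × X) =>
        f w.1 * f' w.2 * (FS.KD ε k τ w.1 w.2 * FS.KD ε' k r w.2 w.1) := by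
      intro ε ε' h1 h2
      refine ((bf.comp measurable_fst).mul (bf'.comp measurable_snd)).mul (BM.mul ?_ ?_)
      · exact (h.dbl h1).bm τ hτ
      · exact ((h.dbl h2).bm r hr1).comp (measurable_snd.prodMk measurable_fst)
    have bz : ∀ {ε ε' : ℝ}, ε * ε = 1 → ε' * ε' = 1 → ∀ z : X × X, BM fun z' : X × X =>
        f z * f' z' * (FS.KD ε k τ z z' * FS.KD ε' k r z' z) := fun h1 h2 z =>
      (bm1 h1 h2).comp (measurable_const.prodMk measurable_id)
    rw [← integral_add (bm1 hε hε').intg.int (bm1 hε' hε).intg.int]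
    congr 1
    funext z
    rw [← integral_add (bz hε hε' z).int (bz hε' hε z).int]
    -- the difference is odd under the exchange
    have e1 : ∀ z' : X × X, (F z.1 - F z.2) * (F' z'.1 - F' z'.2) *
        ((k τ z.1 z'.1 * k τ z.2 z'.2) * (k r z'.1 z.1 * k r z'.2 z.2)) =
        (f z * f' z' * (FS.KD (-1) k τ z z' * FS.KD 1 k r z' z) +
          f z * f' z' * (FS.KD 1 k τ z z' * FS.KD (-1) k r z' z)) +
        (f z * f' z' * (FS.KD 1 k τ z z' * FS.KD 1 k r z' z) +
          f z * f' z' * (FS.KD (-1) k τ z z' * FS.KD (-1) k r z' z)) := by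
      intro z'
      simp only [hf, hf', FS.KD]
      ring
    have bodd := (bz hε' hε' z).add (bz hε hε z)
    simp only [e1]
    rw [integral_add ((bz hε hε' z).add (bz hε' hε z)).int bodd.int]
    have hodd : ∫ z' : X × X, (f z * f' z' * (FS.KD 1 k τ z z' * FS.KD 1 k r z' z) +
          f z * f' z' * (FS.KD (-1) k τ z z' * FS.KD (-1) k r z' z)) ∂(μ.prod μ) = 0 := by
      have h1 := integral_prod_swap (μ := μ) (ν := μ)
        (fun z' : X × X => f z * f' z' * (FS.KD 1 k τ z z' * FS.KD 1 k r z' z) +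
          f z * f' z' * (FS.KD (-1) k τ z z' * FS.KD (-1) k r z' z))
      have h2 : ∫ z' : X × X, (f z * f' z'.swap * (FS.KD 1 k τ z z'.swap *
            FS.KD 1 k r z'.swap z) + f z * f' z'.swap * (FS.KD (-1) k τ z z'.swap *
            FS.KD (-1) k r z'.swap z)) ∂(μ.prod μ) =
          -∫ z' : X × X, (f z * f' z' * (FS.KD 1 k τ z z' * FS.KD 1 k r z' z) +
          f z * f' z' * (FS.KD (-1) k τ z z' * FS.KD (-1) k r z' z)) ∂(μ.prod μ) := by
        rw [← integral_neg]
        congr 1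
        funext z'
        simp only [hf', FS.KD, Prod.fst_swap, Prod.snd_swap]
        ring
      linarith [h1, h2]
    rw [hodd, add_zero]
  have t1 := KS.trace_bound (h.dbl hε) (h.dbl hε') hs0 hτ hp hq bf bf' hfC hfC' (by linarith)
    (by linarith)
  have t2 := KS.trace_bound (h.dbl hε') (h.dbl hε) hs0 hτ hp hq bf bf' hfC hfC' (by linarith)
    (by linarith)
  rw [split] at hcov
  have t3 := abs_add_le
    (∫ z, ∫ z', f z * f' z' * (FS.KD (-1) k τ z z' * FS.KD 1 k r z' z) ∂(μ.prod μ) ∂(μ.prod μ))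
    (∫ z, ∫ z', f z * f' z' * (FS.KD 1 k τ z z' * FS.KD (-1) k r z' z) ∂(μ.prod μ)
        ∂(μ.prod μ))
  rw [← hcov, abs_mul, abs_two] at t3
  nlinarith

end Pool.Agent.Run7.h897.FS
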