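import Pool.Agent.Run7.h897.FS.Num

/-!
# Families of partition functions
-/

open Filter Topology

namespace Pool.Agent.Run7.h897.FS

/-! ### two directions -/

section two

variable {F : ℕ → ℕ → ℝ}

/-- limit in the second variable -/
lemma ts0_lim (h1 : ∀ m, 1 ≤ m → TS0 fun n => F n m) (h2 : ∀ n, 1 ≤ n → TS0 fun m => F n m) :
    TS0 fun n => Real.exp (ell (F n)) where
  pos n _ := Real.exp_pos _
  lc n hn := by
    rw [← Real.exp_nat_mul, ← Real.exp_add, Real.exp_le_exp]
    have t0 := (h2 n hn).tend'
    have t1 := (h2 (n + 1) (by omega)).tend'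
    have t2 := (h2 (n + 2) (by omega)).tend'
    have t3 := t1.const_mul (2 : ℝ)
    push_cast
    refine le_of_tendsto_of_tendsto t3 (t0.add t2) ?_
    filter_upwards [eventually_ge_atTop 1] with m hm
    have := (h1 m hm).slope hn
    rw [← add_div, mul_div_assoc']
    gcongr
    linarith
  sub n k hn hk := by
    rw [← Real.exp_add, Real.exp_le_exp]
    refine le_of_tendsto_of_tendsto (h2 (n + k) (by omega)).tend'
      ((h2 n hn).tend'.add (h2 k hk).tend') ?_
    filter_upwards [eventually_ge_atTop 1] with m hm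
    rw [← add_div]
    gcongr
    rw [← Real.log_mul ((h2 n hn).pos m hm).ne' ((h2 k hk).pos m hm).ne']
    exact Real.log_le_log ((h2 (n + k) (by omega)).pos m hm) ((h1 m hm).sub n k hn hk)

lemma ell_le_ell (h1 : ∀ m, 1 ≤ m → TS0 fun n => F n m) (h2 : ∀ n, 1 ≤ n → TS0 fun m => F n m) :
    ell (fun m => Real.exp (ell fun n => F n m)) ≤ ell (fun n => Real.exp (ell (F n))) := by
  have a1 : TS0 fun m => Real.exp (ell fun n => F n m) :=
    ts0_lim (F := fun m n => F n m) h2 h1
  have a2 := ts0_lim h1 h2
  refine ge_of_tendsto a2.tend' ?_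
  filter_upwards [eventually_ge_atTop 1] with n hn
  rw [Real.log_exp]
  have t := (h2 n hn).tend'.div_const (n : ℝ)
  refine ge_of_tendsto t ?_
  filter_upwards [eventually_ge_atTop 1] with m hm
  have b1 := a1.ell_le hm
  have b2 := (h1 m hm).ell_le hn
  simp only [Real.log_exp] at b1 b2
  have hn' : (0 : ℝ) < n := by positivity
  have hm' : (0 : ℝ) < m := by positivity
  rw [div_div, le_div_iff₀ (by positivity)]
  nlinarith

lemma ell_eq_ell (h1 : ∀ m, 1 ≤ m → TS0 fun n => F n m) (h2 : ∀ n, 1 ≤ n → TS0 fun m => F n m) :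
    ell (fun m => Real.exp (ell fun n => F n m)) = ell (fun n => Real.exp (ell (F n))) :=
  le_antisymm (ell_le_ell h1 h2) (ell_le_ell (F := fun m n => F n m) h2 h1)

/-- the two directions -/
theorem two (h1 : ∀ m, 1 ≤ m → TS0 fun n => F n m) (h2 : ∀ n, 1 ≤ n → TS0 fun m => F n m)
    {t c : ℕ} (ht : 1 ≤ t) (hc : 1 ≤ c) (hct : c ≤ 4 * t) {M : ℝ}
    (hM1 : psi (fun n => F n (2 * t)) t ≤ M) (hM2 : psi (F (2 * t)) t ≤ M) :
    psi (fun n => F n c) t ≤ 4 * M + psi (F t) c := by
  have a1 : TS0 fun m => Real.exp (ell fun n => F n m) :=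
    ts0_lim (F := fun m n => F n m) h2 h1
  have a2 := ts0_lim h1 h2
  have hf := ell_eq_ell h1 h2
  set f := ell (fun n => Real.exp (ell (F n))) with hf0
  have e1 : ∀ m, 1 ≤ m → ell (fun n => F n m) =
      m * f + psi (fun m => Real.exp (ell fun n => F n m)) m := by
    intro m hm
    unfold psi
    rw [hf, Real.log_exp]
    ring
  have e2 : ∀ n, 1 ≤ n → ell (F n) = n * f + psi (fun n => Real.exp (ell (F n))) n := by
    intro n hn
    unfold psi
    rw [← hf0, Real.log_exp]
    ring
  set p1 := psi (fun m => Real.exp (ell fun n => F n m)) with hp1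
  set p2 := psi (fun n => Real.exp (ell (F n))) with hp2
  have id : ∀ n m, 1 ≤ n → 1 ≤ m → psi (fun n => F n m) n + n * p1 m =
      psi (F n) m + m * p2 n := by
    intro n m hn hm
    have c1 : psi (fun n => F n m) n = Real.log (F n m) - n * ell (fun n => F n m) := rfl
    have c2 : psi (F n) m = Real.log (F n m) - m * ell (F n) := rfl
    rw [c1, c2, e1 m hm, e2 n hn]
    ring
  have i1 := id t (2 * t) ht (by omega)
  have i2 := id (2 * t) t (by omega) ht
  have i3 := id t c ht hc
  have n1 := (h1 t ht).psi_nonneg (n := 2 * t) (by omega)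
  have n2 := (h2 t ht).psi_nonneg (n := 2 * t) (by omega)
  have q1 : p1 (2 * t) ≤ p1 t := a1.psi_anti ht (by omega)
  have q2 : p2 (2 * t) ≤ p2 t := a2.psi_anti ht (by omega)
  have r1 : 0 ≤ p1 c := a1.psi_nonneg hc
  have r2 : 0 ≤ p2 t := a2.psi_nonneg ht
  push_cast at i1 i2 i3
  have ht' : (0 : ℝ) < t := by positivity
  have hc' : (c : ℝ) ≤ 4 * t := by exact_mod_cast hct
  have u1 : (t : ℝ) * p1 (2 * t) ≤ t * p1 t := by gcongr
  have u2 : (t : ℝ) * p2 (2 * t) ≤ t * p2 t := by gcongr
  have u3 : (0 : ℝ) ≤ t * p1 c := by positivity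
  have u4 : (c : ℝ) * p2 t ≤ 4 * t * p2 t := by gcongr
  have s1 : 2 * (t * p2 t) ≤ M + t * p1 t := by linarith
  have s2 : 2 * (t * p1 t) ≤ M + t * p2 t := by linarith
  have s3 : t * p2 t ≤ M := by linarith
  linarith

end two

/-! ### all directions -/

variable {d : ℕ} {Z : (Fin d → ℕ) → ℝ}

/-- the axioms -/
def Fam (Z : (Fin d → ℕ) → ℝ) : Prop :=
  ∀ L : Fin d → ℕ, (∀ i, 1 ≤ L i) → ∀ i, TS fun n => Z (Function.update L i n)

/-- the finite size correction in the direction `i` -/
noncomputable def psD (Z : (Fin d → ℕ) → ℝ) (i : Fin d) (L : Fin d → ℕ) : ℝ :=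
  psi (fun n => Z (Function.update L i n)) (L i)

lemma psD_update (i : Fin d) (L : Fin d → ℕ) (n : ℕ) :
    psD Z i (Function.update L i n) = psi (fun n => Z (Function.update L i n)) n := by
  unfold psD
  simp only [Function.update_idem, Function.update_self]

/-- shapes with sides `t`, `2 t` -/
def HG (Z : (Fin d → ℕ) → ℝ) (t : ℕ) (M : ℝ) : Prop :=
  ∀ i L, L i = t → (∀ j, j ≠ i → L j = t ∨ L j = 2 * t) → psD Z i L ≤ M

/-- shapes with sides `2 t`, `4 t` -/
def HH (Z : (Fin d → ℕ) → ℝ) (t : ℕ) (M : ℝ) : Prop :=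
  ∀ i L, L i = t → (∀ j, j ≠ i → L j = 2 * t ∨ L j = 4 * t) → psD Z i L ≤ M

/-- shapes with sides in `[t, 4 t]` -/
def HA (Z : (Fin d → ℕ) → ℝ) (t : ℕ) (M : ℝ) : Prop :=
  ∀ i L, L i = t → (∀ j, j ≠ i → t ≤ L j ∧ L j ≤ 4 * t) → psD Z i L ≤ M

lemma HG_all (hZ : Fam Z) {t : ℕ} (ht : 1 ≤ t) {M : ℝ} (hM : 0 ≤ M) (h : HG Z t M) (J : ℕ) :
    ∀ (i : Fin d) (L : Fin d → ℕ), L i = t → (∀ j, j ≠ i → t ≤ L j ∧ L j ≤ 4 * t) →
      (Finset.univ.filter fun j => j ≠ i ∧ L j ≠ t ∧ L j ≠ 2 * t).card ≤ J →
      psD Z i L ≤ 5 ^ J * M := by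
  induction J with
  | zero =>
    intro i L hi hj hc
    rw [Nat.le_zero, Finset.card_eq_zero, Finset.filter_eq_empty_iff] at hc
    rw [pow_zero, one_mul]
    refine h i L hi fun j hji => ?_
    have := hc (Finset.mem_univ j)
    tauto
  | succ J ih =>
    intro i L hi hj hc
    by_cases hb : ∃ j, j ≠ i ∧ L j ≠ t ∧ L j ≠ 2 * t
    · obtain ⟨j, hji, hj1, hj2⟩ := hb
      have hL : ∀ k, 1 ≤ L k := by
        intro k
        rcases eq_or_ne k i with rfl | hk
        · omega
        · have := hj k hk; omega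
      have hup : ∀ (n : ℕ) (k : Fin d), 1 ≤ n → ∀ L' : Fin d → ℕ, (∀ k, 1 ≤ L' k) →
          ∀ k', 1 ≤ Function.update L' k n k' := by
        intro n k hn L' hL' k'
        rcases eq_or_ne k' k with rfl | hk
        · simpa using hn
        · simpa [hk] using hL' k'
      have h1 : ∀ m, 1 ≤ m → TS0 fun n => Z (Function.update (Function.update L j m) i n) :=
        fun m hm => (hZ _ (hup m j hm L hL) i).toTS0
      have h2 : ∀ n, 1 ≤ n → TS0 fun m => Z (Function.update (Function.update L j m) i n) := by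
        intro n hn
        have := (hZ _ (hup n i hn L hL) j).toTS0
        simpa only [Function.update_comm hji] using this
      have hF := two (F := fun n m => Z (Function.update (Function.update L j m) i n)) h1 h2 ht
        (hL j) (hj j hji).2 (M := 5 ^ J * M)
      -- counting
      have hcard : ∀ (i' : Fin d) (L' : Fin d → ℕ),
          (Finset.univ.filter fun k => k ≠ i' ∧ L' k ≠ t ∧ L' k ≠ 2 * t) ⊆
            (Finset.univ.filter fun k => k ≠ i ∧ L k ≠ t ∧ L k ≠ 2 * t).erase j →
          (Finset.univ.filter fun k => k ≠ i' ∧ L' k ≠ t ∧ L' k ≠ 2 * t).card ≤ J := by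
        intro i' L' hs
        have hmem : j ∈ Finset.univ.filter fun k => k ≠ i ∧ L k ≠ t ∧ L k ≠ 2 * t := by
          simp [hji, hj1, hj2]
        have := Finset.card_le_card hs
        rw [Finset.card_erase_of_mem hmem] at this
        omega
      have b1 : psD Z i (Function.update L j (2 * t)) ≤ 5 ^ J * M := by
        refine ih i _ ?_ ?_ ?_
        · rw [Function.update_of_ne (Ne.symm hji)]; exact hi
        · intro k hk
          rcases eq_or_ne k j with rfl | hkj
          · rw [Function.update_self]; omega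
          · rw [Function.update_of_ne hkj]; exact hj k hk
        · refine hcard _ _ fun k hk => ?_
          simp only [Finset.mem_filter, Finset.mem_univ, true_and, Finset.mem_erase] at hk ⊢
          rcases eq_or_ne k j with rfl | hkj
          · rw [Function.update_self] at hk; omega
          · rw [Function.update_of_ne hkj] at hk; exact ⟨hkj, hk⟩
      have b2 : psD Z j (Function.update (Function.update L i (2 * t)) j t) ≤ 5 ^ J * M := by
        refine ih j _ ?_ ?_ ?_
        · rw [Function.update_self]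
        · intro k hk
          rw [Function.update_of_ne hk]
          rcases eq_or_ne k i with rfl | hki
          · rw [Function.update_self]; omega
          · rw [Function.update_of_ne hki]; exact hj k hki
        · refine hcard _ _ fun k hk => ?_
          simp only [Finset.mem_filter, Finset.mem_univ, true_and, Finset.mem_erase] at hk ⊢
          rw [Function.update_of_ne hk.1] at hk
          rcases eq_or_ne k i with rfl | hki
          · rw [Function.update_self] at hk; omega
          · rw [Function.update_of_ne hki] at hk; exact ⟨hk.1, hki, hk.2⟩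
      have b3 : psD Z j (Function.update L j t) ≤ 5 ^ J * M := by
        refine ih j _ ?_ ?_ ?_
        · rw [Function.update_self]
        · intro k hk
          rw [Function.update_of_ne hk]
          rcases eq_or_ne k i with rfl | hki
          · omega
          · exact hj k hki
        · refine hcard _ _ fun k hk => ?_
          simp only [Finset.mem_filter, Finset.mem_univ, true_and, Finset.mem_erase] at hk ⊢
          rw [Function.update_of_ne hk.1] at hk
          rcases eq_or_ne k i with rfl | hki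
          · omega
          · exact ⟨hk.1, hki, hk.2⟩
      have c1 : psi (fun n => Z (Function.update (Function.update L j (2 * t)) i n)) t ≤
          5 ^ J * M := by
        refine le_trans (le_of_eq ?_) b1
        unfold psD
        rw [Function.update_of_ne (Ne.symm hji), hi]
      have c2 : psi (fun m => Z (Function.update (Function.update L j m) i (2 * t))) t ≤
          5 ^ J * M := by
        rw [psD_update] at b2
        simpa only [Function.update_comm hji] using b2
      have c3 := hF c1 c2
      have c4 : psi (fun m => Z (Function.update (Function.update L j m) i t)) (L j) ≤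
          psi (fun m => Z (Function.update (Function.update L j m) i t)) t :=
        (h2 t ht).psi_anti ht (hj j hji).1
      have c5 : psi (fun m => Z (Function.update (Function.update L j m) i t)) t ≤ 5 ^ J * M := by
        rw [psD_update] at b3
        refine le_trans (le_of_eq ?_) b3
        congr 1
        funext m
        rw [Function.update_comm hji, show Function.update L i t = L by
          rw [← hi]; exact Function.update_eq_self i L]
      have c6 : psD Z i L = psi (fun n => Z (Function.update (Function.update L j (L j)) i n)) t := by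
        unfold psD
        rw [hi, Function.update_eq_self]
      rw [c6, pow_succ]
      linarith
    · push Not at hb
      have h0 : psD Z i L ≤ M := by
        refine h i L hi fun j hji => ?_
        by_cases hj1 : L j = t
        · exact Or.inl hj1
        · exact Or.inr (hb j hji hj1)
      refine h0.trans ?_
      have : (1 : ℝ) ≤ 5 ^ (J + 1) := one_le_pow₀ (by norm_num)
      nlinarith

lemma HA_of_HG (hZ : Fam Z) {t : ℕ} (ht : 1 ≤ t) {M : ℝ} (hM : 0 ≤ M) (h : HG Z t M) :
    HA Z t (5 ^ (d - 1) * M) := by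
  intro i L hi hj
  refine HG_all hZ ht hM h (d - 1) i L hi hj ?_
  have h1 : (Finset.univ.filter fun j => j ≠ i ∧ L j ≠ t ∧ L j ≠ 2 * t) ⊆
      Finset.univ.erase i := by
    intro j hj
    simp only [Finset.mem_filter, Finset.mem_univ, true_and, Finset.mem_erase] at hj ⊢
    exact ⟨hj.1, trivial⟩
  refine (Finset.card_le_card h1).trans ?_
  rw [Finset.card_erase_of_mem (Finset.mem_univ i), Finset.card_univ, Fintype.card_fin]

lemma HH_of_HA {t : ℕ} {M : ℝ} (h : HA Z t M) : HH Z t M := by
  intro i L hi hj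
  refine h i L hi fun j hji => ?_
  rcases hj j hji with h1 | h1 <;> omega

lemma HG_of_HH (hZ : Fam Z) {t : ℕ} (ht : 1 ≤ t) {s : ℝ} (hs : s ≤ 1 / 16)
    (h : HH Z t s) : HG Z (2 * t) (3 * s ^ 2) := by
  intro i L hi hj
  have hL : ∀ k, 1 ≤ L k := by
    intro k
    rcases eq_or_ne k i with rfl | hk
    · omega
    · have := hj k hk; omega
  have h1 := hZ L hL i
  have h2 : psi (fun n => Z (Function.update L i n)) t ≤ s := by
    have := h i (Function.update L i t) (by rw [Function.update_self]) fun j hji => by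
      rw [Function.update_of_ne hji]
      rcases hj j hji with h3 | h3 <;> omega
    rwa [psD_update] at this
  have h3 := h1.psi_two ht (h2.trans hs)
  have h4 := h1.psi_nonneg ht
  unfold psD
  rw [hi]
  nlinarith

/-- The criterion at the scale `a` implies bounds at all larger scales. -/
theorem scales (hZ : Fam Z) (hd : 2 ≤ d) {a : ℕ} (ha : 1 ≤ a)
    (hD : ∀ (i : Fin d) (L : Fin d → ℕ), L i = a → (∀ j, j ≠ i → L j = 2 * a ∨ L j = 4 * a) →
      dP (fun n => Z (Function.update L i n)) a ≤ 1 / (6 * 5 ^ (d - 1))) (k : ℕ) :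
    HA Z (2 ^ (k + 1) * a) (1 / (3 * 5 ^ (d - 1)) * (1 / 2) ^ 2 ^ (k + 1)) := by
  set K : ℝ := 3 * 5 ^ (d - 1) with hK
  have hK15 : 15 ≤ K := by
    have : (5 : ℝ) ^ 1 ≤ 5 ^ (d - 1) := pow_le_pow_right₀ (by norm_num) (by omega)
    rw [hK]; linarith
  have hK0 : 0 < K := by linarith
  have h0 : HH Z a (1 / K * (1 / 2) ^ 2 ^ 0) := by
    intro i L hi hj
    have hL : ∀ k, 1 ≤ L k := by
      intro k
      rcases eq_or_ne k i with rfl | hk
      · omega
      · have := hj k hk; omega
    have h1 := hD i L hi hj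
    have h2 : (1 : ℝ) / (6 * 5 ^ (d - 1)) = 1 / K * (1 / 2) ^ 2 ^ 0 := by
      rw [hK]; field_simp; norm_num
    rw [h2] at h1
    refine le_trans ?_ h1
    unfold psD
    rw [hi]
    refine (hZ L hL i).psi_le_dP ha (h1.trans ?_)
    rw [pow_zero, pow_one, div_mul_div_comm, one_mul]
    apply one_div_le_one_div_of_le (by norm_num)
    linarith
  have hstep : ∀ k : ℕ, HH Z (2 ^ k * a) (1 / K * (1 / 2) ^ 2 ^ k) →
      HA Z (2 ^ (k + 1) * a) (1 / K * (1 / 2) ^ 2 ^ (k + 1)) := by
    intro k hk
    have h1 : (1 : ℝ) / K * (1 / 2) ^ 2 ^ k ≤ 1 / 16 := by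
      have h2 : ((1 : ℝ) / 2) ^ 2 ^ k ≤ 1 / 2 := by
        have := pow_le_pow_of_le_one (show (0 : ℝ) ≤ 1 / 2 by norm_num) (by norm_num)
          (show 1 ≤ 2 ^ k from Nat.one_le_two_pow)
        simpa using this
      have h3 : 1 / K ≤ 1 / 15 := one_div_le_one_div_of_le (by norm_num) hK15
      have h4 : 0 < 1 / K := by positivity
      nlinarith
    have h2 := HG_of_HH hZ (Nat.one_le_iff_ne_zero.2 (by positivity)) h1 hk
    have h3 := HA_of_HG hZ (Nat.one_le_iff_ne_zero.2 (by positivity)) (by positivity) h2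
    have e1 : 2 * (2 ^ k * a) = 2 ^ (k + 1) * a := by ring
    have e2 : (5 : ℝ) ^ (d - 1) * (3 * (1 / K * (1 / 2) ^ 2 ^ k) ^ 2) =
        1 / K * (1 / 2) ^ 2 ^ (k + 1) := by
      have : (5 : ℝ) ^ (d - 1) = K / 3 := by rw [hK]; ring
      rw [this, mul_pow, ← pow_mul, pow_succ 2 k]
      field_simp
    rwa [e1, e2] at h3
  have hall : ∀ k : ℕ, HH Z (2 ^ k * a) (1 / K * (1 / 2) ^ 2 ^ k) := by
    intro k
    induction k with
    | zero => simpa using h0
    | succ k ih => exact HH_of_HA (hstep k ih)
  exact hstep k (hall k)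

end Pool.Agent.Run7.h897.FS
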