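import Pool.Agent.Run7.h897.FS.Lat
import Pool.Agent.Run7.h897.FS.Two

/-!
# Partition functions of tori and their transfer kernels
-/

set_option linter.unusedSectionVars false
set_option linter.unusedVariables false
set_option linter.style.haveILetI false

open MeasureTheory Filter Topology

namespace Pool.Agent.Run7.h897.FS

lemma BM.exp {X : Type*} [MeasurableSpace X] {f : X → ℝ} (hf : BM f) :
    BM fun x => Real.exp (f x) := by
  obtain ⟨h1, C, hC⟩ := hf
  refine ⟨h1.exp, Real.exp C, fun x => ?_⟩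
  rw [abs_of_pos (Real.exp_pos _)]
  exact Real.exp_le_exp.2 ((le_abs_self _).trans (hC x))

lemma BM.int_pos {X : Type*} [MeasurableSpace X] {μ : Measure X} [IsProbabilityMeasure μ]
    {f : X → ℝ} (hf : BM f) (h : ∀ x, 0 < f x) : 0 < ∫ x, f x ∂μ := by
  rw [integral_pos_iff_support_of_nonneg (fun x => (h x).le) hf.int]
  have : Function.support f = Set.univ := by
    ext x
    simp [(h x).ne']
  rw [this]
  simp

section kernel

variable {D : ℕ} {G : Type*} [Group G] [MeasurableSpace G] [MeasurableMul₂ G] [MeasurableInv G]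
  {μ : Measure G} [IsProbabilityMeasure μ] {w : G → ℝ}

lemma plq_meas {d : ℕ} {L : Fin d → ℕ} (x : Site L) (i j : Fin d) :
    Measurable fun U : Lk L → G => plq U x i j := by
  have h : ∀ e : Lk L, Measurable fun U : Lk L → G => U e := fun e => measurable_pi_apply e
  unfold plq
  exact (((h _).mul (h _)).mul (h _).inv).mul (h _).inv

lemma act_bm {d : ℕ} {L : Fin d → ℕ} [∀ i, NeZero (L i)] (hw : BM w) (b : Fin d → Fin d → ℝ) :
    BM fun U : Lk L → G => act w b U := by
  unfold act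
  refine BM.sum _ fun x _ => BM.sum _ fun i _ => BM.sum _ fun j _ => ?_
  split_ifs
  · exact (BM.const _).mul (hw.comp (plq_meas x i j))
  · exact BM.const 0

lemma tact_bm {C : Fin D → ℕ} [∀ i, NeZero (C i)] (hw : BM w) (b : Fin D → ℝ) :
    BM fun z : ((Lk C → G) × (Lk C → G)) × (Site C → G) => tact w b z.1.1 z.2 z.1.2 := by
  unfold tact
  refine BM.sum _ fun y _ => BM.sum _ fun k _ => (BM.const _).mul (hw.comp ?_)
  have m1 : Measurable fun z : ((Lk C → G) × (Lk C → G)) × (Site C → G) => z.2 y :=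
    (measurable_pi_apply _).comp measurable_snd
  have m2 : Measurable fun z : ((Lk C → G) × (Lk C → G)) × (Site C → G) =>
      z.2 (y + Pi.single k 1) := (measurable_pi_apply _).comp measurable_snd
  have m3 : Measurable fun z : ((Lk C → G) × (Lk C → G)) × (Site C → G) => z.1.2 (y, k) :=
    (measurable_pi_apply _).comp measurable_fst.snd
  have m4 : Measurable fun z : ((Lk C → G) × (Lk C → G)) × (Site C → G) => z.1.1 (y, k) :=
    (measurable_pi_apply _).comp measurable_fst.fst
  exact ((m1.mul m3).mul m2.inv).mul m4.inv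

/-- the weight of a layer -/
noncomputable def kw {C : Fin D → ℕ} [∀ i, NeZero (C i)] (w : G → ℝ)
    (b : Fin (D + 1) → Fin (D + 1) → ℝ) (i : Fin (D + 1)) (x : Lk C → G) (g : Site C → G)
    (x' : Lk C → G) : ℝ :=
  Real.exp (-(act w (bs b i) x / 2 + tact w (bt b i) x g x' + act w (bs b i) x' / 2))

variable {C : Fin D → ℕ} [∀ i, NeZero (C i)]

lemma kw_bm (hw : BM w) (b : Fin (D + 1) → Fin (D + 1) → ℝ) (i : Fin (D + 1)) :
    BK (G := G) (kw (C := C) w b i) := by
  have h0 := act_bm (L := C) hw (bs b i)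
  have h1 : BM fun z : ((Lk C → G) × (Lk C → G)) × (Site C → G) => act w (bs b i) z.1.1 :=
    h0.comp measurable_fst.fst
  have h2 : BM fun z : ((Lk C → G) × (Lk C → G)) × (Site C → G) => act w (bs b i) z.1.2 :=
    h0.comp measurable_fst.snd
  have h3 := ((h1.mul (BM.const (1 / 2))).add (tact_bm hw (bt b i))).add
    (h2.mul (BM.const (1 / 2)))
  have h4 := h3.neg.exp
  unfold BK kw
  convert h4 using 1
  funext z
  congr 1
  ring

/-- the transfer kernel -/
noncomputable def tk (μ : Measure G) (C : Fin D → ℕ) [∀ i, NeZero (C i)] (w : G → ℝ)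
    (b : Fin (D + 1) → Fin (D + 1) → ℝ) (i : Fin (D + 1)) : (Lk C → G) → (Lk C → G) → ℝ :=
  kk μ (kw (C := C) w b i)

lemma tk_bm (hw : BM w) (b : Fin (D + 1) → Fin (D + 1) → ℝ) (i : Fin (D + 1)) :
    BM (Function.uncurry (tk μ C w b i)) := kk_bm (kw_bm hw b i)

lemma tk_pos (hw : BM w) (b : Fin (D + 1) → Fin (D + 1) → ℝ) (i : Fin (D + 1))
    (x x' : Lk C → G) : 0 < tk μ C w b i x x' := by
  unfold tk kk
  refine BM.int_pos ?_ fun g => Real.exp_pos _
  exact BM.comp (kw_bm (C := C) hw b i) (φ := fun g : Site C → G => ((x, x'), g))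
    (measurable_const.prodMk measurable_id)

lemma tk_symm [μ.IsInvInvariant] (hb : BM w) (hw : Wt w) (b : Fin (D + 1) → Fin (D + 1) → ℝ)
    (i : Fin (D + 1)) (x x' : Lk C → G) : tk μ C w b i x x' = tk μ C w b i x' x := by
  unfold tk kk
  have h1 : MeasurePreserving (fun g : Site C → G => fun y => (g y)⁻¹) (PM μ (Site C))
      (PM μ (Site C)) :=
    measurePreserving_pi (fun _ : Site C => μ) (fun _ : Site C => μ)
      (f := fun _ g => g⁻¹) fun _ => Measure.measurePreserving_inv μ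
  have h2 : BM fun g : Site C → G => kw w b i x' g x :=
    BM.comp (kw_bm (C := C) hb b i) (φ := fun g : Site C → G => ((x', x), g))
      (measurable_const.prodMk measurable_id)
  conv_rhs => rw [← h1.map_eq]
  rw [integral_map h1.measurable.aemeasurable h2.1.aestronglyMeasurable]
  congr 1
  funext g
  unfold kw
  rw [tact_swap hw]
  congr 1
  ring

end kernel

section torus

variable {D : ℕ} {G : Type*} [Group G] [MeasurableSpace G] [MeasurableMul₂ G] [MeasurableInv G]
  {μ : Measure G} [IsProbabilityMeasure μ] {w : G → ℝ}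

/-- the partition function -/
noncomputable def Zf {d : ℕ} (μ : Measure G) (w : G → ℝ) (b : Fin d → Fin d → ℝ)
    (L : Fin d → ℕ) [∀ i, NeZero (L i)] : ℝ :=
  ∫ U : Lk L → G, Real.exp (-act w b U) ∂(PM μ (Lk L))

variable {L : Fin (D + 1) → ℕ} [∀ i, NeZero (L i)]

lemma prod_kw (hw : Wt w) (b : Fin (D + 1) → Fin (D + 1) → ℝ) (i : Fin (D + 1)) (U : Lk L → G) :
    ∏ t, kw w b i (xs (sg L i) U t) (gs (sg L i) U t) (xs (sg L i) U (t + 1)) =
      Real.exp (-act w b U) := by
  unfold kw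
  rw [← Real.exp_sum, act_slices hw b i, ← Finset.sum_neg_distrib]
  congr 1
  have h1 : ∑ t : ZMod (L i), act w (bs b i) (xs (sg L i) U (t + 1)) =
      ∑ t : ZMod (L i), act w (bs b i) (xs (sg L i) U t) :=
    Equiv.sum_comp (Equiv.addRight (1 : ZMod (L i))) fun t => act w (bs b i) (xs (sg L i) U t)
  have h2 : ∀ f g h : ZMod (L i) → ℝ, ∑ t, -(f t / 2 + g t + h t / 2) =
      -(∑ t, f t) / 2 - ∑ t, g t - (∑ t, h t) / 2 := by
    intro f g h
    simp only [neg_add, Finset.sum_add_distrib, Finset.sum_neg_distrib, ← Finset.sum_div]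
    ring
  rw [h2, h1]
  simp only [neg_add, Finset.sum_add_distrib, Finset.sum_neg_distrib]
  ring

lemma Zf_eq (hb : BM w) (hw : Wt w) (b : Fin (D + 1) → Fin (D + 1) → ℝ) (i : Fin (D + 1)) :
    Zf μ w b L = A1 (PM μ (Lk (cs L i))) (kp (PM μ (Lk (cs L i))) (tk μ (cs L i) w b i)) (L i)
      (fun _ => 1) := by
  unfold Zf
  simp only [← prod_kw hw b i]
  exact int_ring_zero (μ := μ) (sg L i) (kw_bm hb b i)

lemma Zf_EE [μ.IsInvInvariant] (hb : BM w) (hw : Wt w) (b : Fin (D + 1) → Fin (D + 1) → ℝ)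
    (i : Fin (D + 1)) {C : Fin D → ℕ} [∀ i, NeZero (C i)] (hC : cs L i = C) {n : ℕ} (hn : 1 ≤ n)
    (hL : L i = n + n) : Zf μ w b L = EE (PM μ (Lk C)) (kp (PM μ (Lk C)) (tk μ C w b i)) n := by
  subst hC
  rw [Zf_eq hb hw b i, hL, (kp_KS (tk_bm hb b i) (tk_symm hb hw b i)).EE_diag hn]
  unfold A1
  simp

/-- the partition function as a function of the half sides -/
noncomputable def ZH {d : ℕ} (μ : Measure G) (w : G → ℝ) (b : Fin d → Fin d → ℝ)
    (n : Fin d → ℕ) : ℝ :=
  if h : ∀ i, n i ≠ 0 then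
    haveI : ∀ i, NeZero (2 * n i) := fun i => ⟨by have := h i; omega⟩
    Zf μ w b fun i => 2 * n i
  else 0

lemma ZH_eq {d : ℕ} (b : Fin d → Fin d → ℝ) {n : Fin d → ℕ} (h : ∀ i, 1 ≤ n i)
    [inst : ∀ i, NeZero (2 * n i)] : ZH μ w b n = Zf μ w b fun i => 2 * n i := by
  unfold ZH
  rw [dif_pos fun i => by have := h i; omega]

lemma ZH_EE [μ.IsInvInvariant] (hb : BM w) (hw : Wt w) (b : Fin (D + 1) → Fin (D + 1) → ℝ)
    (i : Fin (D + 1)) {m : Fin (D + 1) → ℕ} (hm : ∀ j, 1 ≤ m j) {C : Fin D → ℕ}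
    [∀ i, NeZero (C i)] (hC : ∀ j, C j = 2 * m (i.succAbove j)) {n : ℕ} (hn : 1 ≤ n) :
    ZH μ w b (Function.update m i n) =
      EE (PM μ (Lk C)) (kp (PM μ (Lk C)) (tk μ C w b i)) n := by
  have h1 : ∀ j, 1 ≤ Function.update m i n j := by
    intro j
    rcases eq_or_ne j i with rfl | h
    · rwa [Function.update_self]
    · rw [Function.update_of_ne h]; exact hm j
  haveI : ∀ j, NeZero (2 * Function.update m i n j) := fun j => ⟨by have := h1 j; omega⟩
  rw [ZH_eq b h1]
  refine Zf_EE hb hw b i ?_ hn ?_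
  · funext j
    simp only [cs]
    rw [Function.update_of_ne (Fin.succAbove_ne i j), hC]
  · simp only [Function.update_self]
    ring

lemma TS.congr {E E' : ℕ → ℝ} (h : TS E) (he : ∀ n, 1 ≤ n → E' n = E n) : TS E' where
  pos n hn := by rw [he n hn]; exact h.pos n hn
  lc n hn := by
    rw [he n hn, he (n + 1) (by omega), he (n + 2) (by omega)]; exact h.lc n hn
  sub n m hn hm := by
    rw [he n hn, he m hm, he (n + m) (by omega)]; exact h.sub n m hn hm
  pur n hn := by
    rw [he n hn, he (2 * n) (by omega), he (4 * n) (by omega)]; exact h.pur n hn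

/-- the partition functions satisfy the axioms -/
theorem fam [μ.IsInvInvariant] (hb : BM w) (hw : Wt w) (b : Fin (D + 1) → Fin (D + 1) → ℝ) :
    Fam (ZH μ w b) := by
  intro m hm i
  haveI : ∀ j, NeZero ((fun j => 2 * m (i.succAbove j)) j) :=
    fun j => ⟨by have := hm (i.succAbove j); simp only; omega⟩
  set C : Fin D → ℕ := fun j => 2 * m (i.succAbove j) with hC
  have hK := kp_KS (μ := PM μ (Lk C)) (tk_bm (μ := μ) (C := C) hb b i) (tk_symm hb hw b i)
  refine (hK.ts fun n hn => kp_EE_pos (tk_bm hb b i) (tk_pos hb b i) hn).congr fun n hn => ?_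
  exact ZH_EE hb hw b i hm (fun j => rfl) hn

end torus

/-! ### normalised covariance estimate -/

section cov

variable {X : Type*} [MeasurableSpace X] {μ : Measure X} [IsProbabilityMeasure μ]
  {k : ℕ → X → X → ℝ}

theorem KS.cov_norm (h : KS μ k) {E : ℕ → ℝ} (hE : TS E) (hEE : ∀ n, 1 ≤ n → EE μ k n = E n)
    {s0 τ p q n : ℕ} (hs0 : 1 ≤ s0) (hτ : 1 ≤ τ) (hp : s0 ≤ p) (hq : s0 ≤ q)
    (hn : τ + (p + q) = n + n) {x : ℝ} (hx : psi E s0 ≤ x) {F F' : X → ℝ}
    (hF : BM F) (hF' : BM F') {C C' : ℝ} (hC : ∀ x, |F x| ≤ C)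
    (hC' : ∀ x, |F' x| ≤ C') (hC0 : 0 ≤ C) (hC0' : 0 ≤ C') :
    |A2 μ k τ (p + q) F F' * A1 μ k (τ + (p + q)) (fun _ => 1) -
        A1 μ k (τ + (p + q)) F * A1 μ k (τ + (p + q)) F'| ≤
      2 * C * C' * (Real.exp (2 * x) * (((x * Real.exp (2 * x)) ^ (1 / (2 * s0 : ℝ))) ^ τ +
        x * Real.exp (x * τ / s0))) * A1 μ k (τ + (p + q)) (fun _ => 1) ^ 2 := by
  have hx0 : 0 ≤ x := (hE.psi_nonneg hs0).trans hx
  have hε : (-1 : ℝ) * (-1) = 1 := by norm_num
  have hε' : (1 : ℝ) * 1 = 1 := by norm_num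
  set l := ell E with hl
  have hEexp : ∀ m, 1 ≤ m → E m = Real.exp (m * l + psi E m) := by
    intro m hm
    unfold psi
    rw [← hl, add_sub_cancel, Real.exp_log (hE.pos m hm)]
  have hn1 : 1 ≤ n := by omega
  have hA1 : A1 μ k (τ + (p + q)) (fun _ => 1) = E n := by
    rw [hn, ← hEE n hn1, h.EE_diag hn1]
    unfold A1
    simp
  -- one and two copies
  have hpsi : ∀ m, s0 ≤ m → psi E m ≤ x := fun m hm => (hE.psi_anti hs0 hm).trans hx
  have hplus : ∀ m, s0 ≤ m → EE (μ.prod μ) (KD 1 k) m ≤ Real.exp (m * l + x) ^ 2 := by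
    intro m hm
    have hm1 : 1 ≤ m := by omega
    rw [h.EE_KD hε' hm1, hEE m hm1, hEE (2 * m) (by omega)]
    have h1 : E (2 * m) ≤ E m ^ 2 := by
      have := hE.sub m m hm1 hm1
      rw [two_mul, sq]; exact this
    have h2 : E m ≤ Real.exp (m * l + x) := by
      rw [hEexp m hm1]
      exact Real.exp_le_exp.2 (by linarith [hpsi m hm])
    have h3 : E m ^ 2 ≤ Real.exp (m * l + x) ^ 2 := pow_le_pow_left₀ (hE.pos m hm1).le h2 2
    linarith
  have hminus : ∀ m, s0 ≤ m → EE (μ.prod μ) (KD (-1) k) m ≤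
      Real.exp (m * l + x) ^ 2 * x := by
    intro m hm
    have hm1 : 1 ≤ m := by omega
    rw [h.EE_KD hε hm1, hEE m hm1, hEE (2 * m) (by omega)]
    have h1 := hE.dP_le hm1
    have h2 : E m ≤ Real.exp (m * l + x) := by
      rw [hEexp m hm1]
      exact Real.exp_le_exp.2 (by linarith [hpsi m hm])
    have h3 : E m ^ 2 ≤ Real.exp (m * l + x) ^ 2 := pow_le_pow_left₀ (hE.pos m hm1).le h2 2
    have h4 : E (2 * m) = E m ^ 2 * (1 - dP E m) := by
      have := hE.pos m hm1
      unfold dP; field_simp; ring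
    have h5 := hE.dP_nonneg hm1
    have h6 := hpsi m hm
    rw [h4]
    have h7 : E m ^ 2 * dP E m ≤ Real.exp (m * l + x) ^ 2 * (2 * x) :=
      mul_le_mul h3 (by linarith) h5 (by positivity)
    nlinarith
  have hs0' : (0 : ℝ) < s0 := by positivity
  have r1 : rho (μ.prod μ) (KD (-1) k) s0 ≤
      Real.exp l * (x * Real.exp (2 * x)) ^ (1 / (2 * s0 : ℝ)) := by
    unfold rho
    have h1 := Real.rpow_le_rpow (EE_nonneg _) (hminus s0 le_rfl)
      (show (0 : ℝ) ≤ 1 / (2 * s0 : ℝ) by positivity)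
    refine h1.trans (le_of_eq ?_)
    have e1 : Real.exp (s0 * l + x) ^ 2 * x =
        Real.exp (2 * s0 * l) * (x * Real.exp (2 * x)) := by
      have : Real.exp (s0 * l + x) ^ 2 = Real.exp (2 * s0 * l) * Real.exp (2 * x) := by
        rw [← Real.exp_nat_mul, ← Real.exp_add]
        congr 1
        push_cast
        ring
      rw [this]; ring
    rw [e1, Real.mul_rpow (Real.exp_pos _).le (by positivity), ← Real.exp_mul]
    congr 2
    field_simp
  have r2 : rho (μ.prod μ) (KD 1 k) s0 ≤ Real.exp (l + x / s0) := by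
    unfold rho
    have h1 := Real.rpow_le_rpow (EE_nonneg _) (hplus s0 le_rfl)
      (show (0 : ℝ) ≤ 1 / (2 * s0 : ℝ) by positivity)
    refine h1.trans (le_of_eq ?_)
    rw [← Real.exp_nat_mul, ← Real.exp_mul]
    congr 1
    push_cast
    field_simp
  have q1 : ∀ m, s0 ≤ m → √(EE (μ.prod μ) (KD 1 k) m) ≤ Real.exp (m * l + x) := by
    intro m hm
    rw [Real.sqrt_le_left (Real.exp_pos _).le]
    exact hplus m hm
  have q2 : ∀ m, s0 ≤ m → √(EE (μ.prod μ) (KD (-1) k) m) ≤ Real.exp (m * l + x) * √x := by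
    intro m hm
    rw [Real.sqrt_le_left (by positivity), mul_pow, Real.sq_sqrt hx0]
    exact hminus m hm
  refine (h.cov hs0 hτ (by omega) (by omega) hF hF' hC hC' hC0 hC0').trans ?_
  rw [hA1]
  have hEn : Real.exp (n * l) ≤ E n := by
    rw [hEexp n hn1]
    exact Real.exp_le_exp.2 (by linarith [hE.psi_nonneg hn1])
  have hEn2 : Real.exp (n * l) ^ 2 ≤ E n ^ 2 := pow_le_pow_left₀ (Real.exp_pos _).le hEn 2
  set y := (x * Real.exp (2 * x)) ^ (1 / (2 * s0 : ℝ)) with hy
  have hy0 : 0 ≤ y := Real.rpow_nonneg (by positivity) _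
  have t1 : rho (μ.prod μ) (KD (-1) k) s0 ^ τ *
      (√(EE (μ.prod μ) (KD 1 k) q) * √(EE (μ.prod μ) (KD 1 k) p)) ≤
      Real.exp (2 * x) * y ^ τ * Real.exp (n * l) ^ 2 := by
    calc rho (μ.prod μ) (KD (-1) k) s0 ^ τ *
          (√(EE (μ.prod μ) (KD 1 k) q) * √(EE (μ.prod μ) (KD 1 k) p))
        ≤ (Real.exp l * y) ^ τ * (Real.exp (q * l + x) * Real.exp (p * l + x)) := by
          have a1 := pow_le_pow_left₀ (rho_nonneg _) r1 τ
          have a2 := mul_le_mul (q1 q hq) (q1 p hp) (Real.sqrt_nonneg _) (Real.exp_pos _).le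
          exact mul_le_mul a1 a2 (by positivity) (by positivity)
      _ = Real.exp (2 * x) * y ^ τ * Real.exp (n * l) ^ 2 := by
          rw [mul_pow, ← Real.exp_nat_mul, ← Real.exp_add, ← Real.exp_nat_mul]
          have : Real.exp (τ * l) * y ^ τ * Real.exp (q * l + x + (p * l + x)) =
              y ^ τ * (Real.exp (τ * l) * Real.exp (q * l + x + (p * l + x))) := by ring
          rw [this, ← Real.exp_add]
          have e2 : Real.exp (2 * x) * y ^ τ * Real.exp ((2 : ℕ) * (n * l)) =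
              y ^ τ * (Real.exp (2 * x) * Real.exp ((2 : ℕ) * (n * l))) := by ring
          rw [e2, ← Real.exp_add]
          congr 2
          have : (τ : ℝ) + (p + q) = n + n := by exact_mod_cast hn
          push_cast
          linear_combination l * this
  have t2 : rho (μ.prod μ) (KD 1 k) s0 ^ τ *
      (√(EE (μ.prod μ) (KD (-1) k) q) * √(EE (μ.prod μ) (KD (-1) k) p)) ≤
      Real.exp (2 * x) * (x * Real.exp (x * τ / s0)) * Real.exp (n * l) ^ 2 := by
    calc rho (μ.prod μ) (KD 1 k) s0 ^ τ *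
          (√(EE (μ.prod μ) (KD (-1) k) q) * √(EE (μ.prod μ) (KD (-1) k) p))
        ≤ Real.exp (l + x / s0) ^ τ *
            ((Real.exp (q * l + x) * √x) * (Real.exp (p * l + x) * √x)) := by
          have a1 := pow_le_pow_left₀ (rho_nonneg _) r2 τ
          have a2 := mul_le_mul (q2 q hq) (q2 p hp) (Real.sqrt_nonneg _) (by positivity)
          exact mul_le_mul a1 a2 (by positivity) (by positivity)
      _ = Real.exp (2 * x) * (x * Real.exp (x * τ / s0)) * Real.exp (n * l) ^ 2 := by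
          have e1 : (Real.exp (q * l + x) * √x) * (Real.exp (p * l + x) * √x) =
              x * Real.exp (q * l + x + (p * l + x)) := by
            rw [Real.exp_add (q * l + x) (p * l + x)]
            have := Real.mul_self_sqrt hx0
            linear_combination Real.exp (q * l + x) * Real.exp (p * l + x) * this
          rw [e1, ← Real.exp_nat_mul, ← Real.exp_nat_mul]
          have e2 : Real.exp (τ * (l + x / s0)) * (x * Real.exp (q * l + x + (p * l + x))) =
              x * (Real.exp (τ * (l + x / s0)) * Real.exp (q * l + x + (p * l + x))) := by ring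
          have e3 : Real.exp (2 * x) * (x * Real.exp (x * τ / s0)) *
              Real.exp ((2 : ℕ) * (n * l)) =
              x * (Real.exp (2 * x) * Real.exp (x * τ / s0) * Real.exp ((2 : ℕ) * (n * l))) := by
            ring
          rw [e2, e3, ← Real.exp_add, ← Real.exp_add, ← Real.exp_add]
          congr 2
          have : (τ : ℝ) + (p + q) = n + n := by exact_mod_cast hn
          push_cast
          linear_combination l * this
  have t3 := add_le_add t1 t2
  have hCC : 0 ≤ 2 * C * C' := by positivity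
  calc 2 * C * C' * (rho (μ.prod μ) (KD (-1) k) s0 ^ τ *
          (√(EE (μ.prod μ) (KD 1 k) q) * √(EE (μ.prod μ) (KD 1 k) p)) +
        rho (μ.prod μ) (KD 1 k) s0 ^ τ *
          (√(EE (μ.prod μ) (KD (-1) k) q) * √(EE (μ.prod μ) (KD (-1) k) p)))
      ≤ 2 * C * C' * (Real.exp (2 * x) * y ^ τ * Real.exp (n * l) ^ 2 +
          Real.exp (2 * x) * (x * Real.exp (x * τ / s0)) * Real.exp (n * l) ^ 2) :=
        mul_le_mul_of_nonneg_left t3 hCC
    _ = 2 * C * C' * (Real.exp (2 * x) * (y ^ τ + x * Real.exp (x * τ / s0))) *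
          Real.exp (n * l) ^ 2 := by ring
    _ ≤ _ := by
        apply mul_le_mul_of_nonneg_left hEn2
        positivity

end cov

end Pool.Agent.Run7.h897.FS
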