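import Pool.Agent.Run7.h897.FS.Num
import Pool.Agent.Run7.h897.FS.Bm

/-!
# Semigroups of symmetric kernels
-/

set_option linter.unusedSectionVars false
set_option linter.unusedVariables false

open MeasureTheory Filter Topology

namespace Pool.Agent.Run7.h897.FS

variable {X : Type*} [MeasurableSpace X]

/-- The kernels `k n`, `n ≥ 1`, of the powers of a symmetric operator. -/
structure KS (μ : Measure X) (k : ℕ → X → X → ℝ) : Prop where
  bm : ∀ n, 1 ≤ n → BM (Function.uncurry (k n))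
  symm : ∀ n, 1 ≤ n → ∀ x y, k n x y = k n y x
  semi : ∀ m n, 1 ≤ m → 1 ≤ n → ∀ x y, k (m + n) x y = ∫ u, k m x u * k n u y ∂μ

/-- the squared Hilbert-Schmidt norms -/
noncomputable def EE (μ : Measure X) (k : ℕ → X → X → ℝ) (n : ℕ) : ℝ :=
  ∫ x, ∫ y, k n x y ^ 2 ∂μ ∂μ

variable {μ : Measure X} [IsProbabilityMeasure μ] {k : ℕ → X → X → ℝ}

lemma KS.bl (h : KS μ k) {n : ℕ} (hn : 1 ≤ n) (x : X) : BM fun y => k n x y :=
  (h.bm n hn).comp (measurable_const.prodMk measurable_id)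

lemma KS.br (h : KS μ k) {n : ℕ} (hn : 1 ≤ n) (y : X) : BM fun x => k n x y :=
  (h.bm n hn).comp (measurable_id.prodMk measurable_const)

lemma KS.diag (h : KS μ k) {n : ℕ} (hn : 1 ≤ n) (x : X) :
    k (n + n) x x = ∫ y, k n x y ^ 2 ∂μ := by
  rw [h.semi n n hn hn]
  congr 1
  funext y
  rw [h.symm n hn y x, sq]

lemma KS.EE_diag (h : KS μ k) {n : ℕ} (hn : 1 ≤ n) : EE μ k n = ∫ x, k (n + n) x x ∂μ := by
  unfold EE
  congr 1
  funext x
  rw [h.diag hn]

lemma EE_nonneg (n : ℕ) : 0 ≤ EE μ k n :=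
  integral_nonneg fun x => integral_nonneg fun y => sq_nonneg _

lemma KS.EE_prod (h : KS μ k) {n : ℕ} (hn : 1 ≤ n) :
    EE μ k n = ∫ z, (Function.uncurry (k n) z) ^ 2 ∂(μ.prod μ) := by
  rw [fub ((h.bm n hn).pow 2)]
  rfl

lemma KS.bsq (h : KS μ k) {n : ℕ} (hn : 1 ≤ n) : BM fun x => ∫ y, k n x y ^ 2 ∂μ :=
  ((h.bm n hn).pow 2).intg

/-- log-convexity -/
lemma KS.lc (h : KS μ k) {n : ℕ} (hn : 1 ≤ n) :
    EE μ k (n + 1) ^ 2 ≤ EE μ k n * EE μ k (n + 2) := by
  have h1 : EE μ k (n + 1) = ∫ z, Function.uncurry (k n) z * Function.uncurry (k (n + 2)) z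
      ∂(μ.prod μ) := by
    rw [h.EE_diag (by omega), fub ((h.bm n hn).mul (h.bm (n + 2) (by omega)))]
    congr 1
    funext x
    rw [show n + 1 + (n + 1) = n + (n + 2) by ring, h.semi n (n + 2) hn (by omega)]
    congr 1
    funext y
    simp only [Function.uncurry]
    rw [h.symm (n + 2) (by omega) y x]
  rw [h1, h.EE_prod hn, h.EE_prod (by omega)]
  exact schwarz (h.bm n hn) (h.bm (n + 2) (by omega))

/-- submultiplicativity -/
lemma KS.sub (h : KS μ k) {n m : ℕ} (hn : 1 ≤ n) (hm : 1 ≤ m) :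
    EE μ k (n + m) ≤ EE μ k n * EE μ k m := by
  have h1 : ∀ x y, k (n + m) x y ^ 2 ≤ (∫ u, k n x u ^ 2 ∂μ) * ∫ u, k m y u ^ 2 ∂μ := by
    intro x y
    rw [h.semi n m hn hm]
    have := schwarz (μ := μ) (h.bl hn x) (h.br hm y)
    refine this.trans (le_of_eq ?_)
    congr 2
    funext u
    rw [h.symm m hm u y]
  unfold EE
  calc ∫ x, ∫ y, k (n + m) x y ^ 2 ∂μ ∂μ
      ≤ ∫ x, ∫ y, (∫ u, k n x u ^ 2 ∂μ) * ∫ u, k m y u ^ 2 ∂μ ∂μ ∂μ := by
        refine integral_mono ((h.bm (n + m) (by omega)).pow 2).intg.int ?_ fun x => ?_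
        · have : BM fun x => (∫ u, k n x u ^ 2 ∂μ) * ∫ y, ∫ u, k m y u ^ 2 ∂μ ∂μ :=
            (h.bsq hn).mul (BM.const _)
          simpa only [integral_const_mul] using this.int
        · exact integral_mono ((h.bl (n := n + m) (by omega) x).pow 2).int
            (((BM.const _).mul (h.bsq hm)).int) fun y => h1 x y
    _ = (∫ x, ∫ y, k n x y ^ 2 ∂μ ∂μ) * ∫ x, ∫ y, k m x y ^ 2 ∂μ ∂μ := by
        simp only [integral_const_mul, integral_mul_const]

lemma KS.pow_two (h : KS μ k) {n : ℕ} (hn : 1 ≤ n) (j : ℕ) :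
    EE μ k (2 ^ j * n) ≤ EE μ k n ^ 2 ^ j := by
  induction j with
  | zero => simp
  | succ j ih =>
    have h1 : 1 ≤ 2 ^ j * n := Nat.one_le_iff_ne_zero.2 (by positivity)
    have h2 := h.sub h1 h1
    rw [show 2 ^ (j + 1) * n = 2 ^ j * n + 2 ^ j * n by ring]
    refine h2.trans ?_
    rw [pow_succ 2 j, mul_two, pow_add]
    exact mul_le_mul ih ih (EE_nonneg _) (pow_nonneg (EE_nonneg _) _)

/-! ### the operators -/

/-- the operator of the kernel `k n` -/
noncomputable def ap (μ : Measure X) (k : ℕ → X → X → ℝ) (n : ℕ) (w : X → ℝ) : X → ℝ :=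
  fun x => ∫ y, k n x y * w y ∂μ

lemma KS.ap_bm (h : KS μ k) {n : ℕ} (hn : 1 ≤ n) {w : X → ℝ} (hw : BM w) : BM (ap μ k n w) := by
  have := ((h.bm n hn).mul (hw.comp measurable_snd)).intg (ν := μ)
  exact this

lemma KS.ap_ap (h : KS μ k) {m n : ℕ} (hm : 1 ≤ m) (hn : 1 ≤ n) {w : X → ℝ} (hw : BM w) :
    ap μ k (m + n) w = ap μ k m (ap μ k n w) := by
  funext x
  unfold ap
  have e : ∀ y, k (m + n) x y * w y = ∫ u, k m x u * (k n u y * w y) ∂μ := by
    intro y
    rw [h.semi m n hm hn, ← integral_mul_const]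
    congr 1
    funext u
    ring
  simp only [e]
  rw [swp]
  · simp only [integral_const_mul]
  · exact ((h.bl hm x).comp measurable_snd).mul
      (((h.bm n hn).comp (measurable_snd.prodMk measurable_fst)).mul (hw.comp measurable_fst))

lemma KS.ap_symm (h : KS μ k) {n : ℕ} (hn : 1 ≤ n) {w v : X → ℝ} (hw : BM w) (hv : BM v) :
    ∫ x, w x * ap μ k n v x ∂μ = ∫ x, ap μ k n w x * v x ∂μ := by
  unfold ap
  have e1 : ∀ x, w x * ∫ y, k n x y * v y ∂μ = ∫ y, w x * (k n x y * v y) ∂μ :=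
    fun x => (integral_const_mul _ _).symm
  have e2 : ∀ x, (∫ y, k n x y * w y ∂μ) * v x = ∫ y, k n x y * w y * v x ∂μ :=
    fun x => (integral_mul_const _ _).symm
  simp only [e1, e2]
  rw [swp]
  · congr 1
    funext x
    congr 1
    funext y
    rw [h.symm n hn y x]
    ring
  · exact (hw.comp measurable_fst).mul ((h.bm n hn).mul (hv.comp measurable_snd))

lemma KS.ap_norm (h : KS μ k) {n : ℕ} (hn : 1 ≤ n) {w : X → ℝ} (hw : BM w) :
    ∫ x, ap μ k n w x ^ 2 ∂μ ≤ (∫ x, w x ^ 2 ∂μ) * EE μ k n := by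
  unfold EE
  rw [← integral_const_mul]
  refine integral_mono ((h.ap_bm hn hw).pow 2).int (((BM.const _).mul (h.bsq hn)).int)
    fun x => ?_
  have := schwarz (μ := μ) (h.bl hn x) hw
  rw [mul_comm] at this
  exact this

/-- powers of the operator -/
lemma KS.iter_bm (h : KS μ k) (s : ℕ) {w : X → ℝ} (hw : BM w) : BM ((ap μ k 1)^[s] w) := by
  induction s with
  | zero => exact hw
  | succ s ih =>
    rw [Function.iterate_succ_apply']
    exact h.ap_bm le_rfl ih

lemma KS.iter_eq (h : KS μ k) {s : ℕ} (hs : 1 ≤ s) {w : X → ℝ} (hw : BM w) :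
    (ap μ k 1)^[s] w = ap μ k s w := by
  induction s, hs using Nat.le_induction with
  | base => rfl
  | succ s hs ih =>
    rw [Function.iterate_succ_apply', ih, add_comm, h.ap_ap le_rfl hs hw]

/-- the norm of the powers is controlled by one Hilbert-Schmidt norm -/
lemma KS.ap_rho (h : KS μ k) {s0 : ℕ} (hs0 : 1 ≤ s0) (s : ℕ) {w : X → ℝ} (hw : BM w) :
    (∫ x, (ap μ k 1)^[s] w x ^ 2 ∂μ) ^ s0 ≤ (∫ x, w x ^ 2 ∂μ) ^ s0 * EE μ k s0 ^ s := by
  set g : ℕ → ℝ := fun s => ∫ x, (ap μ k 1)^[s] w x ^ 2 ∂μ with hg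
  have g0 : ∀ n, 0 ≤ g n := fun n => integral_nonneg fun x => sq_nonneg _
  have glc : ∀ n, g (n + 1) ^ 2 ≤ g n * g (n + 2) := by
    intro n
    have e : g (n + 1) = ∫ x, (ap μ k 1)^[n] w x * (ap μ k 1)^[n + 2] w x ∂μ := by
      have h1 := h.ap_symm le_rfl (h.iter_bm n hw) (h.iter_bm (n + 1) hw)
      have h2 : ap μ k 1 ((ap μ k 1)^[n + 1] w) = (ap μ k 1)^[n + 2] w := by
        rw [← Function.iterate_succ_apply' (ap μ k 1)]
      have h3 : ap μ k 1 ((ap μ k 1)^[n] w) = (ap μ k 1)^[n + 1] w := by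
        rw [← Function.iterate_succ_apply' (ap μ k 1)]
      rw [h2, h3] at h1
      rw [h1]
      refine integral_congr_ae (Eventually.of_forall fun x => ?_)
      simp only
      ring
    rw [e]
    exact schwarz (h.iter_bm n hw) (h.iter_bm (n + 2) hw)
  -- choose a large power
  obtain ⟨j, hj⟩ : ∃ j : ℕ, s ≤ 2 ^ j * s0 := by
    refine ⟨s, ?_⟩
    have := Nat.lt_two_pow_self (n := s)
    nlinarith
  have hS : 1 ≤ 2 ^ j * s0 := Nat.one_le_iff_ne_zero.2 (by positivity)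
  have h1 := interp g0 glc (2 ^ j * s0) s hj
  have h2 : g (2 ^ j * s0) ≤ g 0 * EE μ k s0 ^ 2 ^ j := by
    have h3 := h.ap_norm hS hw
    rw [← h.iter_eq hS hw] at h3
    refine h3.trans ?_
    exact mul_le_mul_of_nonneg_left (h.pow_two hs0 j) (g0 0)
  have h4 : (g s ^ s0) ^ 2 ^ j ≤ (g 0 ^ s0 * EE μ k s0 ^ s) ^ 2 ^ j := by
    calc (g s ^ s0) ^ 2 ^ j = g s ^ (2 ^ j * s0) := by rw [← pow_mul, mul_comm]
      _ ≤ g 0 ^ (2 ^ j * s0 - s) * g (2 ^ j * s0) ^ s := h1
      _ ≤ g 0 ^ (2 ^ j * s0 - s) * (g 0 * EE μ k s0 ^ 2 ^ j) ^ s := by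
          apply mul_le_mul_of_nonneg_left _ (pow_nonneg (g0 0) _)
          exact pow_le_pow_left₀ (g0 _) h2 _
      _ = g 0 ^ (2 ^ j * s0 - s + s) * EE μ k s0 ^ (2 ^ j * s) := by
          rw [mul_pow, pow_add, ← pow_mul]; ring
      _ = (g 0 ^ s0 * EE μ k s0 ^ s) ^ 2 ^ j := by
          rw [Nat.sub_add_cancel hj, mul_pow, ← pow_mul, ← pow_mul, mul_comm s0, mul_comm s]
  exact (pow_le_pow_iff_left₀ (pow_nonneg (g0 _) _)
    (mul_nonneg (pow_nonneg (g0 _) _) (pow_nonneg (EE_nonneg _) _)) (by positivity)).1 h4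

/-- the norm of the operator, as bounded by a Hilbert-Schmidt norm -/
noncomputable def rho (μ : Measure X) (k : ℕ → X → X → ℝ) (s0 : ℕ) : ℝ :=
  EE μ k s0 ^ (1 / (2 * s0 : ℝ))

lemma rho_nonneg (s0 : ℕ) : 0 ≤ rho μ k s0 := Real.rpow_nonneg (EE_nonneg _) _

lemma rho_pow {s0 : ℕ} (hs0 : 1 ≤ s0) (s : ℕ) : (rho μ k s0 ^ (2 * s)) ^ s0 = EE μ k s0 ^ s := by
  unfold rho
  have hs0' : (s0 : ℝ) ≠ 0 := by positivity
  rw [← pow_mul, ← Real.rpow_natCast, ← Real.rpow_mul (EE_nonneg _), ← Real.rpow_natCast]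
  congr 1
  push_cast
  field_simp

lemma KS.ap_rho' (h : KS μ k) {s0 : ℕ} (hs0 : 1 ≤ s0) {s : ℕ} (hs : 1 ≤ s) {w : X → ℝ}
    (hw : BM w) : ∫ x, ap μ k s w x ^ 2 ∂μ ≤ rho μ k s0 ^ (2 * s) * ∫ x, w x ^ 2 ∂μ := by
  have h1 := h.ap_rho hs0 s hw
  rw [h.iter_eq hs hw, ← rho_pow hs0 s, mul_comm, ← mul_pow] at h1
  exact (pow_le_pow_iff_left₀ (integral_nonneg fun x => sq_nonneg _)
    (mul_nonneg (pow_nonneg (rho_nonneg _) _) (integral_nonneg fun x => sq_nonneg _))
    (by omega)).1 h1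

/-- matrix elements -/
lemma KS.elt (h : KS μ k) {s0 : ℕ} (hs0 : 1 ≤ s0) {s : ℕ} (hs : 1 ≤ s) {w v : X → ℝ}
    (hw : BM w) (hv : BM v) : |∫ x, w x * ap μ k s v x ∂μ| ≤
      rho μ k s0 ^ s * (√(∫ x, w x ^ 2 ∂μ) * √(∫ x, v x ^ 2 ∂μ)) := by
  have h1 := schwarz' (μ := μ) hw (h.ap_bm hs hv)
  have h2 : √(∫ x, ap μ k s v x ^ 2 ∂μ) ≤ rho μ k s0 ^ s * √(∫ x, v x ^ 2 ∂μ) := by
    rw [Real.sqrt_le_left (mul_nonneg (pow_nonneg (rho_nonneg _) _) (Real.sqrt_nonneg _)),
      mul_pow, Real.sq_sqrt (integral_nonneg fun x => sq_nonneg _), ← pow_mul, mul_comm s 2]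
    exact h.ap_rho' hs0 hs hv
  calc |∫ x, w x * ap μ k s v x ∂μ| ≤ √(∫ x, w x ^ 2 ∂μ) * √(∫ x, ap μ k s v x ^ 2 ∂μ) := h1
    _ ≤ √(∫ x, w x ^ 2 ∂μ) * (rho μ k s0 ^ s * √(∫ x, v x ^ 2 ∂μ)) := by gcongr
    _ = _ := by ring

/-- traces of products with multiplication operators -/
lemma KS.trace_bound {a b : ℕ → X → X → ℝ} (ha : KS μ a) (hb : KS μ b) {s0 : ℕ} (hs0 : 1 ≤ s0)
    {τ p q : ℕ} (hτ : 1 ≤ τ) (hp : 1 ≤ p) (hq : 1 ≤ q) {f f' : X → ℝ} (hf : BM f) (hf' : BM f')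
    {C C' : ℝ} (hC : ∀ x, |f x| ≤ C) (hC' : ∀ x, |f' x| ≤ C') (hC0 : 0 ≤ C) (hC0' : 0 ≤ C') :
    |∫ z, ∫ z', f z * f' z' * (a τ z z' * b (p + q) z' z) ∂μ ∂μ| ≤
      C * C' * (rho μ a s0 ^ τ * (√(EE μ b q) * √(EE μ b p))) := by
  -- rewriting
  have h1 : ∫ z, ∫ z', f z * f' z' * (a τ z z' * b (p + q) z' z) ∂μ ∂μ =
      ∫ u, ∫ z, (f z * b q u z) * ap μ a τ (fun z' => f' z' * b p z' u) z ∂μ ∂μ := by
    have e1 : ∀ z z', f z * f' z' * (a τ z z' * b (p + q) z' z) =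
        ∫ u, (f z * b q u z) * (a τ z z' * (f' z' * b p z' u)) ∂μ := by
      intro z z'
      rw [hb.semi p q hp hq, ← integral_const_mul, ← integral_const_mul]
      congr 1
      funext u
      ring
    have e2 : ∀ u z, (f z * b q u z) * ap μ a τ (fun z' => f' z' * b p z' u) z =
        ∫ z', (f z * b q u z) * (a τ z z' * (f' z' * b p z' u)) ∂μ := by
      intro u z
      unfold ap
      rw [← integral_const_mul]
    simp only [e1, e2]
    -- three-fold Fubini
    have b3 : BM fun w : (X × X) × X => (f w.1.1 * b q w.2 w.1.1) *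
        (a τ w.1.1 w.1.2 * (f' w.1.2 * b p w.1.2 w.2)) := by
      refine ((hf.comp measurable_fst.fst).mul ?_).mul (BM.mul ?_ ((hf'.comp
        measurable_fst.snd).mul ?_))
      · exact (hb.bm q hq).comp (measurable_snd.prodMk measurable_fst.fst)
      · exact (ha.bm τ hτ).comp (measurable_fst.fst.prodMk measurable_fst.snd)
      · exact (hb.bm p hp).comp (measurable_fst.snd.prodMk measurable_snd)
    have s1 : ∀ z, ∫ z', ∫ u, (f z * b q u z) * (a τ z z' * (f' z' * b p z' u)) ∂μ ∂μ =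
        ∫ u, ∫ z', (f z * b q u z) * (a τ z z' * (f' z' * b p z' u)) ∂μ ∂μ := by
      intro z
      refine swp ?_
      exact b3.comp (φ := fun w : X × X => ((z, w.1), w.2))
        ((measurable_const.prodMk measurable_fst).prodMk measurable_snd)
    simp only [s1]
    refine swp ?_
    have b4 : BM fun w : (X × X) × X => (f w.1.1 * b q w.1.2 w.1.1) *
        (a τ w.1.1 w.2 * (f' w.2 * b p w.2 w.1.2)) :=
      b3.comp (φ := fun w : (X × X) × X => ((w.1.1, w.2), w.1.2))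
        ((measurable_fst.fst.prodMk measurable_snd).prodMk measurable_fst.snd)
    exact b4.intg
  rw [h1]
  have bw : ∀ u, BM fun z => f z * b q u z := fun u => hf.mul (hb.bl hq u)
  have bv : ∀ u, BM fun z => f' z * b p z u := fun u => hf'.mul (hb.br hp u)
  have bW : BM fun u => √(∫ z, (f z * b q u z) ^ 2 ∂μ) := by
    have h2 : BM fun w : X × X => (f w.2 * b q w.1 w.2) ^ 2 :=
      ((hf.comp measurable_snd).mul (hb.bm q hq)).pow 2
    have h3 := h2.intg (ν := μ)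
    obtain ⟨m3, D, hD⟩ := h3
    exact ⟨m3.sqrt, √D, fun x => by
      rw [abs_of_nonneg (Real.sqrt_nonneg _)]
      exact Real.sqrt_le_sqrt ((le_abs_self _).trans (hD x))⟩
  have bV : BM fun u => √(∫ z, (f' z * b p z u) ^ 2 ∂μ) := by
    have h2 : BM fun w : X × X => (f' w.2 * b p w.2 w.1) ^ 2 :=
      ((hf'.comp measurable_snd).mul ((hb.bm p hp).comp
        (measurable_snd.prodMk measurable_fst))).pow 2
    have h3 := h2.intg (ν := μ)
    obtain ⟨m3, D, hD⟩ := h3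
    exact ⟨m3.sqrt, √D, fun x => by
      rw [abs_of_nonneg (Real.sqrt_nonneg _)]
      exact Real.sqrt_le_sqrt ((le_abs_self _).trans (hD x))⟩
  have bi : BM fun u => ∫ z, (f z * b q u z) * ap μ a τ (fun z' => f' z' * b p z' u) z ∂μ := by
    have h2 : BM fun w : (X × X) × X => (f w.1.2 * b q w.1.1 w.1.2) *
        (a τ w.1.2 w.2 * (f' w.2 * b p w.2 w.1.1)) := by
      refine ((hf.comp measurable_fst.snd).mul ?_).mul (BM.mul ?_ ((hf'.comp
        measurable_snd).mul ?_))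
      · exact (hb.bm q hq).comp (measurable_fst.fst.prodMk measurable_fst.snd)
      · exact (ha.bm τ hτ).comp (measurable_fst.snd.prodMk measurable_snd)
      · exact (hb.bm p hp).comp (measurable_snd.prodMk measurable_fst.fst)
    have h3 := h2.intg (ν := μ)
    have h4 := h3.intg (ν := μ)
    have e : (fun u => ∫ z, (f z * b q u z) * ap μ a τ (fun z' => f' z' * b p z' u) z ∂μ) =
        fun u => ∫ z, ∫ z', (f z * b q u z) * (a τ z z' * (f' z' * b p z' u)) ∂μ ∂μ := by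
      funext u
      congr 1
      funext z
      unfold ap
      rw [← integral_const_mul]
    rw [e]
    exact h4
  calc |∫ u, ∫ z, (f z * b q u z) * ap μ a τ (fun z' => f' z' * b p z' u) z ∂μ ∂μ|
      ≤ ∫ u, |∫ z, (f z * b q u z) * ap μ a τ (fun z' => f' z' * b p z' u) z ∂μ| ∂μ :=
        abs_integral_le_integral_abs
    _ ≤ ∫ u, rho μ a s0 ^ τ * (√(∫ z, (f z * b q u z) ^ 2 ∂μ) *
          √(∫ z, (f' z * b p z u) ^ 2 ∂μ)) ∂μ := by
        refine integral_mono bi.int.abs ((BM.const _).mul (bW.mul bV)).int fun u => ?_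
        exact ha.elt hs0 hτ (bw u) (bv u)
    _ = rho μ a s0 ^ τ * ∫ u, √(∫ z, (f z * b q u z) ^ 2 ∂μ) *
          √(∫ z, (f' z * b p z u) ^ 2 ∂μ) ∂μ := integral_const_mul _ _
    _ ≤ rho μ a s0 ^ τ * (√(C ^ 2 * EE μ b q) * √(C' ^ 2 * EE μ b p)) := by
        refine mul_le_mul_of_nonneg_left ?_ (pow_nonneg (rho_nonneg _) _)
        refine (le_abs_self _).trans ((schwarz' bW bV).trans ?_)
        have g1 : ∫ u, √(∫ z, (f z * b q u z) ^ 2 ∂μ) ^ 2 ∂μ ≤ C ^ 2 * EE μ b q := by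
          have e : ∀ u, √(∫ z, (f z * b q u z) ^ 2 ∂μ) ^ 2 = ∫ z, (f z * b q u z) ^ 2 ∂μ :=
            fun u => Real.sq_sqrt (integral_nonneg fun z => sq_nonneg _)
          simp only [e]
          unfold EE
          rw [← integral_const_mul]
          refine integral_mono ?_ ((BM.const _).mul (hb.bsq hq)).int fun u => ?_
          · have h2 : BM fun w : X × X => (f w.2 * b q w.1 w.2) ^ 2 :=
              ((hf.comp measurable_snd).mul (hb.bm q hq)).pow 2
            exact (h2.intg (ν := μ)).int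
          · simp only
            rw [← integral_const_mul]
            refine integral_mono ((bw u).pow 2).int
              ((BM.const _).mul ((hb.bl hq u).pow 2)).int fun z => ?_
            simp only
            rw [mul_pow]
            gcongr ?_ * _
            rw [← sq_abs]
            exact pow_le_pow_left₀ (abs_nonneg _) (hC z) 2
        have g2 : ∫ u, √(∫ z, (f' z * b p z u) ^ 2 ∂μ) ^ 2 ∂μ ≤ C' ^ 2 * EE μ b p := by
          have e : ∀ u, √(∫ z, (f' z * b p z u) ^ 2 ∂μ) ^ 2 = ∫ z, (f' z * b p z u) ^ 2 ∂μ :=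
            fun u => Real.sq_sqrt (integral_nonneg fun z => sq_nonneg _)
          simp only [e]
          unfold EE
          rw [← integral_const_mul]
          refine integral_mono ?_ ((BM.const _).mul (hb.bsq hp)).int fun u => ?_
          · have h2 : BM fun w : X × X => (f' w.2 * b p w.2 w.1) ^ 2 :=
              ((hf'.comp measurable_snd).mul ((hb.bm p hp).comp
                (measurable_snd.prodMk measurable_fst))).pow 2
            exact (h2.intg (ν := μ)).int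
          · simp only
            rw [← integral_const_mul]
            refine integral_mono ((bv u).pow 2).int
              ((BM.const _).mul ((hb.bl hp u).pow 2)).int fun z => ?_
            simp only
            rw [mul_pow, hb.symm p hp z u]
            gcongr ?_ * _
            rw [← sq_abs]
            exact pow_le_pow_left₀ (abs_nonneg _) (hC' z) 2
        gcongr
    _ = C * C' * (rho μ a s0 ^ τ * (√(EE μ b q) * √(EE μ b p))) := by
        rw [Real.sqrt_mul (sq_nonneg _), Real.sqrt_mul (sq_nonneg _), Real.sqrt_sq hC0,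
          Real.sqrt_sq hC0']
        ring

end Pool.Agent.Run7.h897.FS
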