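import Pool.Agent.Run7.h897.FS.Slice

/-!
# Tori with different sides
-/

set_option linter.unusedSectionVars false
set_option linter.unusedVariables false

open MeasureTheory Filter Topology

namespace Pool.Agent.Run7.h897.FS



variable {D : ℕ}

/-- points of the torus with sides `L` -/
abbrev Site {d : ℕ} (L : Fin d → ℕ) : Type := (i : Fin d) → ZMod (L i)

/-- links of the torus with sides `L` -/
abbrev Lk {d : ℕ} (L : Fin d → ℕ) : Type := Site L × Fin d

/-- the cross section -/
abbrev cs (L : Fin (D + 1) → ℕ) (i : Fin (D + 1)) : Fin D → ℕ := fun j => L (i.succAbove j)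

/-- the point with time `t` and spatial part `y` -/
def ins (L : Fin (D + 1) → ℕ) (i : Fin (D + 1)) (t : ZMod (L i)) (y : Site (cs L i)) : Site L :=
  Fin.insertNth (α := fun j => ZMod (L j)) i t y

lemma ins_same (L : Fin (D + 1) → ℕ) (i : Fin (D + 1)) (t : ZMod (L i)) (y : Site (cs L i)) :
    ins L i t y i = t := by
  unfold ins; rw [Fin.insertNth_apply_same]

lemma ins_sA (L : Fin (D + 1) → ℕ) (i : Fin (D + 1)) (t : ZMod (L i)) (y : Site (cs L i))
    (j : Fin D) : ins L i t y (i.succAbove j) = y j := by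
  unfold ins; rw [Fin.insertNth_apply_succAbove]

lemma ins_eta (L : Fin (D + 1) → ℕ) (i : Fin (D + 1)) (x : Site L) :
    ins L i (x i) (fun j => x (i.succAbove j)) = x := by
  funext j
  rcases Fin.eq_self_or_eq_succAbove i j with rfl | ⟨k, rfl⟩
  · rw [ins_same]
  · rw [ins_sA]

lemma ins_add_time (L : Fin (D + 1) → ℕ) (i : Fin (D + 1)) (t : ZMod (L i))
    (y : Site (cs L i)) : ins L i t y + Pi.single i 1 = ins L i (t + 1) y := by
  funext j
  rcases Fin.eq_self_or_eq_succAbove i j with rfl | ⟨k, rfl⟩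
  · rw [Pi.add_apply, ins_same, ins_same, Pi.single_eq_same]
  · rw [Pi.add_apply, ins_sA, ins_sA, Pi.single_eq_of_ne (Fin.succAbove_ne i k), add_zero]

lemma ins_add_space (L : Fin (D + 1) → ℕ) (i : Fin (D + 1)) (t : ZMod (L i))
    (y : Site (cs L i)) (k : Fin D) :
    ins L i t y + Pi.single (i.succAbove k) 1 = ins L i t (y + Pi.single k 1) := by
  funext j
  rcases Fin.eq_self_or_eq_succAbove i j with rfl | ⟨m, rfl⟩
  · rw [Pi.add_apply, ins_same, ins_same, Pi.single_eq_of_ne (Fin.succAbove_ne j k).symm,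
      add_zero]
  · rw [Pi.add_apply, ins_sA, ins_sA, Pi.add_apply]
    rcases eq_or_ne m k with rfl | hmk
    · rw [Pi.single_eq_same, Pi.single_eq_same]
    · rw [Pi.single_eq_of_ne hmk, Pi.single_eq_of_ne
        (fun h => hmk (Fin.succAbove_right_injective h))]

/-- the links in terms of slices -/
def idx (L : Fin (D + 1) → ℕ) (i : Fin (D + 1)) :
    (ZMod (L i) × Lk (cs L i)) ⊕ (ZMod (L i) × Site (cs L i)) → Lk L
  | Sum.inl p => (ins L i p.1 p.2.1, i.succAbove p.2.2)
  | Sum.inr p => (ins L i p.1 p.2, i)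

lemma ins_inj {L : Fin (D + 1) → ℕ} {i : Fin (D + 1)} {t t' : ZMod (L i)}
    {y y' : Site (cs L i)} (h : ins L i t y = ins L i t' y') : t = t' ∧ y = y' := by
  refine ⟨?_, ?_⟩
  · have := congrFun h i
    rwa [ins_same, ins_same] at this
  · funext j
    have := congrFun h (i.succAbove j)
    rwa [ins_sA, ins_sA] at this

lemma idx_bij (L : Fin (D + 1) → ℕ) (i : Fin (D + 1)) : Function.Bijective (idx L i) := by
  constructor
  · rintro (⟨t, y, j⟩ | ⟨t, y⟩) (⟨t', y', j'⟩ | ⟨t', y'⟩) h
    · simp only [idx, Prod.mk.injEq] at h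
      obtain ⟨h1, h2⟩ := h
      obtain ⟨rfl, rfl⟩ := ins_inj h1
      rw [Fin.succAbove_right_injective h2]
    · simp only [idx, Prod.mk.injEq] at h
      exact absurd h.2 (Fin.succAbove_ne i j)
    · simp only [idx, Prod.mk.injEq] at h
      exact absurd h.2.symm (Fin.succAbove_ne i j')
    · simp only [idx, Prod.mk.injEq] at h
      obtain ⟨rfl, rfl⟩ := ins_inj h.1
      rfl
  · rintro ⟨x, j⟩
    rcases Fin.eq_self_or_eq_succAbove i j with rfl | ⟨k, rfl⟩
    · exact ⟨Sum.inr (x j, fun k => x (j.succAbove k)), by simp only [idx]; rw [ins_eta]⟩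
    · exact ⟨Sum.inl (x i, fun k => x (i.succAbove k), k), by simp only [idx]; rw [ins_eta]⟩

/-- the same as an equivalence -/
noncomputable def sg (L : Fin (D + 1) → ℕ) (i : Fin (D + 1)) :
    (ZMod (L i) × Lk (cs L i)) ⊕ (ZMod (L i) × Site (cs L i)) ≃ Lk L :=
  Equiv.ofBijective (idx L i) (idx_bij L i)

lemma sg_inl (L : Fin (D + 1) → ℕ) (i : Fin (D + 1)) (t : ZMod (L i)) (e : Lk (cs L i)) :
    sg L i (Sum.inl (t, e)) = (ins L i t e.1, i.succAbove e.2) := rfl

lemma sg_inr (L : Fin (D + 1) → ℕ) (i : Fin (D + 1)) (t : ZMod (L i)) (y : Site (cs L i)) :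
    sg L i (Sum.inr (t, y)) = (ins L i t y, i) := rfl

/-! ### plaquettes and actions -/

variable {G : Type*} [Group G]

/-- plaquettes -/
def plq {d : ℕ} {L : Fin d → ℕ} (U : Lk L → G) (x : Site L) (i j : Fin d) : G :=
  U (x, i) * U (x + Pi.single i 1, j) * (U (x + Pi.single j 1, i))⁻¹ * (U (x, j))⁻¹

/-- the action with the plaquette energy `w` and the couplings `b` -/
noncomputable def act {d : ℕ} {L : Fin d → ℕ} [∀ i, NeZero (L i)] (w : G → ℝ)
    (b : Fin d → Fin d → ℝ) (U : Lk L → G) : ℝ :=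
  ∑ x : Site L, ∑ i, ∑ j, if i < j then b i j * w (plq U x i j) else 0

/-- class functions, invariant under the inversion -/
structure Wt (w : G → ℝ) : Prop where
  inv : ∀ g, w g⁻¹ = w g
  conj : ∀ h g, w (h * g * h⁻¹) = w g

lemma plq_swap {d : ℕ} {L : Fin d → ℕ} (U : Lk L → G) (x : Site L) (i j : Fin d) :
    plq U x j i = (plq U x i j)⁻¹ := by
  unfold plq; group

lemma sum_lt (i : Fin (D + 1)) {s : Fin (D + 1) → Fin (D + 1) → ℝ} :
    ∑ j, ∑ k, (if j < k then s j k else 0) =
      ∑ k, (if i < i.succAbove k then s i (i.succAbove k) else s (i.succAbove k) i) +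
      ∑ j, ∑ k, (if j < k then s (i.succAbove j) (i.succAbove k) else 0) := by
  rw [Fin.sum_univ_succAbove _ i, Fin.sum_univ_succAbove _ i]
  simp only [lt_irrefl, if_false, zero_add]
  have e : ∀ j : Fin D, ∑ k, (if i.succAbove j < k then s (i.succAbove j) k else 0) =
      (if i.succAbove j < i then s (i.succAbove j) i else 0) +
        ∑ k, (if j < k then s (i.succAbove j) (i.succAbove k) else 0) := by
    intro j
    rw [Fin.sum_univ_succAbove _ i]
    simp only [Fin.succAbove_lt_succAbove_iff]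
  simp only [e]
  rw [Finset.sum_add_distrib, ← add_assoc, ← Finset.sum_add_distrib]
  congr 1
  refine Finset.sum_congr rfl fun k _ => ?_
  rcases lt_or_ge i (i.succAbove k) with h | h
  · simp [h, not_lt.2 h.le]
  · have h' : i.succAbove k < i := lt_of_le_of_ne h (Fin.succAbove_ne i k)
    simp [h', not_lt.2 h]

/-- couplings of the time plaquettes -/
def bt (b : Fin (D + 1) → Fin (D + 1) → ℝ) (i : Fin (D + 1)) (k : Fin D) : ℝ :=
  if i < i.succAbove k then b i (i.succAbove k) else b (i.succAbove k) i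

/-- couplings of the spatial plaquettes -/
def bs (b : Fin (D + 1) → Fin (D + 1) → ℝ) (i : Fin (D + 1)) (j k : Fin D) : ℝ :=
  b (i.succAbove j) (i.succAbove k)

/-- the energy of the time plaquettes -/
noncomputable def tact {D : ℕ} {C : Fin D → ℕ} [∀ i, NeZero (C i)] (w : G → ℝ) (b : Fin D → ℝ)
    (x : Lk C → G) (g : Site C → G) (x' : Lk C → G) : ℝ :=
  ∑ y : Site C, ∑ k, b k * w (g y * x' (y, k) * (g (y + Pi.single k 1))⁻¹ * (x (y, k))⁻¹)

lemma tact_swap {D : ℕ} {C : Fin D → ℕ} [∀ i, NeZero (C i)] {w : G → ℝ} (hw : Wt w)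
    (b : Fin D → ℝ) (x : Lk C → G) (g : Site C → G) (x' : Lk C → G) :
    tact w b x' (fun y => (g y)⁻¹) x = tact w b x g x' := by
  unfold tact
  refine Finset.sum_congr rfl fun y _ => Finset.sum_congr rfl fun k _ => ?_
  congr 1
  rw [← hw.inv (g y * x' (y, k) * (g (y + Pi.single k 1))⁻¹ * (x (y, k))⁻¹),
    ← hw.conj (g y)⁻¹ (g y * x' (y, k) * (g (y + Pi.single k 1))⁻¹ * (x (y, k))⁻¹)⁻¹]
  congr 1
  group

variable {L : Fin (D + 1) → ℕ} [∀ i, NeZero (L i)]

lemma plq_space (i : Fin (D + 1)) (U : Lk L → G) (t : ZMod (L i)) (y : Site (cs L i))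
    (j k : Fin D) : plq U (ins L i t y) (i.succAbove j) (i.succAbove k) =
      plq (xs (sg L i) U t) y j k := by
  unfold plq xs
  simp only [sg_inl, ins_add_space]

lemma plq_time (i : Fin (D + 1)) (U : Lk L → G) (t : ZMod (L i)) (y : Site (cs L i))
    (k : Fin D) : plq U (ins L i t y) i (i.succAbove k) =
      gs (sg L i) U t y * xs (sg L i) U (t + 1) (y, k) *
        (gs (sg L i) U t (y + Pi.single k 1))⁻¹ * (xs (sg L i) U t (y, k))⁻¹ := by
  unfold plq xs gs
  simp only [sg_inl, sg_inr, ins_add_space, ins_add_time]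

/-- decomposition of the points -/
noncomputable def siteEq (L : Fin (D + 1) → ℕ) (i : Fin (D + 1)) :
    ZMod (L i) × Site (cs L i) ≃ Site L :=
  Equiv.ofBijective (fun p => ins L i p.1 p.2)
    ⟨fun p q h => Prod.ext (ins_inj h).1 (ins_inj h).2,
      fun x => ⟨(x i, fun j => x (i.succAbove j)), ins_eta L i x⟩⟩

/-- decomposition of the action -/
lemma act_slices {w : G → ℝ} (hw : Wt w) (b : Fin (D + 1) → Fin (D + 1) → ℝ) (i : Fin (D + 1))
    (U : Lk L → G) : act w b U =
      ∑ t, (tact w (bt b i) (xs (sg L i) U t) (gs (sg L i) U t) (xs (sg L i) U (t + 1)) +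
        act w (bs b i) (xs (sg L i) U t)) := by
  unfold act
  rw [← (siteEq L i).sum_comp, Fintype.sum_prod_type]
  refine Finset.sum_congr rfl fun t _ => ?_
  unfold tact
  rw [← Finset.sum_add_distrib]
  refine Finset.sum_congr rfl fun y _ => ?_
  change ∑ j, ∑ k, (if j < k then b j k * w (plq U (ins L i t y) j k) else 0) = _
  rw [sum_lt i (s := fun j k => b j k * w (plq U (ins L i t y) j k))]
  congr 1
  · refine Finset.sum_congr rfl fun k _ => ?_
    rw [← plq_time]
    unfold bt
    split_ifs with h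
    · rfl
    · rw [plq_swap, hw.inv]
  · refine Finset.sum_congr rfl fun j _ => Finset.sum_congr rfl fun k _ => ?_
    rw [plq_space]
    rfl

end Pool.Agent.Run7.h897.FS
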