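import Mathlib

/-!
# Sequences of traces of powers

`E n` stands for the trace of the `2 n`-th power of a symmetric operator.
-/

open Filter Topology

namespace Pool.Agent.Run7.h897.FS

/-- log-convex submultiplicative sequences -/
structure TS0 (E : ℕ → ℝ) : Prop where
  pos : ∀ n, 1 ≤ n → 0 < E n
  lc : ∀ n, 1 ≤ n → E (n + 1) ^ 2 ≤ E n * E (n + 2)
  sub : ∀ n m, 1 ≤ n → 1 ≤ m → E (n + m) ≤ E n * E m

/-- the properties of `n ↦ Tr T ^ (2 n)` that are used -/
structure TS (E : ℕ → ℝ) : Prop extends TS0 E where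
  pur : ∀ n, 1 ≤ n → E (2 * n) ^ 2 - E (4 * n) ≤ (E n ^ 2 - E (2 * n)) ^ 2 / 2

/-- the logarithm, normalised at `0` -/
noncomputable def zz (E : ℕ → ℝ) (n : ℕ) : ℝ := if n = 0 then 0 else Real.log (E n)

/-- twice the logarithm of the norm -/
noncomputable def ell (E : ℕ → ℝ) : ℝ := sInf ((fun n : ℕ => zz E n / n) '' Set.Ici 1)

/-- the finite size correction -/
noncomputable def psi (E : ℕ → ℝ) (n : ℕ) : ℝ := Real.log (E n) - n * ell E

/-- the defect of purity -/
noncomputable def dP (E : ℕ → ℝ) (n : ℕ) : ℝ := 1 - E (2 * n) / E n ^ 2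

variable {E : ℕ → ℝ}

lemma zz_zero : zz E 0 = 0 := by simp [zz]

lemma zz_pos {n : ℕ} (hn : 1 ≤ n) : zz E n = Real.log (E n) := by
  simp [zz, show n ≠ 0 by omega]

lemma TS0.subadd (h : TS0 E) : Subadditive (zz E) := by
  intro m n
  rcases Nat.eq_zero_or_pos m with rfl | hm
  · simp [zz_zero]
  rcases Nat.eq_zero_or_pos n with rfl | hn
  · simp [zz_zero]
  rw [zz_pos (by omega), zz_pos hm, zz_pos hn, ← Real.log_mul (h.pos m hm).ne' (h.pos n hn).ne']
  exact Real.log_le_log (h.pos _ (by omega)) (h.sub m n hm hn)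

lemma TS0.slope (h : TS0 E) {n : ℕ} (hn : 1 ≤ n) :
    Real.log (E (n + 1)) - Real.log (E n) ≤ Real.log (E (n + 2)) - Real.log (E (n + 1)) := by
  have h1 := Real.log_le_log (by have := h.pos (n + 1) (by omega); positivity) (h.lc n hn)
  rw [Real.log_mul (h.pos n hn).ne' (h.pos (n + 2) (by omega)).ne', Real.log_pow] at h1
  push_cast at h1
  linarith

lemma TS0.slope_mono (h : TS0 E) {n : ℕ} (hn : 1 ≤ n) (k : ℕ) :
    Real.log (E (n + 1)) - Real.log (E n) ≤
      Real.log (E (n + k + 1)) - Real.log (E (n + k)) := by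
  induction k with
  | zero => simp
  | succ k ih =>
    refine ih.trans ?_
    have := h.slope (n := n + k) (by omega)
    simpa [add_assoc] using this

lemma TS0.lower (h : TS0 E) {n : ℕ} (hn : 1 ≤ n) (k : ℕ) :
    Real.log (E n) + k * (Real.log (E (n + 1)) - Real.log (E n)) ≤ Real.log (E (n + k)) := by
  induction k with
  | zero => simp
  | succ k ih =>
    have := h.slope_mono hn k
    push_cast
    have h2 : n + (k + 1) = n + k + 1 := by ring
    rw [h2]
    linarith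

lemma TS0.bdd (h : TS0 E) : BddBelow (Set.range fun n => zz E n / n) := by
  set s := Real.log (E (1 + 1)) - Real.log (E 1) with hs
  refine ⟨-(|Real.log (E 1)| + 2 * |s|), ?_⟩
  rintro _ ⟨n, rfl⟩
  rcases Nat.eq_zero_or_pos n with rfl | hn
  · have h5 := abs_nonneg s
    have h6 := abs_nonneg (Real.log (E 1))
    simp only [zz_zero]
    norm_num
    linarith
  obtain ⟨k, rfl⟩ : ∃ k, n = 1 + k := ⟨n - 1, by omega⟩
  simp only
  rw [zz_pos (by omega), le_div_iff₀ (by positivity)]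
  have h1 := h.lower (le_refl 1) k
  rw [← hs] at h1
  have h2 : (0 : ℝ) ≤ k := by positivity
  have h3 := neg_abs_le (Real.log (E 1))
  have h4 := neg_abs_le s
  have h5 := abs_nonneg s
  have h6 := abs_nonneg (Real.log (E 1))
  push_cast
  nlinarith [mul_le_mul_of_nonneg_left h4 h2, mul_nonneg h2 h5, mul_nonneg h2 h6]

lemma TS0.ell_eq (h : TS0 E) : ell E = h.subadd.lim := by
  rw [Subadditive.lim, ell]

lemma TS0.tend (h : TS0 E) : Tendsto (fun n : ℕ => zz E n / n) atTop (𝓝 (ell E)) := by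
  rw [h.ell_eq]
  exact h.subadd.tendsto_lim h.bdd

lemma TS0.tend' (h : TS0 E) : Tendsto (fun n : ℕ => Real.log (E n) / n) atTop (𝓝 (ell E)) := by
  refine h.tend.congr' ?_
  filter_upwards [eventually_ge_atTop 1] with n hn
  rw [zz_pos hn]

lemma TS0.ell_le (h : TS0 E) {n : ℕ} (hn : 1 ≤ n) : n * ell E ≤ Real.log (E n) := by
  have h1 := h.subadd.lim_le_div h.bdd (n := n) (by omega)
  rw [← h.ell_eq, zz_pos hn, le_div_iff₀ (by positivity)] at h1
  linarith

lemma TS0.psi_nonneg (h : TS0 E) {n : ℕ} (hn : 1 ≤ n) : 0 ≤ psi E n := by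
  have := h.ell_le hn
  unfold psi
  linarith

lemma TS0.slope_le (h : TS0 E) {n : ℕ} (hn : 1 ≤ n) :
    Real.log (E (n + 1)) - Real.log (E n) ≤ ell E := by
  set s := Real.log (E (n + 1)) - Real.log (E n) with hs
  have h1 : Tendsto (fun k : ℕ => (Real.log (E n) + (k : ℝ) * s) / ((n + k : ℕ) : ℝ)) atTop
      (𝓝 s) := by
    have h2 : Tendsto (fun k : ℕ => ((n + k : ℕ) : ℝ)⁻¹) atTop (𝓝 0) := by
      refine tendsto_inv_atTop_zero.comp ?_
      exact tendsto_natCast_atTop_atTop.comp (tendsto_add_atTop_nat' n)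
    have h3 : Tendsto (fun k : ℕ => (Real.log (E n) - n * s) * ((n + k : ℕ) : ℝ)⁻¹ + s) atTop
        (𝓝 ((Real.log (E n) - n * s) * 0 + s)) := (h2.const_mul _).add_const _
    rw [mul_zero, zero_add] at h3
    refine h3.congr fun k => ?_
    have : ((n + k : ℕ) : ℝ) ≠ 0 := by positivity
    field_simp
    push_cast
    ring
  have h4 : Tendsto (fun k : ℕ => Real.log (E (n + k)) / ((n + k : ℕ) : ℝ)) atTop
      (𝓝 (ell E)) := h.tend'.comp (tendsto_add_atTop_nat' n)
  refine le_of_tendsto_of_tendsto' h1 h4 fun k => ?_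
  have : (0 : ℝ) < ((n + k : ℕ) : ℝ) := by positivity
  gcongr
  exact h.lower hn k
where
  tendsto_add_atTop_nat' (n : ℕ) : Tendsto (fun k : ℕ => n + k) atTop atTop :=
    tendsto_atTop_mono (fun k => Nat.le_add_left k n) tendsto_id

lemma TS0.step (h : TS0 E) {n : ℕ} (hn : 1 ≤ n) (k : ℕ) :
    Real.log (E (n + k)) ≤ Real.log (E n) + k * ell E := by
  induction k with
  | zero => simp
  | succ k ih =>
    have := h.slope_le (n := n + k) (by omega)
    push_cast
    rw [← add_assoc]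
    linarith

lemma TS0.psi_anti (h : TS0 E) {n m : ℕ} (hn : 1 ≤ n) (hm : n ≤ m) : psi E m ≤ psi E n := by
  obtain ⟨k, rfl⟩ := Nat.exists_eq_add_of_le hm
  have := h.step hn k
  unfold psi
  push_cast
  linarith

/-- `psi (m) / m → 0` along the powers of two -/
lemma TS0.psi_small (h : TS0 E) {n : ℕ} (hn : 1 ≤ n) :
    Tendsto (fun j : ℕ => psi E (2 ^ j * n) / 2 ^ j) atTop (𝓝 0) := by
  have h1 : Tendsto (fun j : ℕ => (2 : ℝ) ^ j) atTop atTop :=
    tendsto_pow_atTop_atTop_of_one_lt (by norm_num)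
  have h2 : Tendsto (fun j : ℕ => psi E n / (2 : ℝ) ^ j) atTop (𝓝 0) := h1.const_div_atTop _
  refine squeeze_zero (fun j => ?_) (fun j => ?_) h2
  · exact div_nonneg (h.psi_nonneg (Nat.one_le_iff_ne_zero.2 (by positivity))) (by positivity)
  · gcongr
    exact h.psi_anti hn (Nat.le_mul_of_pos_left n (by positivity))

lemma TS0.dP_nonneg (h : TS0 E) {n : ℕ} (hn : 1 ≤ n) : 0 ≤ dP E n := by
  unfold dP
  have h1 := h.sub n n hn hn
  have h2 := h.pos n hn
  rw [← two_mul] at h1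
  rw [sub_nonneg, div_le_one (by positivity)]
  nlinarith

lemma TS0.dP_lt (h : TS0 E) {n : ℕ} (hn : 1 ≤ n) : dP E n < 1 := by
  unfold dP
  have h2 := h.pos n hn
  have h3 := h.pos (2 * n) (by omega)
  have : 0 < E (2 * n) / E n ^ 2 := by positivity
  linarith

lemma TS0.two_psi (h : TS0 E) {n : ℕ} (hn : 1 ≤ n) :
    2 * psi E n - psi E (2 * n) = -Real.log (1 - dP E n) := by
  unfold psi dP
  have h2 := h.pos n hn
  have h3 := h.pos (2 * n) (by omega)
  rw [sub_sub_cancel, Real.log_div h3.ne' (by positivity), Real.log_pow]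
  push_cast
  ring

lemma TS0.dP_le (h : TS0 E) {n : ℕ} (hn : 1 ≤ n) : dP E n ≤ 2 * psi E n := by
  have h1 := h.two_psi hn
  have h2 := h.psi_nonneg (n := 2 * n) (by omega)
  have h3 := h.dP_lt hn
  have h4 := Real.log_le_sub_one_of_pos (show 0 < 1 - dP E n by linarith)
  linarith

lemma TS.dP_two (h : TS E) {n : ℕ} (hn : 1 ≤ n) (hd : dP E n ≤ 1 / 8) :
    dP E (2 * n) ≤ 2 / 3 * dP E n ^ 2 := by
  have h2 := h.pos n hn
  have h3 := h.pos (2 * n) (by omega)
  have h1 := h.pur n hn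
  have h0 := h.dP_nonneg hn
  have e1 : E (2 * n) = E n ^ 2 * (1 - dP E n) := by
    unfold dP; field_simp; ring
  have e2 : E (4 * n) = E (2 * n) ^ 2 * (1 - dP E (2 * n)) := by
    unfold dP
    rw [show 2 * (2 * n) = 4 * n by ring]
    field_simp
    ring
  set x := dP E n
  set y := dP E (2 * n)
  have h5 : E (2 * n) ^ 2 * y ≤ (E n ^ 2 * x) ^ 2 / 2 := by
    have e3 : E (2 * n) ^ 2 - E (4 * n) = E (2 * n) ^ 2 * y := by rw [e2]; ring
    have e4 : E n ^ 2 - E (2 * n) = E n ^ 2 * x := by rw [e1]; ring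
    rw [← e3, ← e4]
    exact h1
  rw [e1] at h5
  have h6 : (1 - x) ^ 2 * y ≤ x ^ 2 / 2 := by
    have h7 : 0 < (E n ^ 2) ^ 2 := by positivity
    have h8 : (E n ^ 2) ^ 2 * ((1 - x) ^ 2 * y) ≤ (E n ^ 2) ^ 2 * (x ^ 2 / 2) := by
      nlinarith
    exact le_of_mul_le_mul_left h8 h7
  have h9 : (7 / 8 : ℝ) ^ 2 ≤ (1 - x) ^ 2 := by
    apply pow_le_pow_left₀ (by norm_num)
    linarith
  have h10 : 0 ≤ y := h.dP_nonneg (by omega)
  nlinarith [mul_le_mul_of_nonneg_right h9 h10, sq_nonneg x]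

lemma neg_log_le {x : ℝ} (h0 : 0 ≤ x) (h1 : x ≤ 1 / 8) : -Real.log (1 - x) ≤ 8 / 7 * x := by
  have h2 := Real.one_sub_inv_le_log_of_pos (show 0 < 1 - x by linarith)
  have h3 : (1 - x)⁻¹ ≤ 1 + 8 / 7 * x := by
    rw [inv_le_iff_one_le_mul₀ (by linarith)]
    nlinarith
  linarith

lemma TS.psi_le_dP (h : TS E) {n : ℕ} (hn : 1 ≤ n) (hd : dP E n ≤ 1 / 8) :
    psi E n ≤ dP E n := by
  have h0 := h.dP_nonneg hn
  have hp : ∀ j : ℕ, 1 ≤ 2 ^ j * n := fun j => Nat.one_le_iff_ne_zero.2 (by positivity)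
  have h1 : ∀ j : ℕ, dP E (2 ^ j * n) ≤ dP E n / 8 ^ j := by
    intro j
    induction j with
    | zero => simp
    | succ j ih =>
      have h2 : dP E (2 ^ j * n) ≤ 1 / 8 := ih.trans ((div_le_self h0
        (one_le_pow₀ (by norm_num))).trans hd)
      have h3 := h.dP_two (hp j) h2
      have h4 := h.dP_nonneg (hp j)
      rw [show 2 ^ (j + 1) * n = 2 * (2 ^ j * n) by ring]
      have h5 : dP E n / 8 ^ (j + 1) = dP E n / 8 ^ j / 8 := by rw [pow_succ]; field_simp
      rw [h5]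
      nlinarith
  have h2 : ∀ J : ℕ, psi E n ≤ psi E (2 ^ J * n) / 2 ^ J +
      4 / 7 * dP E n * ∑ j ∈ Finset.range J, (1 / 16 : ℝ) ^ j := by
    intro J
    induction J with
    | zero => simp
    | succ J ih =>
      have h3 := h.two_psi (hp J)
      have h4 := h.dP_nonneg (hp J)
      have h5 : dP E (2 ^ J * n) ≤ 1 / 8 := (h1 J).trans ((div_le_self h0
        (one_le_pow₀ (by norm_num))).trans hd)
      have h6 := neg_log_le h4 h5
      rw [show 2 * (2 ^ J * n) = 2 ^ (J + 1) * n by ring] at h3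
      have h7 : psi E (2 ^ J * n) ≤ psi E (2 ^ (J + 1) * n) / 2 + 4 / 7 * (dP E n / 8 ^ J) := by
        have := h1 J
        linarith
      have h8 : psi E (2 ^ J * n) / 2 ^ J ≤ psi E (2 ^ (J + 1) * n) / 2 ^ (J + 1) +
          4 / 7 * dP E n * (1 / 16) ^ J := by
        have e1 : psi E (2 ^ (J + 1) * n) / 2 ^ (J + 1) + 4 / 7 * dP E n * (1 / 16) ^ J =
            (psi E (2 ^ (J + 1) * n) / 2 + 4 / 7 * (dP E n / 8 ^ J)) / 2 ^ J := by
          have : (1 / 16 : ℝ) ^ J = 1 / 8 ^ J / 2 ^ J := by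
            rw [div_div, ← mul_pow, one_div_pow]; norm_num
          rw [this]
          field_simp
          ring
        rw [e1]
        gcongr
      rw [Finset.sum_range_succ]
      linarith
  have h3 : ∀ J : ℕ, psi E n ≤ psi E (2 ^ J * n) / 2 ^ J + dP E n := by
    intro J
    refine (h2 J).trans ?_
    have h4 : ∑ j ∈ Finset.range J, (1 / 16 : ℝ) ^ j ≤ 16 / 15 := by
      rw [geom_sum_eq (by norm_num)]
      have : (0 : ℝ) ≤ (1 / 16) ^ J := by positivity
      rw [div_le_iff_of_neg (by norm_num)]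
      linarith
    nlinarith
  have h4 := (h.psi_small hn).add_const (dP E n)
  rw [zero_add] at h4
  exact ge_of_tendsto' h4 h3

/-- the fundamental contraction -/
lemma TS.psi_two (h : TS E) {n : ℕ} (hn : 1 ≤ n) (hp : psi E n ≤ 1 / 16) :
    psi E (2 * n) ≤ 3 * psi E n ^ 2 := by
  have h1 := h.dP_le hn
  have h2 := h.dP_two hn (by linarith)
  have h0 := h.dP_nonneg hn
  have h3 : dP E (2 * n) ≤ 1 / 8 := by nlinarith
  have h4 := h.psi_le_dP (n := 2 * n) (by omega) h3
  nlinarith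

end Pool.Agent.Run7.h897.FS
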